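import Mathlib.Data.ZMod.Basic
import Mathlib.Data.Fintype.Pigeonhole
import Mathlib.Tactic

/-!
TYPE C2, case B3, the base: the vector `w_0` (one closed wall).

`h 0, h 1, h 2 : T` are the classes of the three letters in a finite abelian group of order `M`, generated by the
differences; `n : Fin 3 -> ℤ` with sum zero and `∑ n i • h i = 0` are the vectors of the lattice.  If there is no such
vector with all entries smaller than `2 K` (far triple) and `M` is large, then for a suitable choice of the middle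
letter `t` there is a vector `w_0 = (i, j)` (steps `a`, `b`) with `0 ≤ i - j < 2 K`, `E < i + j`, `(i + j) K ≤ M`, which
is primitive.
-/

set_option autoImplicit false

namespace Pool.Agent.Lib.MP_688fd0_co.SQ5.H66

section lat

variable {T : Type*} [AddCommGroup T]

/-- The lattice of the middle letter `t` and the steps `a`, `b`. -/
def InL (al be : T) (i j : ℤ) : Prop := i • al + j • be = 0

theorem InL.add {al be : T} {i j i' j' : ℤ} (h : InL al be i j) (h' : InL al be i' j') :
    InL al be (i + i') (j + j') := by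
  unfold InL at *
  have e : (i + i') • al + (j + j') • be = (i • al + j • be) + (i' • al + j' • be) := by module
  rw [e, h, h', add_zero]

theorem InL.smul {al be : T} {i j : ℤ} (h : InL al be i j) (q : ℤ) :
    InL al be (q * i) (q * j) := by
  unfold InL at *
  have e : (q * i) • al + (q * j) • be = q • (i • al + j • be) := by module
  rw [e, h, smul_zero]

/-- `T` is generated by `al`, `be`. -/
def Gn (al be : T) : Prop := ∀ m : T, ∃ i j : ℤ, m = i • al + j • be

/-- The determinant of two lattice vectors is zero or at least the order of `T`. -/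
theorem InL.det [Finite T] {al be : T} (hg : Gn al be) {i j i' j' : ℤ} (h : InL al be i j)
    (h' : InL al be i' j') (hd : i * j' - j * i' ≠ 0) : (Nat.card T : ℤ) ≤ |i * j' - j * i'| := by
  classical
  -- g = gcd of the second coordinates
  set D := i * j' - j * i' with hD
  set g := Int.gcd j j' with hgd
  have hbez := Int.gcd_eq_gcd_ab j j'
  set a := Int.gcdA j j'
  set b := Int.gcdB j j'
  -- a v + b w = (x, g), and (D / g, 0) in L
  have hg0 : g ≠ 0 := by
    intro h0
    have h1 := Int.gcd_eq_zero_iff.1 (hgd ▸ h0)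
    apply hd
    rw [hD, h1.1, h1.2]; ring
  have hgpos : (0 : ℤ) < g := by exact_mod_cast Nat.pos_of_ne_zero hg0
  obtain ⟨u, hu⟩ : (g : ℤ) ∣ j := Int.gcd_dvd_left ..
  obtain ⟨u', hu'⟩ : (g : ℤ) ∣ j' := Int.gcd_dvd_right ..
  have hv : InL al be (a * i + b * i') g := by
    have := (h.smul a).add (h'.smul b)
    have e : a * j + b * j' = g := by rw [hgd, hbez]; ring
    rw [e] at this; exact this
  have hw : InL al be (u' * i - u * i') 0 := by
    have := (h.smul u').add (h'.smul (-u))
    have e1 : u' * i + -u * i' = u' * i - u * i' := by ring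
    have e2 : u' * j + -u * j' = 0 := by rw [hu, hu']; ring
    rw [e1, e2] at this; exact this
  set y := u' * i - u * i' with hy
  have hDy : D = g * y := by rw [hD, hy]; nth_rewrite 1 [hu']; nth_rewrite 1 [hu]; ring
  have hy0 : y ≠ 0 := by rintro h0; apply hd; rw [hDy, h0, mul_zero]
  have hypos : 0 < |y| := abs_pos.2 hy0
  -- surjection
  have hsurj : Function.Surjective (fun x : Fin y.natAbs × Fin g => ((x.1 : ℕ) : ℤ) • al + ((x.2 : ℕ) : ℤ) • be) := by
    intro m
    obtain ⟨p, q, rfl⟩ := hg m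
    -- reduce q mod g
    let q1 := q / g
    have e1 := Int.emod_add_mul_ediv q g
    have r0 := Int.emod_nonneg q (ne_of_gt hgpos)
    have r1 := Int.emod_lt_of_pos q hgpos
    let p1 := p - q1 * (a * i + b * i')
    have e2 := Int.emod_add_mul_ediv p1 y
    have s0 := Int.emod_nonneg p1 hy0
    have s1 := Int.emod_lt_abs p1 hy0
    have habs : |y| = (y.natAbs : ℤ) := Int.abs_eq_natAbs y
    refine ⟨(⟨(p1 % y).toNat, ?_⟩, ⟨(q % g).toNat, ?_⟩), ?_⟩
    · omega
    · omega
    · simp only
      rw [Int.toNat_of_nonneg s0, Int.toNat_of_nonneg r0]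
      have f1 : InL al be (q1 * (a * i + b * i') + (p1 / y) * y) (q1 * g) := by
        have := (hv.smul q1).add (hw.smul (p1 / y))
        simpa using this
      unfold InL at f1
      have f2 : p1 % y = p - (q1 * (a * i + b * i') + (p1 / y) * y) := by
        have : p1 % y = p1 - y * (p1 / y) := by linarith
        rw [this]; simp only [p1]; ring
      have f3 : q % g = q - q1 * g := by
        have : q % g = q - g * (q / g) := by linarith
        rw [this]; simp only [q1]; ring
      rw [f2, f3]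
      have f4 : (p - (q1 * (a * i + b * i') + (p1 / y) * y)) • al + (q - q1 * g) • be =
          (p • al + q • be) - ((q1 * (a * i + b * i') + (p1 / y) * y) • al + (q1 * g) • be) := by module
      rw [f4, f1, sub_zero]
  have hc := Nat.card_le_card_of_surjective _ hsurj
  rw [Nat.card_prod, Nat.card_fin, Nat.card_fin] at hc
  have hc' : (Nat.card T : ℤ) ≤ (y.natAbs * g : ℕ) := by exact_mod_cast hc
  rw [Nat.cast_mul, Int.natCast_natAbs] at hc'
  rw [hDy, abs_mul, abs_of_pos hgpos]
  linarith [mul_comm (g : ℤ) |y|]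

/-- Minkowski (pigeonhole) for the box `|i - j| < 2 K`, `0 < i + j ≤ M / K`. -/
theorem pigeon [Finite T] (al be : T) (K : ℕ) (hK : 1 ≤ K)
    (hfar : ∀ i : ℤ, InL al be i (-i) → |i| < K → i = 0) :
    ∃ i j : ℤ, InL al be i j ∧ |i - j| < 2 * K ∧ 0 < i + j ∧ (i + j) * K ≤ Nat.card T := by
  classical
  have : Fintype T := Fintype.ofFinite T
  set M := Nat.card T with hM
  let f : Fin (M / K + 1) × Fin K → T := fun x =>
    (((((x.1 : ℕ) + 1) / 2 : ℕ) : ℤ) + ((x.2 : ℕ) : ℤ) : ℤ) • al
      + ((((x.1 : ℕ) / 2 : ℕ) : ℤ) - ((x.2 : ℕ) : ℤ) : ℤ) • be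
  have hcard : Fintype.card T < Fintype.card (Fin (M / K + 1) × Fin K) := by
    rw [Fintype.card_prod, Fintype.card_fin, Fintype.card_fin, ← Nat.card_eq_fintype_card]
    have := Nat.lt_div_mul_add (a := M) (b := K) (by omega)
    nlinarith
  obtain ⟨x, y, hne, he⟩ := Fintype.exists_ne_map_eq_of_card_lt f hcard
  wlog hxy : (y.1 : ℕ) ≤ x.1 with H
  · exact H al be K hK hfar this hM hcard y x hne.symm he.symm (by omega)
  · obtain ⟨⟨l, hl⟩, ⟨e, hee⟩⟩ := x
    obtain ⟨⟨l', hl'⟩, ⟨e', hee'⟩⟩ := y
    simp only at hxy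
    simp only [f] at he
    have hL : InL al be ((((l + 1) / 2 : ℕ) : ℤ) + (e : ℤ) - ((((l' + 1) / 2 : ℕ) : ℤ) + (e' : ℤ)))
        (((l / 2 : ℕ) : ℤ) - (e : ℤ) - (((l' / 2 : ℕ) : ℤ) - (e' : ℤ))) := by
      unfold InL
      rw [sub_smul, sub_smul (((l / 2 : ℕ) : ℤ) - (e : ℤ))]
      rw [← sub_eq_zero] at he
      rw [← he]
      abel
    rcases Nat.lt_or_ge l' l with hlt | hge
    · refine ⟨_, _, hL, ?_, ?_, ?_⟩
      · rw [abs_lt]; constructor <;> omega
      · omega
      · have h1 : (M / K) * K ≤ M := Nat.div_mul_le_self M K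
        have h2 : ((l : ℤ) - l') * K ≤ M := by
          have h3 : (l - l') * K ≤ (M / K) * K := Nat.mul_le_mul_right K (by omega)
          have h4 : (l - l') * K ≤ M := h3.trans h1
          have h5 : (((l - l') * K : ℕ) : ℤ) ≤ M := by exact_mod_cast h4
          rw [Nat.cast_mul, Nat.cast_sub (by omega)] at h5
          exact h5
        have h6 : ((((l + 1) / 2 : ℕ) : ℤ) + (e : ℤ) - ((((l' + 1) / 2 : ℕ) : ℤ) + (e' : ℤ)))
          + (((l / 2 : ℕ) : ℤ) - (e : ℤ) - (((l' / 2 : ℕ) : ℤ) - (e' : ℤ))) = (l : ℤ) - l' := by omega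
        rw [h6]; exact h2
    · exfalso
      have hll : l = l' := by omega
      subst hll
      have h7 := hfar ((e : ℤ) - e') (by
        have e1 : ((((l + 1) / 2 : ℕ) : ℤ) + (e : ℤ) - ((((l + 1) / 2 : ℕ) : ℤ) + (e' : ℤ))) = (e : ℤ) - e' := by ring
        have e2 : (((l / 2 : ℕ) : ℤ) - (e : ℤ) - (((l / 2 : ℕ) : ℤ) - (e' : ℤ))) = -((e : ℤ) - e') := by ring
        rw [e1, e2] at hL; exact hL) (by rw [abs_lt]; constructor <;> omega)
      apply hne
      have : e = e' := by omega
      subst this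
      rfl

/-- The minimal vector with `|i - j| < 2 K`: it is primitive. -/
theorem exists_min [Finite T] (al be : T) (K : ℕ) (hK : 1 ≤ K)
    (h0 : ∀ i j : ℤ, InL al be i j → i + j = 0 → |i - j| < 2 * K → i = 0) :
    ∃ i j : ℤ, InL al be i j ∧ |i - j| < 2 * K ∧ 0 < i + j ∧ (i + j) * K ≤ Nat.card T ∧
      ∀ i' j' : ℤ, InL al be i' j' → i * j' = j * i' → ∃ q : ℤ, i' = q * i ∧ j' = q * j := by
  classical
  have hex : ∃ l : ℕ, ∃ i j : ℤ, InL al be i j ∧ |i - j| < 2 * K ∧ 0 < i + j ∧ (i + j) * K ≤ Nat.card T ∧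
      i + j = l := by
    obtain ⟨i, j, h1, h2, h3, h4⟩ := pigeon al be K hK (fun i hi hi' => h0 i (-i) hi (by ring) (by
      have e : i - -i = 2 * i := by ring
      rw [e, abs_mul, abs_two]; linarith))
    exact ⟨(i + j).toNat, i, j, h1, h2, h3, h4, by omega⟩
  obtain ⟨i, j, h1, h2, h3, h4, h5⟩ := Nat.find_spec hex
  refine ⟨i, j, h1, h2, h3, h4, ?_⟩
  intro i' j' h' hp
  -- reduce modulo w_0
  let q : ℤ := (i' + j') / (i + j)
  have hr0 : 0 ≤ (i' + j') - q * (i + j) := by
    have := Int.emod_nonneg (i' + j') (ne_of_gt h3)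
    have h6 := Int.emod_add_mul_ediv (i' + j') (i + j)
    simp only [q]; linarith [mul_comm (i + j) ((i' + j') / (i + j))]
  have hr1 : (i' + j') - q * (i + j) < i + j := by
    have := Int.emod_lt_of_pos (i' + j') h3
    have h6 := Int.emod_add_mul_ediv (i' + j') (i + j)
    simp only [q]; linarith [mul_comm (i + j) ((i' + j') / (i + j))]
  have hv : InL al be (i' - q * i) (j' - q * j) := by
    have := h'.add (h1.smul (-q))
    have e1 : i' + -q * i = i' - q * i := by ring
    have e2 : j' + -q * j = j' - q * j := by ring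
    rw [e1, e2] at this; exact this
  -- parallel: (i+j) * (c') = c0 * l'
  have hpar : (i + j) * ((i' - q * i) - (j' - q * j)) = (i - j) * ((i' - q * i) + (j' - q * j)) := by
    linear_combination (-2) * hp
  have hl' : (i' - q * i) + (j' - q * j) = (i' + j') - q * (i + j) := by ring
  have hc' : |(i' - q * i) - (j' - q * j)| < 2 * K := by
    by_contra hcon
    push Not at hcon
    have h7 : |(i + j) * ((i' - q * i) - (j' - q * j))| = |(i - j)| * |((i' - q * i) + (j' - q * j))| := by
      rw [hpar, abs_mul]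
    rw [abs_mul, abs_of_pos h3, hl', abs_of_nonneg hr0] at h7
    have h8 : (i + j) * (2 * K) ≤ (i + j) * |(i' - q * i) - (j' - q * j)| :=
      mul_le_mul_of_nonneg_left hcon (le_of_lt h3)
    have h9 : |i - j| * ((i' + j') - q * (i + j)) ≤ (2 * K) * ((i' + j') - q * (i + j)) :=
      mul_le_mul_of_nonneg_right (le_of_lt h2) hr0
    have hKpos : (0 : ℤ) < 2 * K := by
      have : (1 : ℤ) ≤ K := by exact_mod_cast hK
      linarith
    have h10 : (2 * (K : ℤ)) * ((i' + j') - q * (i + j)) < 2 * K * (i + j) :=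
      mul_lt_mul_of_pos_left hr1 hKpos
    nlinarith
  have hl0 : (i' + j') - q * (i + j) = 0 := by
    by_contra hne
    have hpos : 0 < (i' + j') - q * (i + j) := lt_of_le_of_ne hr0 (Ne.symm hne)
    have hm := Nat.find_min' hex (m := ((i' + j') - q * (i + j)).toNat)
      ⟨i' - q * i, j' - q * j, hv, hc', by rw [hl']; exact hpos, by
        rw [hl']
        have : ((i' + j') - q * (i + j)) * K ≤ (i + j) * K :=
          mul_le_mul_of_nonneg_right (le_of_lt hr1) (by positivity)
        linarith, by rw [hl']; omega⟩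
    omega
  have hz := h0 _ _ hv (by rw [hl']; exact hl0) hc'
  refine ⟨q, by linarith, ?_⟩
  have : (i' - q * i) + (j' - q * j) = 0 := by rw [hl']; exact hl0
  linarith

/-- Three letters: `t` has the smallest entry. -/
theorem exists_mid (n : Fin 3 → ℤ) : ∃ t a b : Fin 3, t ≠ a ∧ t ≠ b ∧ a ≠ b ∧ |n t| ≤ |n a| ∧ |n t| ≤ |n b| := by
  rcases le_total |n 0| |n 1| with h1 | h1
  · rcases le_total |n 0| |n 2| with h2 | h2
    · exact ⟨0, 1, 2, by decide, by decide, by decide, h1, h2⟩
    · exact ⟨2, 0, 1, by decide, by decide, by decide, h2, h2.trans h1⟩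
  · rcases le_total |n 1| |n 2| with h2 | h2
    · exact ⟨1, 0, 2, by decide, by decide, by decide, h1, h2⟩
    · exact ⟨2, 0, 1, by decide, by decide, by decide, h2.trans h1, h2⟩

theorem sum_mid {R : Type*} [AddCommMonoid R] (t a b : Fin 3) (hta : t ≠ a) (htb : t ≠ b) (hab : a ≠ b) (g : Fin 3 → R) :
    g t + g a + g b = g 0 + g 1 + g 2 := by
  fin_cases t <;> fin_cases a <;> fin_cases b <;> simp_all <;> abel

/-- The lattice vectors of three letters. -/
def Rel (h : Fin 3 → T) (n : Fin 3 → ℤ) : Prop :=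
  n 0 + n 1 + n 2 = 0 ∧ n 0 • h 0 + n 1 • h 1 + n 2 • h 2 = 0

/-- BASIS: choice of the middle letter and of the class of the walls. -/
theorem basis [Finite T] (h : Fin 3 → T) (hg : ∀ t a b : Fin 3, t ≠ a → t ≠ b → a ≠ b → Gn (h a - h t) (h b - h t))
    (K E : ℕ) (hK : 1 ≤ K)
    (hfar : ∀ n : Fin 3 → ℤ, Rel h n → (∀ x, |n x| < 2 * K) → n = 0)
    (hM : (E + 2 * K) ^ 2 < Nat.card T) :
    ∃ t a b : Fin 3, t ≠ a ∧ t ≠ b ∧ a ≠ b ∧ ∃ i j : ℤ, InL (h a - h t) (h b - h t) i j ∧ 0 ≤ i - j ∧
      i - j < 2 * K ∧ (E : ℤ) < i + j ∧ (i + j) * K ≤ Nat.card T ∧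
      ∀ i' j' : ℤ, InL (h a - h t) (h b - h t) i' j' → i * j' = j * i' → ∃ q : ℤ, i' = q * i ∧ j' = q * j := by
  classical
  set M := Nat.card T with hMd
  have hMpos : 0 < M := Nat.card_pos
  have hex : ∃ m : ℕ, ∃ n : Fin 3 → ℤ, Rel h n ∧ n ≠ 0 ∧ ∀ x, |n x| ≤ m := by
    refine ⟨M, ![M, -M, 0], ⟨by simp, ?_⟩, ?_, ?_⟩
    · have e : ∀ x : T, (M : ℤ) • x = 0 := fun x => by
        rw [natCast_zsmul]; exact card_nsmul_eq_zero'
      simp [e, neg_smul]
    · intro h0
      have := congrFun h0 0
      simp at this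
      omega
    · intro x; fin_cases x <;> simp
  obtain ⟨n, hn, hn0, hnm⟩ := Nat.find_spec hex
  obtain ⟨t, a, b, hta, htb, hab, hmA, hmB⟩ := exists_mid n
  -- vectors of the plane as relations
  have hrel : ∀ i j : ℤ, InL (h a - h t) (h b - h t) i j →
      ∃ n' : Fin 3 → ℤ, Rel h n' ∧ n' a = i ∧ n' b = j ∧ n' t = -(i + j) := by
    intro i j hij
    refine ⟨fun x => if x = a then i else if x = b then j else -(i + j), ⟨?_, ?_⟩, by simp, ?_, ?_⟩
    · have e := sum_mid t a b hta htb hab (fun x => if x = a then i else if x = b then j else -(i + j))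
      rw [← e]
      simp only [if_true, hta, htb, hab.symm, if_false]
      ring
    · have e := sum_mid t a b hta htb hab
        (fun x => ((if x = a then i else if x = b then j else -(i + j)) : ℤ) • h x)
      rw [← e]
      simp only [if_true, hta, htb, hab.symm, if_false]
      unfold InL at hij
      rw [← hij]
      module
    · simp [hab.symm]
    · simp [hta, htb]
  have hzero : ∀ i j : ℤ, InL (h a - h t) (h b - h t) i j → |i| < 2 * K → |j| < 2 * K → |i + j| < 2 * K →
      i = 0 ∧ j = 0 := by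
    intro i j hij h1 h2 h3
    obtain ⟨n', hn', ha, hb, ht⟩ := hrel i j hij
    have hall : ∀ x, |n' x| < 2 * K := by
      intro x
      have hx : x = t ∨ x = a ∨ x = b := by
        clear hrel hmA hmB ha hb ht
        revert hta htb hab
        fin_cases t <;> fin_cases a <;> fin_cases b <;> fin_cases x <;> simp
      rcases hx with rfl | rfl | rfl
      · rw [ht, abs_neg]; exact h3
      · rw [ha]; exact h1
      · rw [hb]; exact h2
    have := hfar n' hn' hall
    rw [this] at ha hb
    exact ⟨ha.symm, hb.symm⟩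
  have h0 : ∀ i j : ℤ, InL (h a - h t) (h b - h t) i j → i + j = 0 → |i - j| < 2 * K → i = 0 := by
    intro i j hij hs hc
    refine (hzero i j hij ?_ ?_ ?_).1
    · rw [abs_lt] at hc ⊢; constructor <;> omega
    · rw [abs_lt] at hc ⊢; constructor <;> omega
    · rw [hs]; simp; omega
  obtain ⟨i, j, hij, hc, hl, hlK, hprim⟩ := exists_min (h a - h t) (h b - h t) K hK h0
  -- the lower bound
  have hE : (E : ℤ) < i + j := by
    by_contra hcon
    push Not at hcon
    have hv : InL (h a - h t) (h b - h t) (n a) (n b) := by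
      unfold InL
      have e1 := sum_mid t a b hta htb hab n
      have e2 := sum_mid t a b hta htb hab (fun x => n x • h x)
      have e3 : n t = -(n a + n b) := by rw [hn.1] at e1; linarith
      rw [hn.2, e3] at e2
      rw [← e2]
      module
    have hnt : n t = -(n a + n b) := by
      have e1 := sum_mid t a b hta htb hab n
      rw [hn.1] at e1; linarith
    by_cases hD : i * n b - j * n a = 0
    · obtain ⟨q, hqa, hqb⟩ := hprim _ _ hv (by linarith)
      have hq : q ≠ 0 := by
        rintro rfl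
        apply hn0
        funext x
        have hx : x = t ∨ x = a ∨ x = b := by
          clear hrel hmA hmB hqa hqb hnt hv hzero h0 hij hprim hD
          revert hta htb hab
          fin_cases t <;> fin_cases a <;> fin_cases b <;> fin_cases x <;> simp
        rcases hx with rfl | rfl | rfl
        · rw [hnt, hqa, hqb]; simp
        · rw [hqa]; simp
        · rw [hqb]; simp
      have hqp : 0 < |q| := abs_pos.2 hq
      have k1 : i + j ≤ |i| := by
        rw [hnt, hqa, hqb, abs_neg, ← mul_add, abs_mul, abs_mul, abs_of_pos hl] at hmA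
        exact le_of_mul_le_mul_left hmA hqp
      have k2 : i + j ≤ |j| := by
        rw [hnt, hqb, hqa, abs_neg, ← mul_add, abs_mul, abs_mul, abs_of_pos hl] at hmB
        exact le_of_mul_le_mul_left hmB hqp
      have k3 : |i| < 2 * K ∧ |j| < 2 * K ∧ |i + j| < 2 * K := by
        rw [abs_of_pos hl]
        rcases abs_cases i with ⟨e1, e1'⟩ | ⟨e1, e1'⟩ <;> rcases abs_cases j with ⟨e2, e2'⟩ | ⟨e2, e2'⟩ <;>
          rcases abs_cases (i - j) with ⟨e3, e3'⟩ | ⟨e3, e3'⟩ <;> rw [e1] at k1 ⊢ <;> rw [e2] at k2 ⊢ <;>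
          rw [e3] at hc <;> refine ⟨?_, ?_, ?_⟩ <;> omega
      have := hzero i j hij k3.1 k3.2.1 k3.2.2
      omega
    · have h1 : (M : ℤ) ≤ |i * n b - j * n a| := InL.det (hg t a b hta htb hab) hij hv hD
      -- the norm of n is at most the norm of (i, j)
      obtain ⟨n', hn', ha', hb', ht'⟩ := hrel i j hij
      have hi : |i| ≤ E + 2 * K ∧ |j| ≤ E + 2 * K ∧ |i| + |j| ≤ E + 2 * K := by
        rcases abs_cases i with ⟨e1, e1'⟩ | ⟨e1, e1'⟩ <;> rcases abs_cases j with ⟨e2, e2'⟩ | ⟨e2, e2'⟩ <;>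
          rcases abs_cases (i - j) with ⟨e3, e3'⟩ | ⟨e3, e3'⟩ <;> rw [e1, e2] <;>
          rw [e3] at hc <;> refine ⟨?_, ?_, ?_⟩ <;> omega
      have hmin := Nat.find_min' hex (m := E + 2 * K) ⟨n', hn', by
          intro h00; rw [h00] at ha' hb'; simp at ha' hb'; omega, by
          intro x
          have hx : x = t ∨ x = a ∨ x = b := by
            clear hrel hmA hmB hnt hv hzero h0 hij hprim hD ha' hb' ht' h1
            revert hta htb hab
            fin_cases t <;> fin_cases a <;> fin_cases b <;> fin_cases x <;> simp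
          push_cast
          rcases hx with rfl | rfl | rfl
          · rw [ht', abs_neg, abs_of_pos hl]; omega
          · rw [ha']; exact hi.1
          · rw [hb']; exact hi.2.1⟩
      have hm' : ∀ x, |n x| ≤ E + 2 * K := fun x => (hnm x).trans (by exact_mod_cast hmin)
      have h2 : |i * n b - j * n a| ≤ |i| * |n b| + |j| * |n a| := by
        rw [← abs_mul, ← abs_mul]; exact abs_sub _ _
      have h3 : |i| * |n b| ≤ |i| * (E + 2 * K) := mul_le_mul_of_nonneg_left (hm' b) (abs_nonneg _)
      have h4 : |j| * |n a| ≤ |j| * (E + 2 * K) := mul_le_mul_of_nonneg_left (hm' a) (abs_nonneg _)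
      have h5 : (|i| + |j|) * (E + 2 * K) ≤ ((E : ℤ) + 2 * K) * (E + 2 * K) :=
        mul_le_mul_of_nonneg_right hi.2.2 (by positivity)
      have h6 : (((E + 2 * K) ^ 2 : ℕ) : ℤ) < M := by exact_mod_cast hM
      push_cast at h6
      nlinarith
  rcases le_total 0 (i - j) with hs | hs
  · exact ⟨t, a, b, hta, htb, hab, i, j, hij, hs, by rw [abs_of_nonneg hs] at hc; exact hc, hE, hlK, hprim⟩
  · refine ⟨t, b, a, htb, hta, hab.symm, j, i, ?_, by linarith, ?_, by linarith, by linarith, ?_⟩
    · unfold InL at *; rw [← hij]; abel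
    · rw [abs_of_nonpos hs] at hc; linarith
    · intro i' j' h' hp
      obtain ⟨q, e1, e2⟩ := hprim j' i' (by unfold InL at *; rw [← h']; abel) hp.symm
      exact ⟨q, e2, e1⟩

end lat

end Pool.Agent.Lib.MP_688fd0_co.SQ5.H66
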