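import Pool.Agent.Lib.MP_688fd0_co.SQ5.H20.RunD

/-!
MP_688fd0_co, type C2, FAR-3, design B' (helper66, for helper20): the node lemmas of the wall path.

If the letters of the blocks `m` and `m + 1` differ then the strand of the wall in block `m` stays in one strip of half width
`n`, and `wp (m + 2) = wp m` if and only if `a t` commutes with `(a b) ^ n` (equivalently `t` inverts `(a b) ^ n`).
-/

set_option autoImplicit false

namespace Pool.Agent.Lib.MP_688fd0_co.SQ5.H66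

open Pool.Agent.Lib.MP_688fd0_co.OSF Pool.Agent.Lib.MP_688fd0_co.SQ5.H95 Pool.Agent.Lib.MP_688fd0_co.SQ5.H76
open Pool.Agent.Lib.MP_688fd0_co.SQ5.H20

universe u v

/-! ### Words -/

section Words

variable {Q : Type*} [Group Q] {a b t : Q}

theorem inv_of_sq {x : Q} (h : x * x = 1) : x⁻¹ = x := inv_eq_of_mul_eq_one_left h

theorem ba_inv (ha : a * a = 1) (hb : b * b = 1) : (a * b)⁻¹ = b * a := by
  rw [mul_inv_rev, inv_of_sq ha, inv_of_sq hb]

/-- `a t` commutes with `(a b) ^ n` if and only if `t` inverts `(a b) ^ n`. -/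
theorem comm_iff_inv (ha : a * a = 1) (hb : b * b = 1) (ht : t * t = 1) (n : ℕ) :
    Commute (a * t) ((a * b) ^ n) ↔ t * (a * b) ^ n * t = ((a * b) ^ n)⁻¹ := by
  have e : a * (a * b) ^ n * a = ((a * b) ^ n)⁻¹ := by
    have h1 := conj_pow (a := a) (b := a * b) (i := n)
    have h2 : a * (a * b) * a⁻¹ = (a * b)⁻¹ := by
      rw [ba_inv ha hb, inv_of_sq ha, ← mul_assoc a a b, ha, one_mul]
    rw [h2, inv_of_sq ha, inv_pow] at h1
    exact h1.symm
  have ht' := inv_of_sq ht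
  have ha' := inv_of_sq ha
  rw [← e]
  constructor
  · intro h
    have h1 : a * t * (a * b) ^ n = (a * b) ^ n * (a * t) := h
    calc t * (a * b) ^ n * t = a * a * (t * (a * b) ^ n * t) := by rw [ha, one_mul]
      _ = a * (a * t * (a * b) ^ n) * t := by simp only [mul_assoc]
      _ = a * (a * b) ^ n * a * (t * t) := by rw [h1]; simp only [mul_assoc]
      _ = a * (a * b) ^ n * a := by rw [ht, mul_one]
  · intro h
    change a * t * (a * b) ^ n = (a * b) ^ n * (a * t)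
    calc a * t * (a * b) ^ n = a * (t * (a * b) ^ n * t) * t := by
          rw [mul_assoc a _ t, mul_assoc (t * (a * b) ^ n) t t, ht, mul_one, mul_assoc]
      _ = (a * a) * (a * b) ^ n * (a * t) := by rw [h]; simp only [mul_assoc]
      _ = (a * b) ^ n * (a * t) := by rw [ha, one_mul]

theorem ow_word (ha : a * a = 1) (ht : t * t = 1) (k : ℕ) :
    b * t * ((a * t)⁻¹ * (b * t)) ^ k = b * (a * b) ^ k * t := by
  have h : (a * t)⁻¹ * (b * t) = t⁻¹ * (a * b) * t⁻¹⁻¹ := by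
    rw [mul_inv_rev, inv_of_sq ha, inv_inv]
    simp only [mul_assoc]
  rw [h, conj_pow, inv_inv, inv_of_sq ht]
  calc b * t * (t * (a * b) ^ k * t) = b * (t * t) * (a * b) ^ k * t := by simp only [mul_assoc]
    _ = _ := by rw [ht, mul_one]

theorem dih_word (a b : Q) (n : ℕ) : a * (b * (a * b) ^ n) = (a * b) ^ (n + 1) := by
  rw [pow_succ', mul_assoc]

theorem conj_inv (ha : a * a = 1) (hb : b * b = 1) (n : ℕ) : b * (a * b) ^ n * b = ((a * b) ^ n)⁻¹ := by
  have h1 := conj_pow (a := b) (b := a * b) (i := n)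
  have h2 : b * (a * b) * b⁻¹ = (a * b)⁻¹ := by
    rw [ba_inv ha hb, ← mul_assoc b a b, mul_assoc (b * a), mul_inv_cancel, mul_one]
  rw [h2, inv_of_sq hb, inv_pow] at h1
  exact h1.symm

/-- The two steps of the strand against the two steps of the wall. -/
theorem two_steps (ha : a * a = 1) (hb : b * b = 1) (ht : t * t = 1) (k : ℕ) :
    a * t * (b * t) = b * t * ((a * t)⁻¹ * (b * t)) ^ k * (a * t * ((b * t)⁻¹ * (a * t)) ^ k) ↔
      t * (a * b) ^ (k + 1) * t = ((a * b) ^ (k + 1))⁻¹ := by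
  rw [ow_word ha ht, ow_word hb ht]
  have e1 : a * (b * (a * b) ^ k) = (a * b) ^ (k + 1) := dih_word a b k
  have e2 : b * (a * (b * a) ^ k) = (b * a) ^ (k + 1) := dih_word b a k
  have e3 : (b * a) ^ (k + 1) = ((a * b) ^ (k + 1))⁻¹ := by rw [← ba_inv ha hb, inv_pow]
  have e4 := conj_inv ha hb (k + 1)
  have e5 := e2.trans e3
  generalize (a * b) ^ (k + 1) = X at e1 e4 e5 ⊢
  have e6 : b * (a * b) ^ k = a * X := by rw [← e1, ← mul_assoc a a, ha, one_mul]
  have e7 : a * (b * a) ^ k = b * X⁻¹ := by rw [← e5, ← mul_assoc b b, hb, one_mul]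
  rw [e6, e7]
  have e8 : b * X⁻¹ = X * b := by
    rw [← e4, ← mul_assoc, ← mul_assoc, hb, one_mul]
  rw [e8]
  have l1 : a * t * (b * t) = a * (t * b * t) := by simp only [mul_assoc]
  have l2 : a * X * t * (X * b * t) = a * (X * t * X * b * t) := by simp only [mul_assoc]
  rw [l1, l2, mul_right_inj, mul_left_inj, mul_left_inj]
  constructor
  · intro h
    rw [eq_inv_iff_mul_eq_one]
    calc t * X * t * X = t * (X * t * X) := by simp only [mul_assoc]
      _ = 1 := by rw [← h, ht]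
  · intro h
    rw [eq_inv_iff_mul_eq_one] at h
    calc t = t * (t * X * t * X) := by rw [h, mul_one]
      _ = (t * t) * (X * t * X) := by simp only [mul_assoc]
      _ = X * t * X := by rw [ht, one_mul]

end Words

/-! ### The nodes -/

section Node

variable {Q : Type u} [Group Q] {B : Lb.{u, v} Q} {l : L3 → B.L} {L : AddSubgroup (ℤ × ℤ)}
variable {c : Cov B l L} {D : Bd} {s0 κ0 κ1 : ℤ} {J : ℤ} {y : Q}

/-- the letters differ -/
theorem b_ne {s : ℤ} (h : D.cs s = D.cs (s + 2)) : D.b (s + 1) = !D.b s := by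
  have h1 := D.hcs s
  have h2 := D.hcs (s + 1)
  rw [show s + 1 + 1 = s + 2 by ring] at h2
  cases hb : D.b s <;> cases hb' : D.b (s + 1) <;> simp [hb, hb'] at h1 h2 ⊢ <;> omega

/-- the strand stays in the strip -/
theorem sp_same {κ s : ℤ} (h : D.cs s = D.cs (s + 2)) : D.sp κ (s + 1) = D.sp κ s := by
  have h1 := D.hcs s
  have h2 := b_ne h
  unfold Bd.sp
  rw [h1, h2]
  cases D.b s <;> simp <;> ring

/-- the two steps -/
theorem steps_iff (hi : ∀ i, B.inv (l i) = l i) {κ s : ℤ} (h : D.cs s = D.cs (s + 2)) :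
    Bd.LL (qq B l) (D.b s) * Bd.LL (qq B l) (D.b (s + 1)) = D.stp (qq B l) κ s * D.stp (qq B l) κ (s + 1) ↔
      Commute (qq B l .a * qq B l .t) ((qq B l .a * qq B l .b) ^ D.hw (D.sp κ s)) := by
  have hq := qq_sq (B := B) (l := l) hi
  rw [comm_iff_inv (hq _) (hq _) (hq _), D.stp_eq hq, D.stp_eq hq, sp_same h, b_ne h]
  have hp := D.hpos (D.sp κ s)
  obtain ⟨k, hk⟩ : ∃ k, D.hw (D.sp κ s) = k + 1 := ⟨D.hw (D.sp κ s) - 1, by omega⟩
  rw [hk, Nat.add_sub_cancel]
  cases hb : D.b s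
  · have h1 := two_steps (hq .b) (hq .a) (hq .t) k
    have e3 : (qq B l .b * qq B l .a) ^ (k + 1) = ((qq B l .a * qq B l .b) ^ (k + 1))⁻¹ := by
      rw [← ba_inv (hq _) (hq _), inv_pow]
    rw [e3] at h1
    refine Iff.trans h1 ?_
    have ht := inv_of_sq (hq .t)
    constructor
    · intro h
      have h2 := congrArg (fun x => x⁻¹) h
      simp only [mul_inv_rev, inv_inv, ht] at h2
      rw [← h2, ← mul_assoc]
    · intro h
      have h2 := congrArg (fun x => x⁻¹) h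
      simp only [mul_inv_rev, inv_inv, ht] at h2
      rw [inv_inv, mul_assoc, h2]
  · exact two_steps (hq .a) (hq .b) (hq .t) k

/-- THE NODE LEMMA. -/
theorem wp_iff (hi : ∀ i, B.inv (l i) = l i) (h : Wl c D s0 κ0 κ1 J y) {m : ℤ}
    (hc : D.cs (s0 + m) = D.cs (s0 + m + 2)) :
    wp hi h m = wp hi h (m + 2) ↔
      Commute (qq B l .a * qq B l .t)
        ((qq B l .a * qq B l .b) ^ D.hw (D.sp (J + D.cs (s0 + m)) (s0 + m))) := by
  rw [← steps_iff hi hc]
  have hps : ps (wp hi h m) (m + 2) = wx B l D s0 y m *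
      (D.stp (qq B l) (J + D.cs (s0 + m)) (s0 + m) * D.stp (qq B l) (J + D.cs (s0 + m)) (s0 + m + 1)) := by
    rw [show m + 2 = m + 1 + 1 by ring, ps_succ, ps_succ, ps_wp, wp_κ, mul_assoc, ← add_assoc]
  have hwx : wx B l D s0 y (m + 2) = wx B l D s0 y m *
      (Bd.LL (qq B l) (D.b (s0 + m)) * Bd.LL (qq B l) (D.b (s0 + m + 1))) := by
    rw [show m + 2 = m + 1 + 1 by ring, wx_succ, wx_succ, mul_assoc, ← add_assoc]
  constructor
  · intro e
    rw [e, ps_wp, hwx] at hps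
    exact mul_left_cancel hps
  · intro e
    refine wp_eq hi h ?_ ?_
    · rw [wp_κ, hc, add_assoc]
    · rw [hps, hwx, e]

/-- (n1), (n2) -/
theorem wp_ne (hi : ∀ i, B.inv (l i) = l i) (h : Wl c D s0 κ0 κ1 J y) {m : ℤ} {n : ℕ}
    (hc : D.cs (s0 + m) = D.cs (s0 + m + 2)) (hn : D.hw (D.sp (J + D.cs (s0 + m)) (s0 + m)) = n)
    (hN : ¬ Commute (qq B l .a * qq B l .t) ((qq B l .a * qq B l .b) ^ n)) : wp hi h m ≠ wp hi h (m + 2) := by
  rw [Ne, wp_iff hi h hc, hn]
  exact hN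

/-- (n3) -/
theorem wp_eq2 (hi : ∀ i, B.inv (l i) = l i) (h : Wl c D s0 κ0 κ1 J y) {m : ℤ} {n : ℕ}
    (hc : D.cs (s0 + m) = D.cs (s0 + m + 2)) (hn : D.hw (D.sp (J + D.cs (s0 + m)) (s0 + m)) = n)
    (hN : Commute (qq B l .a * qq B l .t) ((qq B l .a * qq B l .b) ^ n)) : wp hi h m = wp hi h (m + 2) := by
  rw [wp_iff hi h hc, hn]
  exact hN

end Node

end Pool.Agent.Lib.MP_688fd0_co.SQ5.H66
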