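import Pool.Agent.Lib.MP_688fd0_co.SQ5.H66.Basis

/-!
TYPE C2, case B3: the wall systems on a finite abelian group `T`.

`WallsT`: walls `kappa : ℤ` (nodes `P kappa s` at the level `s`, letter `W kappa s`, `true = a`, `false = b`), the strip
between the walls `kappa` and `kappa + 1` has the width `w kappa s` at the level `s` (in units of `al - be`), the letter is
`t` (`none`) inside the strips. Construction from a periodic word and the lattice.
-/

set_option autoImplicit false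
set_option linter.unusedSectionVars false

namespace Pool.Agent.Lib.MP_688fd0_co.SQ5.H66

section gen

variable {T : Type*} [AddCommGroup T]

/-- The step of a letter (`none = t`). -/
def stp (al be : T) : Option Bool → T
  | none => 0
  | some true => al
  | some false => be

/-- A wall system. -/
structure WallsT (al be : T) where
  W : ℤ → ℤ → Bool
  P : ℤ → ℤ → T
  w : ℤ → ℤ → ℕ
  w_pos : ∀ k s, 0 < w k s
  P_up : ∀ k s, P k (s + 1) = P k s + stp al be (some (W k s))
  P_rt : ∀ k s, P (k + 1) s = P k s + w k s • (al - be)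
  lam : T → Option Bool
  lam_wall : ∀ k s, lam (P k s) = some (W k s)
  lam_sea : ∀ k s (i : ℕ), 0 < i → i < w k s → lam (P k s + i • (al - be)) = none
  cov : ∀ m, ∃ k s, ∃ i : ℕ, i < w k s ∧ m = P k s + i • (al - be)

namespace WallsT

variable {al be : T} (X : WallsT al be)

theorem lam_none {m : T} (h : X.lam m = none) : ∀ k s, m ≠ X.P k s := by
  rintro k s rfl
  rw [X.lam_wall] at h
  exact absurd h (by simp)

theorem lam_some {m : T} {c : Bool} (h : X.lam m = some c) : ∃ k s, m = X.P k s ∧ X.W k s = c := by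
  obtain ⟨k, s, i, hi, rfl⟩ := X.cov m
  rcases Nat.eq_zero_or_pos i with rfl | hi0
  · refine ⟨k, s, by simp, ?_⟩
    simp only [zero_smul, add_zero, X.lam_wall, Option.some.injEq] at h
    exact h
  · rw [X.lam_sea k s i hi0 hi] at h
    exact absurd h (by simp)

/-- The matching: whites to blacks. -/
def mt (m : T) : T := m + stp al be (X.lam m)

theorem mt_wall (k s : ℤ) : X.mt (X.P k s) = X.P k (s + 1) := by
  unfold mt; rw [X.lam_wall, X.P_up]

theorem mt_none {m : T} (h : X.lam m = none) : X.mt m = m := by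
  unfold mt; rw [h]; simp [stp]

theorem mt_surj : Function.Surjective X.mt := by
  intro m
  rcases h : X.lam m with _ | c
  · exact ⟨m, X.mt_none h⟩
  · obtain ⟨k, s, rfl, _⟩ := X.lam_some h
    refine ⟨X.P k (s - 1), ?_⟩
    rw [X.mt_wall, sub_add_cancel]

theorem mt_bij [Finite T] : Function.Bijective X.mt :=
  (Finite.surjective_iff_bijective).1 X.mt_surj

end WallsT

/-! ### Completion of the basis -/

theorem exists_compl [Finite T] {al be : T} (hg : Gn al be) {i0 j0 : ℤ} (h0 : InL al be i0 j0)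
    (hl0 : 0 < i0 + j0)
    (hprim : ∀ i' j' : ℤ, InL al be i' j' → i0 * j' = j0 * i' → ∃ q : ℤ, i' = q * i0 ∧ j' = q * j0) :
    ∃ i1 j1 : ℤ, InL al be i1 j1 ∧ (Nat.card T : ℤ) ≤ i1 * j0 - j1 * i0 ∧
      ∀ i j : ℤ, InL al be i j → ∃ q r : ℤ, i = q * i1 + r * i0 ∧ j = q * j1 + r * j0 := by
  classical
  have hex : ∃ d : ℕ, 0 < d ∧ ∃ i j : ℤ, InL al be i j ∧ i * j0 - j * i0 = d := by
    have hMpos : 0 < Nat.card T := Nat.card_pos
    refine ⟨Nat.card T * (i0 + j0).toNat, Nat.mul_pos hMpos (by omega), Nat.card T, -Nat.card T, ?_, ?_⟩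
    · have e : ∀ x : T, (Nat.card T : ℤ) • x = 0 := fun x => by
        rw [natCast_zsmul]; exact card_nsmul_eq_zero'
      unfold InL
      rw [e, neg_smul, e, neg_zero, add_zero]
    · push_cast
      rw [Int.toNat_of_nonneg hl0.le]
      ring
  obtain ⟨hd, i1, j1, h1, hd1⟩ := Nat.find_spec hex
  set d := Nat.find hex with hdd
  have hdpos : (0 : ℤ) < d := by exact_mod_cast hd
  refine ⟨i1, j1, h1, ?_, ?_⟩
  · rw [hd1]
    have := InL.det hg h1 h0 (by rw [hd1]; exact ne_of_gt hdpos)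
    rw [hd1, abs_of_pos hdpos] at this
    exact this
  · intro i j hij
    let q : ℤ := (i * j0 - j * i0) / d
    have e1 := Int.emod_add_mul_ediv (i * j0 - j * i0) d
    have r0 := Int.emod_nonneg (i * j0 - j * i0) (ne_of_gt hdpos)
    have r1 := Int.emod_lt_of_pos (i * j0 - j * i0) hdpos
    have hv : InL al be (i - q * i1) (j - q * j1) := by
      have := hij.add (h1.smul (-q))
      have e2 : i + -q * i1 = i - q * i1 := by ring
      have e3 : j + -q * j1 = j - q * j1 := by ring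
      rw [e2, e3] at this; exact this
    have hdet : (i - q * i1) * j0 - (j - q * j1) * i0 = (i * j0 - j * i0) % d := by
      have : (i - q * i1) * j0 - (j - q * j1) * i0 = (i * j0 - j * i0) - q * (i1 * j0 - j1 * i0) := by ring
      rw [this, hd1]
      simp only [q]
      linarith [mul_comm (d : ℤ) ((i * j0 - j * i0) / d)]
    have hz : (i * j0 - j * i0) % d = 0 := by
      by_contra hne
      have hpos : 0 < (i * j0 - j * i0) % d := lt_of_le_of_ne r0 (Ne.symm hne)
      have hm := Nat.find_min' hex (m := ((i * j0 - j * i0) % d).toNat)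
        ⟨by omega, i - q * i1, j - q * j1, hv, by rw [hdet]; omega⟩
      omega
    rw [hz] at hdet
    obtain ⟨r, hr1, hr2⟩ := hprim _ _ hv (by linarith)
    exact ⟨q, r, by linarith, by linarith⟩

/-! ### Construction -/

/-- A block of `R` walls in the plane: `I k s` is the first coordinate of the node of the level `s` of the wall `k`
(the second one is `s - I k s`). -/
structure Blk (l0 i0 : ℤ) (R C G : ℕ) where
  I : ℕ → ℤ → ℤ
  up : ∀ k s, I k (s + 1) = I k s ∨ I k (s + 1) = I k s + 1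
  rt : ∀ k s, k + 1 < R → I k s < I (k + 1) s ∧ I (k + 1) s ≤ I k s + G
  per : ∀ k s, I k (s + l0) = I k s + i0
  dev : ∀ s, |I 0 s * l0 - s * i0| ≤ C * l0

namespace Blk

variable {l0 i0 : ℤ} {R C G : ℕ} (X : Blk l0 i0 R C G)

theorem per_mul (k : ℕ) (s q : ℤ) : X.I k (s + q * l0) = X.I k s + q * i0 := by
  have key : ∀ (n : ℕ) (s : ℤ), X.I k (s + n * l0) = X.I k s + n * i0 := by
    intro n
    induction n with
    | zero => intro s; simp
    | succ n ih =>
      intro s
      have e : s + ((n + 1 : ℕ) : ℤ) * l0 = (s + n * l0) + l0 := by push_cast; ring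
      rw [e, X.per, ih]; push_cast; ring
  rcases Int.eq_nat_or_neg q with ⟨n, rfl | rfl⟩
  · exact key n s
  · have := key n (s + -(n : ℤ) * l0)
    have e : s + -(n : ℤ) * l0 + n * l0 = s := by ring
    rw [e] at this
    rw [this]; ring

theorem lt_of_lt {k k' : ℕ} (s : ℤ) (h : k < k') (h' : k' < R) : X.I k s < X.I k' s := by
  induction k' with
  | zero => omega
  | succ n ih =>
    rcases Nat.lt_or_ge k n with h1 | h1
    · exact (ih h1 (by omega)).trans (X.rt n s h').1
    · have : k = n := by omega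
      subst this
      exact (X.rt k s h').1

theorem le_three {k : ℕ} (s : ℤ) (h : k < R) : X.I 0 s ≤ X.I k s ∧ X.I k s ≤ X.I 0 s + G * k := by
  induction k with
  | zero => simp
  | succ n ih =>
    have h1 := ih (by omega)
    have h2 := X.rt n s h
    push_cast
    constructor <;> linarith

/-- The walls of the universal cover. -/
def J (sg i1 : ℤ) (k s : ℤ) : ℤ := X.I (k % R).toNat (s - k / R * sg) + k / R * i1

/-- The width of the torus at the level `s`. -/
def Wd (sg i1 : ℤ) (s : ℤ) : ℤ := X.I 0 (s - sg) + i1 - X.I 0 s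

end Blk

section con

variable {al be : T} {i0 j0 i1 j1 : ℤ} {M R C G : ℕ}

/-- The node. -/
def pt (al be : T) (i s : ℤ) : T := i • al + (s - i) • be

theorem pt_add (i s r : ℤ) : pt al be (i + r) s = pt al be i s + r • (al - be) := by
  unfold pt; module

theorem pt_sub_InL {i s i' s' : ℤ} (h : pt al be i s = pt al be i' s') :
    InL al be (i - i') ((s - s') - (i - i')) := by
  unfold pt at h
  unfold InL
  rw [← sub_eq_zero] at h
  rw [← h]
  module

theorem InL_pt {i j : ℤ} (h : InL al be i j) (x s q : ℤ) :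
    pt al be (x + q * i) (s + q * (i + j)) = pt al be x s := by
  unfold pt
  unfold InL at h
  have e : (x + q * i) • al + (s + q * (i + j) - (x + q * i)) • be =
      (x • al + (s - x) • be) + q • (i • al + j • be) := by module
  rw [e, h, smul_zero, add_zero]

variable (X : Blk (i0 + j0) i0 R C G) (h0 : InL al be i0 j0) (h1 : InL al be i1 j1)
  (hD : (M : ℤ) ≤ i1 * j0 - j1 * i0) (hl0 : 0 < i0 + j0) (hR : 0 < R)
  (hgen : ∀ i j : ℤ, InL al be i j → ∃ q r : ℤ, i = q * i1 + r * i0 ∧ j = q * j1 + r * j0)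
  (hM : (G * R + 2 * C + 1 : ℤ) * (i0 + j0) ≤ M)

include hD hl0 hM in
theorem Wd_big (s : ℤ) : (G : ℤ) * R < X.Wd (i1 + j1) i1 s := by
  have e1 := abs_le.1 (X.dev (s - (i1 + j1)))
  have e2 := abs_le.1 (X.dev s)
  have e3 : X.Wd (i1 + j1) i1 s * (i0 + j0) = (X.I 0 (s - (i1 + j1)) * (i0 + j0) - (s - (i1 + j1)) * i0)
      - (X.I 0 s * (i0 + j0) - s * i0) + (i1 * j0 - j1 * i0) := by
    unfold Blk.Wd; ring
  have hGR : (0 : ℤ) ≤ (G : ℤ) * R := by positivity
  have e4 : ((G : ℤ) * R + 1) * (i0 + j0) ≤ X.Wd (i1 + j1) i1 s * (i0 + j0) := by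
    rw [e3]; linarith [e1.1, e2.2]
  have := le_of_mul_le_mul_right e4 hl0
  linarith

include hD hl0 hgen hM in
/-- The chart `(s, i)` is injective. -/
theorem chart_inj {s s' i i' : ℤ} (hi : 0 ≤ i) (hi' : 0 ≤ i') (hiW : i < X.Wd (i1 + j1) i1 s)
    (hiW' : i' < X.Wd (i1 + j1) i1 s')
    (h : pt al be (X.I 0 s + i) s = pt al be (X.I 0 s' + i') s') :
    i = i' ∧ ∃ q : ℤ, s = s' + q * (i0 + j0) := by
  obtain ⟨q, r, hq1, hq2⟩ := hgen _ _ (pt_sub_InL h)
  have a1 := abs_le.1 (X.dev s)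
  have a2 := abs_le.1 (X.dev s')
  have a3 := abs_le.1 (X.dev (s - (i1 + j1)))
  have a4 := abs_le.1 (X.dev (s' - (i1 + j1)))
  have hlev : s - s' = q * (i1 + j1) + r * (i0 + j0) := by linarith
  have hdet : q * (i1 * j0 - j1 * i0) = (i - i') * (i0 + j0) + (X.I 0 s * (i0 + j0) - s * i0)
      - (X.I 0 s' * (i0 + j0) - s' * i0) := by
    have e1 : (X.I 0 s + i - (X.I 0 s' + i')) * (i0 + j0) - (s - s') * i0 = q * (i1 * j0 - j1 * i0) := by
      rw [hq1, hlev]; ring
    rw [← e1]; ring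
  have w1 : X.Wd (i1 + j1) i1 s * (i0 + j0) = (X.I 0 (s - (i1 + j1)) * (i0 + j0) - (s - (i1 + j1)) * i0)
      - (X.I 0 s * (i0 + j0) - s * i0) + (i1 * j0 - j1 * i0) := by
    unfold Blk.Wd; ring
  have w2 : X.Wd (i1 + j1) i1 s' * (i0 + j0) = (X.I 0 (s' - (i1 + j1)) * (i0 + j0) - (s' - (i1 + j1)) * i0)
      - (X.I 0 s' * (i0 + j0) - s' * i0) + (i1 * j0 - j1 * i0) := by
    unfold Blk.Wd; ring
  have b1 : (i - i') * (i0 + j0) < X.Wd (i1 + j1) i1 s * (i0 + j0) :=
    mul_lt_mul_of_pos_right (by linarith) hl0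
  have b2 : (i' - i) * (i0 + j0) < X.Wd (i1 + j1) i1 s' * (i0 + j0) :=
    mul_lt_mul_of_pos_right (by linarith) hl0
  have hR0 : (0 : ℤ) ≤ R := by positivity
  have hC0 : (0 : ℤ) ≤ C := by positivity
  have hGR : (0 : ℤ) ≤ (G : ℤ) * R := by positivity
  have hp1 : 0 < ((G : ℤ) * R + 1) * (i0 + j0) := mul_pos (by linarith) hl0
  have hp2 : 0 ≤ (C : ℤ) * (i0 + j0) := mul_nonneg hC0 hl0.le
  have hC : 2 * (C : ℤ) * (i0 + j0) < i1 * j0 - j1 * i0 := by linarith
  have c1 : q * (i1 * j0 - j1 * i0) < 2 * (i1 * j0 - j1 * i0) := by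
    rw [hdet]; linarith [a1.1, a1.2, a2.1, a2.2, a3.1, a3.2]
  have c2 : (-2) * (i1 * j0 - j1 * i0) < q * (i1 * j0 - j1 * i0) := by
    rw [hdet]; linarith [a1.1, a1.2, a2.1, a2.2, a4.1, a4.2]
  have hDpos : 0 < i1 * j0 - j1 * i0 := by linarith
  have q1 : q < 2 := lt_of_mul_lt_mul_right c1 hDpos.le
  have q2 : -2 < q := lt_of_mul_lt_mul_right c2 hDpos.le
  have hq : q = 0 ∨ q = 1 ∨ q = -1 := by omega
  rcases hq with rfl | rfl | rfl
  · have e1 : s = s' + r * (i0 + j0) := by linarith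
    have e2 : X.I 0 s = X.I 0 s' + r * i0 := by rw [e1, X.per_mul]
    exact ⟨by linarith, r, e1⟩
  · exfalso
    have e1 : s' = (s - (i1 + j1)) + (-r) * (i0 + j0) := by linarith
    have e2 : X.I 0 s' = X.I 0 (s - (i1 + j1)) + (-r) * i0 := by rw [e1, X.per_mul]
    have e3 : i - i' = X.Wd (i1 + j1) i1 s := by unfold Blk.Wd; linarith
    linarith
  · exfalso
    have e1 : s = (s' - (i1 + j1)) + r * (i0 + j0) := by linarith
    have e2 : X.I 0 s = X.I 0 (s' - (i1 + j1)) + r * i0 := by rw [e1, X.per_mul]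
    have e3 : i' - i = X.Wd (i1 + j1) i1 s' := by unfold Blk.Wd; linarith
    linarith

end con

/-- The data of the lattice. -/
structure Lat (al be : T) (i0 j0 i1 j1 : ℤ) (M R C G : ℕ) : Prop where
  h0 : InL al be i0 j0
  h1 : InL al be i1 j1
  hD : (M : ℤ) ≤ i1 * j0 - j1 * i0
  hl0 : 0 < i0 + j0
  hR : 0 < R
  hgen : ∀ i j : ℤ, InL al be i j → ∃ q r : ℤ, i = q * i1 + r * i0 ∧ j = q * j1 + r * j0
  hM : (G * R + 2 * C + 1 : ℤ) * (i0 + j0) ≤ M
  hg : Gn al be

namespace Blk

section J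

variable {l0 i0 : ℤ} {R C G : ℕ} (X : Blk l0 i0 R C G) (hR : 0 < R) (sg i1 : ℤ)

theorem exists_kn (hR : 0 < R) (κ : ℤ) : ∃ (k : ℕ) (n : ℤ), k < R ∧ κ = k + R * n := by
  have hR' : (0 : ℤ) < R := by exact_mod_cast hR
  refine ⟨(κ % R).toNat, κ / R, ?_, ?_⟩
  · have := Int.emod_lt_of_pos κ hR'
    have := Int.emod_nonneg κ (ne_of_gt hR')
    omega
  · rw [Int.toNat_of_nonneg (Int.emod_nonneg κ (ne_of_gt hR'))]
    exact (Int.emod_add_mul_ediv κ R).symm

theorem J_mk {k : ℕ} (hk : k < R) (n s : ℤ) : X.J sg i1 (k + R * n) s = X.I k (s - n * sg) + n * i1 := by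
  have hR' : (0 : ℤ) < R := by exact_mod_cast (by omega : 0 < R)
  have hk' : (k : ℤ) < R := by exact_mod_cast hk
  have e1 : ((k : ℤ) + R * n) % R = k := by
    rw [Int.add_mul_emod_self_left]
    exact Int.emod_eq_of_lt (by positivity) hk'
  have e2 : ((k : ℤ) + R * n) / R = n := by
    rw [Int.add_mul_ediv_left _ _ (ne_of_gt hR'), Int.ediv_eq_zero_of_lt (by positivity) hk', zero_add]
  unfold J
  rw [e1, e2]
  simp

theorem J_succ {k : ℕ} (hk : k + 1 < R) (n s : ℤ) :
    X.J sg i1 (k + R * n + 1) s = X.I (k + 1) (s - n * sg) + n * i1 := by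
  have e : (k : ℤ) + R * n + 1 = ((k + 1 : ℕ) : ℤ) + R * n := by push_cast; ring
  rw [e, X.J_mk sg i1 hk]

theorem J_last {k : ℕ} (hk : k + 1 = R) (n s : ℤ) :
    X.J sg i1 (k + R * n + 1) s = X.I 0 (s - n * sg - sg) + i1 + n * i1 := by
  have e : (k : ℤ) + R * n + 1 = ((0 : ℕ) : ℤ) + R * (n + 1) := by
    have : (R : ℤ) = k + 1 := by exact_mod_cast hk.symm
    rw [this]; push_cast; ring
  rw [e, X.J_mk sg i1 (by omega)]
  have e2 : s - (n + 1) * sg = s - n * sg - sg := by ring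
  rw [e2]; ring

theorem J_up (hR : 0 < R) (κ s : ℤ) : X.J sg i1 κ (s + 1) = X.J sg i1 κ s ∨ X.J sg i1 κ (s + 1) = X.J sg i1 κ s + 1 := by
  obtain ⟨k, n, hk, rfl⟩ := exists_kn hR κ
  rw [X.J_mk sg i1 hk, X.J_mk sg i1 hk]
  have e : s + 1 - n * sg = (s - n * sg) + 1 := by ring
  rw [e]
  rcases X.up k (s - n * sg) with h | h
  · left; rw [h]
  · right; rw [h]; ring

end J

section walls

variable {al be : T} {i0 j0 i1 j1 : ℤ} {M R C G : ℕ} (X : Blk (i0 + j0) i0 R C G)
  (L : Lat al be i0 j0 i1 j1 M R C G)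

include L

theorem J_lt (κ s : ℤ) : X.J (i1 + j1) i1 κ s < X.J (i1 + j1) i1 (κ + 1) s := by
  obtain ⟨k, n, hk, rfl⟩ := exists_kn L.hR κ
  rw [X.J_mk _ _ hk]
  rcases Nat.lt_or_ge (k + 1) R with h | h
  · rw [X.J_succ _ _ h]
    have := (X.rt k (s - n * (i1 + j1)) h).1
    omega
  · have hk1 : k + 1 = R := by omega
    rw [X.J_last _ _ hk1]
    have h2 := Wd_big X L.hD L.hl0 L.hM (s - n * (i1 + j1))
    have h3 := (X.le_three (s - n * (i1 + j1)) hk).2
    unfold Wd at h2
    have h4 : (k : ℤ) < R := by exact_mod_cast hk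
    have h5 : (G : ℤ) * k ≤ G * R := mul_le_mul_of_nonneg_left h4.le (by positivity)
    linarith

theorem pt_J {k : ℕ} (hk : k < R) (n s r : ℤ) :
    pt al be (X.J (i1 + j1) i1 (k + R * n) s + r) s =
      pt al be (X.I k (s - n * (i1 + j1)) + r) (s - n * (i1 + j1)) := by
  rw [X.J_mk _ _ hk]
  have h := InL_pt L.h1 (X.I k (s - n * (i1 + j1)) + r) (s - n * (i1 + j1)) n
  rw [← h]
  congr 1
  · ring
  · ring

theorem main_inj {k k' : ℕ} (hk : k < R) (hk' : k' < R) (n n' s s' : ℤ) (i : ℕ)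
    (hi : X.J (i1 + j1) i1 (k + R * n) s + i < X.J (i1 + j1) i1 (k + R * n + 1) s)
    (h : pt al be (X.J (i1 + j1) i1 (k + R * n) s + i) s = pt al be (X.J (i1 + j1) i1 (k' + R * n') s') s') :
    i = 0 ∧ k = k' ∧ ∃ q : ℤ, s - n * (i1 + j1) = s' - n' * (i1 + j1) + q * (i0 + j0) := by
  have hB := Wd_big X L.hD L.hl0 L.hM
  rw [X.pt_J L hk] at h
  have h' := X.pt_J L hk' n' s' 0
  rw [add_zero, add_zero] at h'
  rw [h'] at h
  set t := s - n * (i1 + j1) with ht
  set t' := s' - n' * (i1 + j1) with ht'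
  have e1 : X.I k t + (i : ℤ) = X.I 0 t + (X.I k t - X.I 0 t + i) := by ring
  have e2 : X.I k' t' = X.I 0 t' + (X.I k' t' - X.I 0 t') := by ring
  rw [e1, e2] at h
  have b1 := X.le_three t hk
  have b2 := X.le_three t' hk'
  have hkR : (k : ℤ) + 1 ≤ R := by exact_mod_cast hk
  have hkR' : (k' : ℤ) + 1 ≤ R := by exact_mod_cast hk'
  have hG1 : (G : ℤ) * (k + 1) ≤ G * R := mul_le_mul_of_nonneg_left hkR (by positivity)
  have hG2 : (G : ℤ) * (k' + 1) ≤ G * R := mul_le_mul_of_nonneg_left hkR' (by positivity)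
  have hG0 : (0 : ℤ) ≤ G := by positivity
  have b3 : X.I k t - X.I 0 t + i < X.Wd (i1 + j1) i1 t := by
    rw [X.J_mk _ _ hk] at hi
    rcases Nat.lt_or_ge (k + 1) R with h3 | h3
    · rw [X.J_succ _ _ h3] at hi
      have h4 := (X.rt k t h3).2
      have h5 := hB t
      rw [← ht] at hi
      linarith
    · have hk1 : k + 1 = R := by omega
      rw [X.J_last _ _ hk1] at hi
      rw [← ht] at hi
      unfold Wd
      linarith
  have b4 : X.I k' t' - X.I 0 t' < X.Wd (i1 + j1) i1 t' := by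
    have h5 := hB t'
    linarith
  obtain ⟨r1, q, r2⟩ := chart_inj X L.hD L.hl0 L.hgen L.hM (by linarith [Int.natCast_nonneg i])
    (by linarith) b3 b4 h
  have e3 : X.I k' t = X.I k' t' + q * i0 := by rw [r2, X.per_mul]
  have e4 : X.I 0 t = X.I 0 t' + q * i0 := by rw [r2, X.per_mul]
  have e5 : X.I k t + i = X.I k' t := by linarith
  have hkk : k = k' := by
    rcases Nat.lt_trichotomy k k' with h6 | h6 | h6
    · exfalso
      rw [X.J_mk _ _ hk, X.J_succ _ _ (by omega), ← ht] at hi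
      have h7 : X.I (k + 1) t ≤ X.I k' t := by
        rcases Nat.lt_or_ge (k + 1) k' with h8 | h8
        · exact (X.lt_of_lt t h8 hk').le
        · have : k + 1 = k' := by omega
          rw [this]
      linarith
    · exact h6
    · exfalso
      have h7 := X.lt_of_lt t h6 hk
      linarith [Int.natCast_nonneg i]
  refine ⟨?_, hkk, q, r2⟩
  subst hkk
  have : (i : ℤ) = 0 := by linarith
  exact_mod_cast this

open Classical in
/-- The wall system of a block. -/
noncomputable def walls : WallsT al be where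
  W κ s := decide (X.J (i1 + j1) i1 κ (s + 1) = X.J (i1 + j1) i1 κ s + 1)
  P κ s := pt al be (X.J (i1 + j1) i1 κ s) s
  w κ s := (X.J (i1 + j1) i1 (κ + 1) s - X.J (i1 + j1) i1 κ s).toNat
  w_pos κ s := by have := X.J_lt L κ s; omega
  P_up κ s := by
    rcases X.J_up (i1 + j1) i1 L.hR κ s with h | h
    · have hd : decide (X.J (i1 + j1) i1 κ (s + 1) = X.J (i1 + j1) i1 κ s + 1) = false := by
        rw [decide_eq_false_iff_not, h]; omega
      rw [hd, h]
      unfold pt stp
      module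
    · have hd : decide (X.J (i1 + j1) i1 κ (s + 1) = X.J (i1 + j1) i1 κ s + 1) = true := by
        rw [decide_eq_true_iff, h]
      rw [hd, h]
      unfold pt stp
      module
  P_rt κ s := by
    have h := X.J_lt L κ s
    have e : X.J (i1 + j1) i1 (κ + 1) s = X.J (i1 + j1) i1 κ s +
        ((X.J (i1 + j1) i1 (κ + 1) s - X.J (i1 + j1) i1 κ s).toNat : ℤ) := by
      rw [Int.toNat_of_nonneg (by omega)]; ring
    conv_lhs => rw [e]
    rw [pt_add, natCast_zsmul]
  lam m := if h : ∃ x : ℤ × ℤ, m = pt al be (X.J (i1 + j1) i1 x.1 x.2) x.2 then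
    some (decide (X.J (i1 + j1) i1 h.choose.1 (h.choose.2 + 1) = X.J (i1 + j1) i1 h.choose.1 h.choose.2 + 1)) else none
  lam_wall κ s := by
    have hex : ∃ x : ℤ × ℤ, pt al be (X.J (i1 + j1) i1 κ s) s = pt al be (X.J (i1 + j1) i1 x.1 x.2) x.2 := ⟨(κ, s), rfl⟩
    rw [dif_pos hex]
    have hsp := hex.choose_spec
    set x := hex.choose
    obtain ⟨k, n, hk, hkn⟩ := exists_kn L.hR κ
    obtain ⟨k', n', hk', hkn'⟩ := exists_kn L.hR x.1
    rw [hkn] at hsp ⊢
    rw [hkn'] at hsp ⊢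
    have hlt := X.J_lt L (k + R * n) s
    obtain ⟨_, rfl, q, hq⟩ := X.main_inj L hk hk' n n' s x.2 0 (by simpa using hlt) (by simpa using hsp)
    rw [X.J_mk _ _ hk, X.J_mk _ _ hk, X.J_mk _ _ hk, X.J_mk _ _ hk]
    have e1 : s + 1 - n * (i1 + j1) = (x.2 + 1 - n' * (i1 + j1)) + q * (i0 + j0) := by linarith
    have e2 : s - n * (i1 + j1) = (x.2 - n' * (i1 + j1)) + q * (i0 + j0) := by linarith
    rw [e1, e2, X.per_mul, X.per_mul]
    congr 1
    rw [decide_eq_decide]
    constructor <;> intro h <;> linarith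
  lam_sea κ s i hi0 hi := by
    rw [dif_neg]
    rintro ⟨x, hx⟩
    obtain ⟨k, n, hk, rfl⟩ := exists_kn L.hR κ
    obtain ⟨k', n', hk', hkn'⟩ := exists_kn L.hR x.1
    rw [hkn'] at hx
    have hlt : X.J (i1 + j1) i1 (k + R * n) s + (i : ℤ) < X.J (i1 + j1) i1 (k + R * n + 1) s := by omega
    have hx' : pt al be (X.J (i1 + j1) i1 (k + R * n) s + (i : ℤ)) s =
        pt al be (X.J (i1 + j1) i1 (k' + R * n') x.2) x.2 := by
      rw [pt_add, natCast_zsmul]; exact hx
    have := (X.main_inj L hk hk' n n' s x.2 i hlt hx').1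
    omega
  cov m := by
    obtain ⟨x, y, hm⟩ := L.hg m
    set s := x + y with hs
    -- the greatest wall to the left of x
    have hmono : ∀ n : ℕ, ∀ κ : ℤ, X.J (i1 + j1) i1 κ s + n ≤ X.J (i1 + j1) i1 (κ + n) s := by
      intro n
      induction n with
      | zero => intro κ; simp
      | succ n ih =>
        intro κ
        have h1 := ih κ
        have h2 := X.J_lt L (κ + n) s
        have e : κ + ((n + 1 : ℕ) : ℤ) = κ + n + 1 := by push_cast; ring
        rw [e]; push_cast; linarith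
    obtain ⟨κ, hκ, hκm⟩ := Int.exists_greatest_of_bdd (P := fun κ => X.J (i1 + j1) i1 κ s ≤ x)
      ⟨|x - X.J (i1 + j1) i1 0 s|, fun z hz => by
        by_contra hcon
        push Not at hcon
        have hz0 : 0 ≤ z := le_trans (abs_nonneg _) hcon.le
        have h1 := hmono z.toNat 0
        rw [zero_add, Int.toNat_of_nonneg hz0] at h1
        have h2 := le_abs_self (x - X.J (i1 + j1) i1 0 s)
        linarith⟩
      ⟨-|x - X.J (i1 + j1) i1 0 s|, by
        have h1 := hmono (|x - X.J (i1 + j1) i1 0 s|).toNat (-|x - X.J (i1 + j1) i1 0 s|)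
        rw [Int.toNat_of_nonneg (abs_nonneg _), neg_add_cancel] at h1
        have h2 := neg_abs_le (x - X.J (i1 + j1) i1 0 s)
        linarith⟩
    have hlt : x < X.J (i1 + j1) i1 (κ + 1) s := by
      by_contra hcon
      push Not at hcon
      have := hκm (κ + 1) hcon
      omega
    refine ⟨κ, s, (x - X.J (i1 + j1) i1 κ s).toNat, by omega, ?_⟩
    rw [← natCast_zsmul, ← pt_add, Int.toNat_of_nonneg (by omega)]
    rw [hm]
    unfold pt
    have e1 : X.J (i1 + j1) i1 κ s + (x - X.J (i1 + j1) i1 κ s) = x := by ring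
    have e2 : s - x = y := by rw [hs]; ring
    rw [e1, e2]

end walls

end Blk

end gen

end Pool.Agent.Lib.MP_688fd0_co.SQ5.H66
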