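import Pool.Agent.Lib.MP_688fd0_co.SQ5.H66.LineCn
import Pool.Agent.Lib.MP_688fd0_co.SQ5.H76.RunB

/-!
TYPE C2, case B3: ROW ACT. Every element of the group is joined in the 2-factor to a vertex of an active strand in the first
blocks of a run chart.
-/

set_option autoImplicit false

namespace Pool.Agent.Lib.MP_688fd0_co.SQ5.H66

open Pool.Agent.Lib.MP_688fd0_co.SQ5.H76
open Pool.Agent.Lib.MP_688fd0_co.OSF Pool.Agent.Lib.MP_688fd0_co.SQ5.H95

universe u v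

variable {L : AddSubgroup (ℤ × ℤ)} {M R : ℕ} {dc : ℕ → ℤ} {spc : ℕ → Prop} {G : ℤ} (g : Geo L M R dc spc G)

theorem tyA_iff (n : ℤ) : TyA g n ↔ g.w.aev n := Iff.rfl

/-- helper24's `Str` gives `Chg`. -/
theorem chg_of_str {m : ℤ} (h : g.Str m) (hm : 4 * (R : ℤ) + 8 ≤ m) : Chg g := by
  have hb : ∀ n, ¬ TyA g n → g.w.bev n := fun n hn => tyB g hn
  refine ⟨fun u v h1 h2 h3 h4 => ?_, fun u v h1 h2 h3 h4 => ?_⟩
  · have h5 := h.str u v (fun h6 => h2 (h6.1 h1)) (fun h6 => h3 (h6.2 h4)) (by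
      rintro rfl
      exact h2 h4)
    rcases le_total 0 (u - v) with h6 | h6
    · rw [abs_of_nonneg h6] at h5; omega
    · rw [abs_of_nonpos h6] at h5; omega
  · have h5 := h.nco u v h1 (hb _ h2) (hb _ h3) h4
    rcases le_total 0 (v + g.n - u) with h6 | h6
    · rw [abs_of_nonneg h6] at h5; omega
    · rw [abs_of_nonpos h6] at h5; omega

theorem e_per (x k : ℤ) : g.w.e (k + x * g.w.Et) = g.w.e k + x * (g.i0 + g.j0) := by
  have key : ∀ n : ℕ, ∀ k, g.w.e (k + n * g.w.Et) = g.w.e k + n * (g.i0 + g.j0) := by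
    intro n
    induction n with
    | zero => intro s; simp
    | succ n ih =>
      intro k
      have e : k + ((n + 1 : ℕ) : ℤ) * g.w.Et = k + n * g.w.Et + g.w.Et := by push_cast; ring
      rw [e, g.w.eEt, ih]
      push_cast
      ring
  obtain ⟨n, rfl | rfl⟩ := x.eq_nat_or_neg
  · exact key n k
  · have h3 := key n (k + -(n : ℤ) * g.w.Et)
    have e : k + -(n : ℤ) * g.w.Et + n * g.w.Et = k := by ring
    rw [e] at h3
    linarith

section

variable {g} {m0 : ℕ} {hw : ℤ → ℕ} (H : Geo.Mn g m0 hw) {Q : Type u} [Group Q] {B : Lb.{u, v} Q} {l : L3 → B.L}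
  (c : Cov B l L) (hl : Function.Injective l) (hi : ∀ i, B.inv (l i) = l i) (hii : ∀ x, B.inv (B.inv x) = x)

/-- ROW ACT. -/
theorem act (hc : Chg g) (hG : 64 ≤ G) (hdl : ∀ k, k + 1 < R → spc k → g.dl k + 20 ≤ G)
    (hsea : ∀ K : ℤ, K % R = R - 1 → ∀ s, (g.P K s - g.P (K + 1) s) % 8 = 0 ∨ (g.P K s - g.P (K + 1) s) % 8 = 3)
    {c1 c2 : ℕ} (hc1 : c1 ≤ c2) (hc2 : c2 < m0) (x : Q) :
    ∃ (z : ℤ) (m : ℕ), 0 ≤ z ∧ z < g.w.Et ∧ m ≤ g.rE z ∧ m ≤ 7 ∧ ∀ κ0 κ1 : ℤ, κ0 ≤ c1 + 1 → (c2 : ℤ) + 1 ≤ κ1 →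
      ∃ S : Sd c (H.bd z) (g.rs z) κ0 κ1, (c1 : ℤ) + 1 ≤ S.1.1 ∧ S.1.1 ≤ c2 + 1 ∧
        (g.F c hl hi hii).C x (((H.bd z).chart c (g.rs z) κ0 κ1).Z m S 0) := by
  have hlt := H.lt
  obtain ⟨K, n, h1, h2, h3⟩ := flushG g c hl hi hii hc hG hdl hsea hc1 (hc2.trans hlt) x
  obtain ⟨a1, a2, a3, a4⟩ := nd_spec g hG K n
  have a1' : g.Lv K + g.w.e n < nd g K n := a1
  have a2' : nd g K n ≤ g.Lv K + g.w.e n + 8 := a2
  have a3' : nd g K n + 40 ≤ g.Lv K + g.w.e (n + 1) := a3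
  have hv : g.pat.onL (K, nd g K n) (g.pat.toPat.si K (nd g K n) 0) := by
    have hW : g.pat.toPat.W K (nd g K n) = false := by
      show bw (g.P K (nd g K n)) = false
      unfold bw
      simp [a4]
    refine ⟨g.C K (nd g K n), ?_, ?_, ?_⟩
    · show g.pat.toPat.cL K (nd g K n) ≤ _
      unfold Pat.cL
      rw [hW]
      exact le_refl _
    · refine le_trans ?_ (cL_le_cR g.pat.toPat K (nd g K n))
      unfold Pat.cL
      rw [hW]
      exact le_refl _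
    · show Pat.lv _ (g.pat.toPat.sc K (nd g K n) 0) = _
      unfold Pat.sc
      rw [hW]
      simp only [Bool.false_eq_true, if_false, Nat.cast_zero, add_zero]
      rfl
  obtain ⟨y, h4, h5⟩ := h3 (nd g K n) a1' (by omega) a4 _ hv
  obtain ⟨z, w, m, b1, b2, b3, b4, b5, b6⟩ := H.cover5 c hi (K := K) (s := nd g K n) (by omega) (by omega) a4
    (r := 0) (Nat.zero_le _) h4
  have c3 := g.rs_add z
  have c4 : (m : ℤ) ≤ g.rE z := by exact_mod_cast b3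
  have e1 := e_per g w (z - 1)
  have e2 := e_per g w z
  have e3 : z - 1 + w * g.w.Et = z + w * g.w.Et - 1 := by ring
  rw [e3] at e1
  have n1 : g.w.N (nd g K n - g.Lv K) = z + w * g.w.Et := (g.w.hN _ _).2 ⟨by
    rw [e1, b4]; unfold Geo.rs; omega, by rw [e2, b4]; omega⟩
  have n2 : g.w.N (nd g K n - g.Lv K) = n + 1 := (g.w.hN _ _).2 ⟨by
    rw [add_sub_cancel_right]; omega, by omega⟩
  have e4 : z + w * g.w.Et - 1 = n := by omega
  rw [e4] at e1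
  have hm : m ≤ 7 := by
    unfold Geo.rs at b4
    omega
  refine ⟨z, m, b1, b2, b3, hm, fun κ0 κ1 hk0 hk1 => ?_⟩
  obtain ⟨S, s1, s2, s3⟩ := b6 κ0 κ1 (by omega) (by omega)
  exact ⟨S, by omega, by omega, by rw [s3]; exact h5⟩

end

end Pool.Agent.Lib.MP_688fd0_co.SQ5.H66
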