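import Pool.Agent.Lib.MP_688fd0_co.SQ5.H58.NumLay
import Pool.Agent.Lib.MP_688fd0_co.SQ5.H58.NumC
import Pool.Agent.Lib.MP_688fd0_co.SQ5.H66.Act
import Pool.Agent.Lib.MP_688fd0_co.SQ5.H95.FarB

/-!
MP_688fd0_co, type C2, FAR-3, design B' (helper66, for helper95): row ASMNUM, the numbers of the final assembly.
-/

set_option autoImplicit false

namespace Pool.Agent.Lib.MP_688fd0_co.SQ5.H66

open Pool.Agent.Lib.MP_688fd0_co.OSF Pool.Agent.Lib.MP_688fd0_co.SQ5.H76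
open Pool.Agent.Lib.MP_688fd0_co.SQ3 Pool.Agent.Lib.MP_688fd0_co.SQ5.H24 Pool.Agent.Lib.MP_688fd0_co.SQ5.H58
open Pool.Agent.Lib.MP_688fd0_co.SQ5.H95

/-- The margin `m` of the changes of type. -/
def mF (r w : ℕ) : ℕ := 4 * (2 * r + w + 34) + 8

/-- The height `nh`. -/
def hF (r w : ℕ) : ℕ := 3 * mF r w + 4

/-- The shift `TT`. -/
def tF (r w q : ℕ) : ℕ := 4 * hF r w + 8 * q + 39

/-- The run length for `Z` = the product of the numbers of the load. -/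
def gF (r w q Z : ℕ) : ℕ := 309 + 32 * hF r w + 64 * q + 8 * tF r w q + Z + 1

/-- The load: `K ((cS K ^ 2 + 1) mm) (8 (3 e))` and one layer. -/
def zF (K cS mm e : ℕ) : ℕ := K * ((cS * K ^ 2 + 1) * mm) * (8 * (3 * e)) + 8 * (3 * e)

theorem nums_F {r w q Z : ℕ} (hq : 1 ≤ q) :
    Nums (q : ℤ) (hF r w : ℕ) (mF r w : ℕ) (tF r w q : ℕ) (gF r w q Z : ℕ) where
  hk := by exact_mod_cast hq
  hm := Int.natCast_nonneg _
  hh := by unfold hF; push_cast; linarith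
  hTT := by unfold tF; push_cast; linarith
  hTG := by
    have h : (309 : ℤ) + 32 * (hF r w : ℕ) + 64 * q + 8 * (tF r w q : ℕ) + (Z + 1) = (gF r w q Z : ℕ) := by
      unfold gF; push_cast; ring
    have hZ : (0 : ℤ) ≤ Z := Int.natCast_nonneg _
    linarith

theorem hF_le {r w X : ℕ} (hX : 1 ≤ X) (hr : r ≤ X) (hw : w ≤ X) : hF r w ≤ 472 * X := by
  unfold hF mF
  omega

theorem gF_le {r w q K cS mm e X Y : ℕ} (hX : 1 ≤ X) (hr : r ≤ X) (hw : w ≤ X) (hq : q ≤ X) (hK : K ≤ Y ^ 2)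
    (hc : cS ≤ Y) (hm : mm ≤ Y) (he : e ≤ Y) (hXY : X ≤ Y) : gF r w q (zF K cS mm e) ≤ 2 ^ 15 * Y ^ 9 := by
  have hY : 1 ≤ Y := hX.trans hXY
  have hpow : ∀ i j, i ≤ j → Y ^ i ≤ Y ^ j := fun i j h => Nat.pow_le_pow_right hY h
  have h1 : cS * K ^ 2 + 1 ≤ 2 * Y ^ 5 := by
    have h2 : cS * K ^ 2 ≤ Y * (Y ^ 2) ^ 2 := Nat.mul_le_mul hc (Nat.pow_le_pow_left hK 2)
    have h3 : Y * (Y ^ 2) ^ 2 = Y ^ 5 := by ring
    have h4 : 1 ≤ Y ^ 5 := Nat.one_le_pow _ _ hY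
    omega
  have h2 : K * ((cS * K ^ 2 + 1) * mm) * (8 * (3 * e)) ≤ 48 * Y ^ 9 := by
    calc K * ((cS * K ^ 2 + 1) * mm) * (8 * (3 * e)) ≤ Y ^ 2 * (2 * Y ^ 5 * Y) * (8 * (3 * Y)) :=
          Nat.mul_le_mul (Nat.mul_le_mul hK (Nat.mul_le_mul h1 hm)) (by omega)
      _ = 48 * Y ^ 9 := by ring
  have h3 : Y ≤ Y ^ 9 := by simpa using hpow 1 9 (by norm_num)
  have h4 := hF_le hX hr hw
  unfold gF tF zF
  omega

theorem two_pow_le {S m c : ℕ} (hS : 4 ≤ S) (h : m + 3 ≤ c) : 2 ^ 15 * (2 ^ (S ^ m)) ^ 9 ≤ 2 ^ (S ^ c) := by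
  rw [← pow_mul, ← pow_add]
  refine Nat.pow_le_pow_right (by norm_num) ?_
  have h1 : 1 ≤ S ^ m := Nat.one_le_pow _ _ (by omega)
  calc 15 + S ^ m * 9 ≤ S ^ m * 4 ^ 3 := by omega
    _ ≤ S ^ m * S ^ 3 := Nat.mul_le_mul_left _ (Nat.pow_le_pow_left hS 3)
    _ = S ^ (m + 3) := (pow_add _ _ _).symm
    _ ≤ S ^ c := Nat.pow_le_pow_right (by omega) h

open Nat in
/-- the number of helper64 -/
theorem fac_le {c n k d : ℕ} (hk : 4 ≤ k) (hc : 2 * c ≤ k ^ d) (hn : 2 * n ≤ k ^ d) :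
    (2 * c)! * (2 * n) ≤ 2 ^ (k ^ (2 * d + 1)) := by
  have h1 : (2 * c)! ≤ 2 ^ (k ^ (2 * d)) := by
    calc (2 * c)! ≤ (2 * c) ^ (2 * c) := Nat.factorial_le_pow _
      _ ≤ (2 ^ (2 * c)) ^ (2 * c) := Nat.pow_le_pow_left Nat.lt_two_pow_self.le _
      _ = 2 ^ ((2 * c) * (2 * c)) := (pow_mul _ _ _).symm
      _ ≤ 2 ^ (k ^ d * k ^ d) := Nat.pow_le_pow_right (by norm_num) (Nat.mul_le_mul hc hc)
      _ = _ := by rw [← pow_add, two_mul]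
  have h2 : 2 * n ≤ 2 ^ (k ^ (2 * d)) := by
    calc 2 * n ≤ k ^ d := hn
      _ ≤ k ^ (2 * d) := Nat.pow_le_pow_right (by omega) (by omega)
      _ ≤ _ := Nat.lt_two_pow_self.le
  calc (2 * c)! * (2 * n) ≤ 2 ^ (k ^ (2 * d)) * 2 ^ (k ^ (2 * d)) := Nat.mul_le_mul h1 h2
    _ = 2 ^ (2 * k ^ (2 * d)) := by rw [← pow_add, ← two_mul]
    _ ≤ 2 ^ (k ^ (2 * d + 1)) := by
      refine Nat.pow_le_pow_right (by norm_num) ?_
      rw [pow_succ, mul_comm]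
      exact Nat.mul_le_mul_left _ (by omega)

/-- NUMBERS OF THE FINAL ASSEMBLY, general widths. -/
theorem numG (rf wf qf mmf : ℕ → ℕ) {c₃ : ℕ} (hr : ∀ k, 4 ≤ k → 1 ≤ rf k ∧ rf k ≤ k ^ c₃)
    (hw : ∀ k, 4 ≤ k → wf k ≤ k ^ c₃) (hq : ∀ k, 4 ≤ k → 1 ≤ qf k ∧ qf k ≤ k ^ c₃)
    (hmm : ∀ k, 4 ≤ k → mmf k ≤ 2 ^ (k ^ c₃)) (cS : ℕ) :
    ∃ e : ℕ, ∀ c₁ : ℕ, ∃ c₀ : ℕ, ∀ (G : Type) [Group G] [Finite G] (N C : Subgroup G)
    (eps : G →* ℤˣ) (k P : ℕ) (a t b : G), SQD.Tri N C eps k P a t b c₁ →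
    ¬ SQD.Rel P a t b ((k + (Nat.card G).primeFactorsList.length) ^ e) →
    2 ^ ((k + (Nat.card G).primeFactorsList.length) ^ c₀) ≤ P →
      Inv3 eps ![a, t, b] ∧ 4 ≤ k ∧ P ∣ Nat.card (Tt eps) ∧ ¬ P ∣ Nat.card (K0 eps) ∧ K0 eps ⊓ N ≤ C ∧
      0 < Nat.card (K0 eps) ∧
      ∀ {t₁ t₂ : Fin 3}, t₁ ≠ t₂ → ∃ s, (s = t₁ ∨ s = t₂) ∧ ∃ a' b' : Fin 3, s ≠ a' ∧ s ≠ b' ∧ a' ≠ b' ∧
        ∃ (R : ℕ) (nh m TT Gr : ℤ)
          (g : Geo (Ltc (ct eps ((![a, t, b] : Fin 3 → G) a' * (![a, t, b] : Fin 3 → G) s))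
            (ct eps ((![a, t, b] : Fin 3 → G) b' * (![a, t, b] : Fin 3 → G) s)))
            (Nat.card (Tt eps)) R (dcL (2 * rf k + wf k + 1) (dB (rf k) (wf k))) (spL (2 * rf k + wf k + 1)) Gr),
          2 * rf k + wf k + 6 ≤ R ∧ Nums (qf k : ℤ) nh m TT Gr ∧ Lay g (qf k : ℤ) nh m TT (2 * rf k + wf k + 1) ∧
          4 * (R : ℤ) + 8 ≤ m ∧ Chg g ∧ 64 ≤ Gr ∧
          (∀ j, j + 1 < R → spL (2 * rf k + wf k + 1) j → g.dl j + 20 ≤ Gr) ∧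
          (∀ K : ℤ, K % R = R - 1 → ∀ s, (g.P K s - g.P (K + 1) s) % 8 = 0 ∨ (g.P K s - g.P (K + 1) s) % 8 = 3) ∧
          (∀ z : Zr g, 8 * (3 * (k * Nat.card C)) ≤ g.rE z) ∧
          ∀ z : Zr g, wf k * Nat.card (K0 eps) * ((cS * (wf k * Nat.card (K0 eps)) ^ 2 + 1) * mmf k) *
            (8 * (3 * (k * Nat.card C))) ≤ g.rE z := by
  obtain ⟨e, he⟩ := num_lay (c₃ + 5)
  refine ⟨e, fun c₁ => ?_⟩
  set m := max (c₁ + 1) (max c₃ cS) with hm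
  obtain ⟨c₀, hc⟩ := he c₁ (m + 3)
  refine ⟨c₀, ?_⟩
  intro G _ _ N C eps k P a t b h hR hP
  obtain ⟨h1, h2, h5, h6, h7, h8, h9, h10⟩ := hc G N C eps k P a t b h hR hP
  refine ⟨h1, h2, h7, h8, h9, h6, ?_⟩
  intro t₁ t₂ htt
  have hcC := card_C_tri h
  set S := k + (Nat.card G).primeFactorsList.length with hS
  have hS4 : 4 ≤ S := by omega
  have hkS : k ^ c₃ ≤ S ^ c₃ := Nat.pow_le_pow_left (by omega) _
  have hSc : 1 ≤ S ^ c₃ := Nat.one_le_pow _ _ (by omega)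
  obtain ⟨hr1, hr2⟩ := hr k h2
  obtain ⟨hq1, hq2⟩ := hq k h2
  have hw2 := hw k h2
  have hmm2 := hmm k h2
  -- everything against `Y`
  have hY : ∀ i, i ≤ m → 2 ^ (S ^ i) ≤ 2 ^ (S ^ m) := fun i hi =>
    Nat.pow_le_pow_right (by norm_num) (Nat.pow_le_pow_right (by omega) hi)
  have hm1 : c₁ + 1 ≤ m := le_max_left _ _
  have hm2 : c₃ ≤ m := (le_max_left _ _).trans (le_max_right _ _)
  have hm3 : cS ≤ m := (le_max_right _ _).trans (le_max_right _ _)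
  have hXY : S ^ c₃ ≤ 2 ^ (S ^ m) := (Nat.lt_two_pow_self.le).trans (hY _ hm2)
  have hcY : cS ≤ 2 ^ (S ^ m) := by
    calc cS ≤ 2 ^ cS := Nat.lt_two_pow_self.le
      _ ≤ S ^ cS := Nat.pow_le_pow_left (by omega) _
      _ ≤ 2 ^ (S ^ cS) := Nat.lt_two_pow_self.le
      _ ≤ _ := hY _ hm3
  have hmY : mmf k ≤ 2 ^ (S ^ m) := hmm2.trans ((Nat.pow_le_pow_right (by norm_num) hkS).trans (hY _ hm2))
  have hKY : wf k * Nat.card (K0 eps) ≤ (2 ^ (S ^ m)) ^ 2 := by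
    rw [pow_two]
    exact Nat.mul_le_mul ((hw2.trans hkS).trans hXY) (h5.trans (hY _ hm1))
  have heY : k * Nat.card C ≤ 2 ^ (S ^ m) := by
    rw [mul_comm]
    exact hcC.trans (hY _ hm1)
  set Z := zF (wf k * Nat.card (K0 eps)) cS (mmf k) (k * Nat.card C) with hZ
  have hGle : gF (rf k) (wf k) (qf k) Z ≤ 2 ^ (S ^ (m + 3)) :=
    (gF_le hSc (hr2.trans hkS) (hw2.trans hkS) (hq2.trans hkS) hKY hcY hmY heY hXY).trans (two_pow_le hS4 le_rfl)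
  have hhle : hF (rf k) (wf k) ≤ S ^ (c₃ + 5) := by
    refine (hF_le hSc (hr2.trans hkS) (hw2.trans hkS)).trans ?_
    rw [pow_add, mul_comm]
    refine Nat.mul_le_mul_left _ ?_
    calc 472 ≤ 4 ^ 5 := by norm_num
      _ ≤ S ^ 5 := Nat.pow_le_pow_left hS4 5
  have hup : S ^ c₃ ≤ S ^ (c₃ + 5) := Nat.pow_le_pow_right (by omega) (by omega)
  have hn := nums_F (r := rf k) (w := wf k) (q := qf k) (Z := Z) hq1
  obtain ⟨s, hs, a', b', hsa, hsb, hab, R, hR1, hR2, hex⟩ := h10 (rf k) (wf k) (hF (rf k) (wf k)) (qf k)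
    (mF (rf k) (wf k)) (tF (rf k) (wf k) (qf k)) (gF (rf k) (wf k) (qf k) Z) hr1 hn ((hr2.trans hkS).trans hup)
    ((hw2.trans hkS).trans hup) hhle ((hq2.trans hkS).trans hup) hGle htt
  refine ⟨s, hs, a', b', hsa, hsb, hab, R, (hF (rf k) (wf k) : ℕ), (mF (rf k) (wf k) : ℕ),
    (tF (rf k) (wf k) (qf k) : ℕ), (gF (rf k) (wf k) (qf k) Z : ℕ), ?_⟩
  rw [h1.hh_sub, h1.hh_sub] at hex
  obtain ⟨g, hlay, -, -, -⟩ := hex
  have hm4 : 4 * (R : ℤ) + 8 ≤ ((mF (rf k) (wf k) : ℕ) : ℤ) := by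
    unfold mF
    push_cast
    omega
  have hrE : ∀ z : ℤ, gF (rf k) (wf k) (qf k) Z ≤ g.rE z + 1 := by
    intro z
    have e1 := g.rE_eq z
    have e2 := g.w.he (z - 1)
    rw [sub_add_cancel] at e2
    omega
  have hZE : ∀ z : ℤ, Z ≤ g.rE z := by
    intro z
    have e1 := hrE z
    have e2 : Z + 1 ≤ gF (rf k) (wf k) (qf k) Z := by
      unfold gF
      omega
    omega
  refine ⟨g, hR1, hn, hlay, hm4, chg_of_str g hlay.str hm4, ?_, ?_, hlay.sea, ?_, ?_⟩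
  · have := hn.hTG
    have := hn.hh
    have := hn.hm
    have := hn.hk
    have := hn.hTT
    omega
  · intro j hj hsp
    have := hn.hTG
    have := hn.hh
    have := hn.hm
    have := hn.hk
    have := hn.hTT
    by_cases hjk : j = 2 * rf k + wf k + 1
    · subst hjk
      rcases hlay.dls with h | h <;> rw [h] <;> omega
    · rw [hlay.dl3 j hsp hjk]
      omega
  · intro z
    refine le_trans ?_ (hZE z)
    rw [hZ]
    unfold zF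
    exact Nat.le_add_left _ _
  · intro z
    refine le_trans ?_ (hZE z)
    rw [hZ]
    unfold zF
    exact Nat.le_add_right _ _

/-- ASMNUM for helper95: `r = 2`, `w = k + 6`, `kq = k`. -/
theorem numF (mmf : ℕ → ℕ) {c₃ : ℕ} (hmm : ∀ k, 4 ≤ k → mmf k ≤ 2 ^ (k ^ c₃)) (cS : ℕ) :
    ∃ e : ℕ, ∀ c₁ : ℕ, ∃ c₀ : ℕ, ∀ (G : Type) [Group G] [Finite G] (N C : Subgroup G)
    (eps : G →* ℤˣ) (k P : ℕ) (a t b : G), SQD.Tri N C eps k P a t b c₁ →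
    ¬ SQD.Rel P a t b ((k + (Nat.card G).primeFactorsList.length) ^ e) →
    2 ^ ((k + (Nat.card G).primeFactorsList.length) ^ c₀) ≤ P →
      Inv3 eps ![a, t, b] ∧ 4 ≤ k ∧ P ∣ Nat.card (Tt eps) ∧ ¬ P ∣ Nat.card (K0 eps) ∧ K0 eps ⊓ N ≤ C ∧
      0 < Nat.card (K0 eps) ∧
      ∀ {t₁ t₂ : Fin 3}, t₁ ≠ t₂ → ∃ s, (s = t₁ ∨ s = t₂) ∧ ∃ a' b' : Fin 3, s ≠ a' ∧ s ≠ b' ∧ a' ≠ b' ∧
        ∃ (R : ℕ) (nh m TT Gr : ℤ)
          (g : Geo (Ltc (ct eps ((![a, t, b] : Fin 3 → G) a' * (![a, t, b] : Fin 3 → G) s))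
            (ct eps ((![a, t, b] : Fin 3 → G) b' * (![a, t, b] : Fin 3 → G) s)))
            (Nat.card (Tt eps)) R (dcL (2 * 2 + (k + 6) + 1) (dB 2 (k + 6))) (spL (2 * 2 + (k + 6) + 1)) Gr),
          2 * 2 + (k + 6) + 6 ≤ R ∧ Nums (k : ℤ) nh m TT Gr ∧ Lay g (k : ℤ) nh m TT (2 * 2 + (k + 6) + 1) ∧
          4 * (R : ℤ) + 8 ≤ m ∧ Chg g ∧ 64 ≤ Gr ∧
          (∀ j, j + 1 < R → spL (2 * 2 + (k + 6) + 1) j → g.dl j + 20 ≤ Gr) ∧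
          (∀ K : ℤ, K % R = R - 1 → ∀ s, (g.P K s - g.P (K + 1) s) % 8 = 0 ∨ (g.P K s - g.P (K + 1) s) % 8 = 3) ∧
          (∀ z : Zr g, 8 * (3 * (k * Nat.card C)) ≤ g.rE z) ∧
          ∀ z : Zr g, (k + 6) * Nat.card (K0 eps) * ((cS * ((k + 6) * Nat.card (K0 eps)) ^ 2 + 1) * mmf k) *
            (8 * (3 * (k * Nat.card C))) ≤ g.rE z := by
  have hk2 : ∀ k, 4 ≤ k → ∀ c, k + 6 ≤ k ^ (c + 2) := by
    intro k hk c
    calc k + 6 ≤ k * k := by nlinarith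
      _ = k ^ 2 := (pow_two k).symm
      _ ≤ k ^ (c + 2) := Nat.pow_le_pow_right (by omega) (by omega)
  exact numG (fun _ => 2) (fun k => k + 6) (fun k => k) mmf (c₃ := c₃ + 2)
    (fun k hk => ⟨by norm_num, by have := hk2 k hk c₃; omega⟩)
    (fun k hk => hk2 k hk c₃) (fun k hk => ⟨by omega, by have := hk2 k hk c₃; omega⟩)
    (fun k hk => (hmm k hk).trans (Nat.pow_le_pow_right (by norm_num) (Nat.pow_le_pow_right (by omega) (by omega)))) cS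

open Nat in
/-- helper64's number with helper20's `c` and `n`. -/
theorem mm64_le (k : ℕ) (hk : 4 ≤ k) :
    (2 * ((16 * k + 1) * 3 * (8 * k + 1)))! * (2 * (16 * k + 1)) ≤ 2 ^ (k ^ 15) := by
  have h5 : 1024 ≤ k ^ 5 := by
    calc 1024 = 4 ^ 5 := by norm_num
      _ ≤ k ^ 5 := Nat.pow_le_pow_left hk 5
  refine fac_le (d := 7) hk ?_ ?_
  · have h1 : (16 * k + 1) * 3 * (8 * k + 1) ≤ (17 * k) * 3 * (9 * k) :=
      Nat.mul_le_mul (Nat.mul_le_mul_right _ (by omega)) (by omega)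
    calc 2 * ((16 * k + 1) * 3 * (8 * k + 1)) ≤ 2 * ((17 * k) * 3 * (9 * k)) := Nat.mul_le_mul_left _ h1
      _ = 918 * k ^ 2 := by ring
      _ ≤ k ^ 5 * k ^ 2 := Nat.mul_le_mul_right _ (by omega)
      _ = k ^ 7 := by rw [← pow_add]
  · calc 2 * (16 * k + 1) ≤ 1024 * k := by omega
      _ ≤ k ^ 5 * k := Nat.mul_le_mul_right _ h5
      _ = k ^ 6 := (pow_succ _ _).symm
      _ ≤ k ^ 7 := Nat.pow_le_pow_right (by omega) (by norm_num)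

end Pool.Agent.Lib.MP_688fd0_co.SQ5.H66
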