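import Pool.Agent.Lib.MP_688fd0_co.SQ5.H66.Cen

/-!
TYPE C2, case B3: the arcs of the centred strands: along a wall (`up_step`), at the events (`arc_a`, `arc_b`, `cap_a`,
`cup_a`) and through a special strip (`merge`).
-/

set_option autoImplicit false

namespace Pool.Agent.Lib.MP_688fd0_co.SQ5.H66

open Pool.Agent.Lib.MP_688fd0_co.SQ5.H76

theorem srch_pt {L : ℕ → ℕ → Bool} {lo hi r n tj ti : ℕ} {x : ℕ × ℕ × Bool}
    (h : srch L (fun j i => Nat.beq j tj && Nat.beq i ti) lo hi r n x = true) :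
    Cw L lo hi r (x.1, x.2.1) (tj, ti) := by
  obtain ⟨y, h1, h2⟩ := srch_spec h
  rw [Bool.and_eq_true] at h2
  have e1 := Nat.eq_of_beq_eq_true h2.1
  have e2 := Nat.eq_of_beq_eq_true h2.2
  have : y = (tj, ti) := Prod.ext e1 e2
  rw [this] at h1
  exact h1

theorem beq_ff {a b : ℕ} (h : a ≠ b) : Nat.beq a b = false := by
  rcases hb : Nat.beq a b with _ | _
  · rfl
  · exact absurd (Nat.eq_of_beq_eq_true hb) h

theorem beq_tt {a b : ℕ} (h : a = b) : Nat.beq a b = true := by subst h; exact Nat.beq_refl a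

theorem bad_ff {a b e : ℕ} (h : ¬ (a ≤ e ∧ e ≤ b)) : bad a b e = false := by
  unfold bad
  rcases h1 : Nat.ble a e with _ | _
  · rfl
  · rcases h2 : Nat.ble e b with _ | _
    · rfl
    · exact absurd ⟨Nat.le_of_ble_eq_true h1, Nat.le_of_ble_eq_true h2⟩ h

variable {p : PPat}

/-- No event at the levels `s .. s + n - 1`. -/
def NoEv (p : PPat) (K s n : ℤ) : Prop := ∀ u, s ≤ u → u < s + n → ¬ Ev p K u

theorem NoEv.ph {K s n : ℤ} (h : NoEv p K s n) (m : ℕ) (hm : (m : ℤ) ≤ n) : p.P K (s + m) = p.P K s + m := by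
  induction m with
  | zero => simp
  | succ m ih =>
    push_cast at hm
    have h1 := ih (by omega)
    have h2 := not_ev (h (s + m) (by omega) (by omega))
    have e : s + ((m + 1 : ℕ) : ℤ) = s + m + 1 := by push_cast; ring
    rw [e, h2, h1]
    push_cast
    ring

section

variable (hG : 64 ≤ p.G) (ho : ∀ K, p.sp K → Of3 p K)

include hG ho in
/-- The right half of a period. -/
theorem half_r {K s : ℤ} (hn : p.P K s % 8 = 5) (hE : NoEv p K s 8) : p.LC (Bx K s) (K, s) (K - 1, s + 4) := by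
  by_cases c : p.sp K
  · obtain ⟨a, e, b, f, ha, he, hb, hf, h1, h2, h3, h4, h5, h6, h7, h8⟩ :=
      sp_win p c (ho K c) (s - 5) 14 (by push_cast; omega)
    have h9 := all4_spec chk2 ha he hb hf h1 h2 h3
    have e1 : phN a e 5 = 5 := by
      have := h4 3 5 (by norm_num) le_rfl (by norm_num)
      have e2 : K + ((3 : ℕ) : ℤ) - 3 = K := by push_cast; ring
      have e3 : s - 5 + ((5 : ℕ) : ℤ) = s := by push_cast; ring
      rw [e2, e3, hn] at this
      omega
    have e2 : bad 5 12 e = false := bad_ff fun hh => by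
      have := (h5 e (by omega)).2 rfl
      exact hE _ (by omega) (by omega) this
    unfold F2 at h9
    rw [e1, e2] at h9
    have h10 := srch_pt (by simpa using h9)
    have h11 := Cw_sound p.toPat K (s - 5) 1 6 14 le_rfl le_rfl h8 h10
    have f1 : (K + ((3 : ℕ) : ℤ) - 3, s - 5 + ((5 : ℕ) : ℤ)) = (K, s) := by ext <;> push_cast <;> ring
    have f2 : (K + ((2 : ℕ) : ℤ) - 3, s - 5 + ((9 : ℕ) : ℤ)) = (K - 1, s + 4) := by ext <;> push_cast <;> ring
    rw [f1, f2] at h11
    refine LC.mono ?_ h11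
    intro x hx
    unfold Win at hx
    unfold Bx
    push_cast at hx
    refine ⟨?_, ?_, ?_, ?_⟩ <;> omega
  · obtain ⟨a, e, ha, he, h1, h2, h3, h4⟩ := al_win p (K := K) (lo := 3) (hi := 4) (by norm_num) (by norm_num) (by
      intro j hj hj'
      have : j = 3 := by omega
      subst this
      have e1 : K + ((3 : ℕ) : ℤ) - 3 = K := by push_cast; ring
      rw [e1]; exact c) (s - 5) 10 (by push_cast; omega)
    have h9 := all2_spec chg2 ha he h1
    have e1 : phN a e 5 = 5 := by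
      have := h2 3 5 (by norm_num) (by norm_num) (by norm_num)
      have e2 : K + ((3 : ℕ) : ℤ) - 3 = K := by push_cast; ring
      have e3 : s - 5 + ((5 : ℕ) : ℤ) = s := by push_cast; ring
      rw [e2, e3, hn] at this
      omega
    have e2 : bad 5 8 e = false := bad_ff fun hh => by
      have := (h3 e (by omega)).2 rfl
      exact hE _ (by omega) (by omega) this
    unfold G2 at h9
    rw [e1, e2] at h9
    have h10 := srch_pt (by simpa using h9)
    have h11 := Cw_sound p.toPat K (s - 5) 3 4 10 (by norm_num) (by norm_num) h4 h10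
    have f1 : (K + ((3 : ℕ) : ℤ) - 3, s - 5 + ((5 : ℕ) : ℤ)) = (K, s) := by ext <;> push_cast <;> ring
    have f2 : (K + ((2 : ℕ) : ℤ) - 3, s - 5 + ((9 : ℕ) : ℤ)) = (K - 1, s + 4) := by ext <;> push_cast <;> ring
    rw [f1, f2] at h11
    refine LC.mono ?_ h11
    intro x hx
    unfold Win at hx
    unfold Bx
    push_cast at hx
    refine ⟨?_, ?_, ?_, ?_⟩ <;> omega

include hG ho in
/-- The left half of a period. -/
theorem half_l {K s : ℤ} (hn : p.P K s % 8 = 5) (hE : NoEv p K s 8) :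
    p.LC (Bx K s) (K - 1, s + 4) (K, s + 8) := by
  have hn4 : p.P K (s + 4) % 8 = 1 := by
    have := hE.ph 4 (by norm_num)
    push_cast at this
    omega
  by_cases c : p.sp (K - 1)
  · obtain ⟨a, e, b, f, ha, he, hb, hf, h1, h2, h3, h4, h5, h6, h7, h8⟩ :=
      sp_win p c (ho _ c) (s - 1) 14 (by push_cast; omega)
    have h9 := all4_spec chk3 ha he hb hf h1 h2 h3
    have e1 : phN b f 5 = 1 := by
      have := h6 4 5 le_rfl (by norm_num) (by norm_num)
      have e2 : K - 1 + ((4 : ℕ) : ℤ) - 3 = K := by push_cast; ring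
      have e3 : s - 1 + ((5 : ℕ) : ℤ) = s + 4 := by push_cast; ring
      rw [e2, e3, hn4] at this
      omega
    have e2 : bad 1 8 f = false := bad_ff fun hh => by
      have h10 := (h7 f (by omega)).2 rfl
      rw [sub_add_cancel] at h10
      exact hE _ (by omega) (by omega) h10
    unfold F3 at h9
    rw [e1, e2] at h9
    have h10 := srch_pt (by simpa using h9)
    have h11 := Cw_sound p.toPat (K - 1) (s - 1) 1 6 14 le_rfl le_rfl h8 h10
    have f1 : (K - 1 + ((3 : ℕ) : ℤ) - 3, s - 1 + ((5 : ℕ) : ℤ)) = (K - 1, s + 4) := by ext <;> push_cast <;> ring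
    have f2 : (K - 1 + ((4 : ℕ) : ℤ) - 3, s - 1 + ((9 : ℕ) : ℤ)) = (K, s + 8) := by ext <;> push_cast <;> ring
    rw [f1, f2] at h11
    refine LC.mono ?_ h11
    intro x hx
    unfold Win at hx
    unfold Bx
    push_cast at hx
    refine ⟨?_, ?_, ?_, ?_⟩ <;> omega
  · obtain ⟨a, e, ha, he, h1, h2, h3, h4⟩ := al_win p (K := K - 1) (lo := 3) (hi := 4) (by norm_num) (by norm_num) (by
      intro j hj hj'
      have : j = 3 := by omega
      subst this
      have e1 : K - 1 + ((3 : ℕ) : ℤ) - 3 = K - 1 := by push_cast; ring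
      rw [e1]; exact c) (s - 1) 10 (by push_cast; omega)
    have h9 := all2_spec chg3 ha he h1
    have e1 : phN a e 5 = 1 := by
      have := h2 4 5 (by norm_num) (by norm_num) (by norm_num)
      have e2 : K - 1 + ((4 : ℕ) : ℤ) - 3 = K := by push_cast; ring
      have e3 : s - 1 + ((5 : ℕ) : ℤ) = s + 4 := by push_cast; ring
      rw [e2, e3, hn4] at this
      omega
    have e2 : bad 5 8 e = false := bad_ff fun hh => by
      have h10 := (h3 e (by omega)).2 rfl
      rw [← ev_alg p c, sub_add_cancel] at h10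
      exact hE _ (by omega) (by omega) h10
    unfold G3 at h9
    rw [e1, e2] at h9
    have h10 := srch_pt (by simpa using h9)
    have h11 := Cw_sound p.toPat (K - 1) (s - 1) 3 4 10 (by norm_num) (by norm_num) h4 h10
    have f1 : (K - 1 + ((3 : ℕ) : ℤ) - 3, s - 1 + ((5 : ℕ) : ℤ)) = (K - 1, s + 4) := by ext <;> push_cast <;> ring
    have f2 : (K - 1 + ((4 : ℕ) : ℤ) - 3, s - 1 + ((9 : ℕ) : ℤ)) = (K, s + 8) := by ext <;> push_cast <;> ring
    rw [f1, f2] at h11
    refine LC.mono ?_ h11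
    intro x hx
    unfold Win at hx
    unfold Bx
    push_cast at hx
    refine ⟨?_, ?_, ?_, ?_⟩ <;> omega

include hG ho in
/-- One period along a wall. -/
theorem up_step {K s : ℤ} (hn : p.P K s % 8 = 5) (hE : NoEv p K s 8) : p.LC (Bx K s) (K, s) (K, s + 8) :=
  (half_r hG ho hn hE).trans (half_l hG ho hn hE)

include hG in
/-- The `b`-event in a normal strip. -/
theorem arc_b {K e : ℤ} (c : ¬ p.sp K) (hE : Ev p K e) (hn : p.P K e % 8 = 6) :
    p.LC (Bx K e) (K, e - 1) (K + 1, e + 2) := by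
  obtain ⟨a, i, ha, hi, h1, h2, h3, h4⟩ := al_win p (K := K) (lo := 3) (hi := 4) (by norm_num) (by norm_num) (by
      intro j hj hj'
      have : j = 3 := by omega
      subst this
      have e1 : K + ((3 : ℕ) : ℤ) - 3 = K := by push_cast; ring
      rw [e1]; exact c) (e - 6) 10 (by push_cast; omega)
  have h9 := all2_spec chg5 ha hi h1
  have e3 : e - 6 + ((6 : ℕ) : ℤ) = e := by push_cast; ring
  have e1 : i = 6 := ((h3 6 (by norm_num)).1 (by rw [e3]; exact hE)).symm
  subst e1
  have e4 : phN a 6 6 = 6 := by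
    have := h2 3 6 (by norm_num) (by norm_num) (by norm_num)
    have e2 : K + ((3 : ℕ) : ℤ) - 3 = K := by push_cast; ring
    rw [e2, e3, hn] at this
    omega
  unfold G5 at h9
  rw [e4] at h9
  have h10 := srch_pt (by simpa using h9)
  have h11 := Cw_sound p.toPat K (e - 6) 3 4 10 (by norm_num) (by norm_num) h4 h10
  have f1 : (K + ((3 : ℕ) : ℤ) - 3, e - 6 + ((5 : ℕ) : ℤ)) = (K, e - 1) := by ext <;> push_cast <;> ring
  have f2 : (K + ((4 : ℕ) : ℤ) - 3, e - 6 + ((8 : ℕ) : ℤ)) = (K + 1, e + 2) := by ext <;> push_cast <;> ring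
  rw [f1, f2] at h11
  refine LC.mono ?_ h11
  intro x hx
  unfold Win at hx
  unfold Bx
  push_cast at hx
  refine ⟨?_, ?_, ?_, ?_⟩ <;> omega

include hG in
/-- The `a`-event in a normal strip, not next to a special strip. -/
theorem arc_a {K e : ℤ} (c : ¬ p.sp K) (c1 : ¬ p.sp (K - 1)) (c2 : ¬ p.sp (K - 2)) (hE : Ev p K e)
    (hn : p.P K e % 8 = 2) : p.LC (Bx K e) (K, e - 5) (K - 1, e + 6) := by
  obtain ⟨a, i, ha, hi, h1, h2, h3, h4⟩ := al_win p (K := K) (lo := 1) (hi := 4) (by norm_num) (by norm_num) (by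
      intro j hj hj'
      have : j = 1 ∨ j = 2 ∨ j = 3 := by omega
      rcases this with rfl | rfl | rfl
      · have e1 : K + ((1 : ℕ) : ℤ) - 3 = K - 2 := by push_cast; ring
        rw [e1]; exact c2
      · have e1 : K + ((2 : ℕ) : ℤ) - 3 = K - 1 := by push_cast; ring
        rw [e1]; exact c1
      · have e1 : K + ((3 : ℕ) : ℤ) - 3 = K := by push_cast; ring
        rw [e1]; exact c) (e - 10) 18 (by push_cast; omega)
  have h9 := all2_spec chg4 ha hi h1
  have e3 : e - 10 + ((10 : ℕ) : ℤ) = e := by push_cast; ring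
  have e1 : i = 10 := ((h3 10 (by norm_num)).1 (by rw [e3]; exact hE)).symm
  subst e1
  have e4 : phN a 10 10 = 2 := by
    have := h2 3 10 (by norm_num) (by norm_num) (by norm_num)
    have e2 : K + ((3 : ℕ) : ℤ) - 3 = K := by push_cast; ring
    rw [e2, e3, hn] at this
    omega
  unfold G4 at h9
  rw [e4] at h9
  have h10 := srch_pt (by simpa using h9)
  have h11 := Cw_sound p.toPat K (e - 10) 1 4 18 (by norm_num) (by norm_num) h4 h10
  have f1 : (K + ((3 : ℕ) : ℤ) - 3, e - 10 + ((5 : ℕ) : ℤ)) = (K, e - 5) := by ext <;> push_cast <;> ring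
  have f2 : (K + ((2 : ℕ) : ℤ) - 3, e - 10 + ((16 : ℕ) : ℤ)) = (K - 1, e + 6) := by ext <;> push_cast <;> ring
  rw [f1, f2] at h11
  refine LC.mono ?_ h11
  intro x hx
  unfold Win at hx
  unfold Bx
  push_cast at hx
  refine ⟨?_, ?_, ?_, ?_⟩ <;> omega

include hG ho in
/-- The cap below the `a`-event of the right wall of a special strip. -/
theorem cap_a {K e : ℤ} (c : p.sp K) (hE : Ev p (K + 1) e) (hn : p.P (K + 1) e % 8 = 2) (hn' : p.P K e % 8 = 2)
    (hE' : ¬ Ev p K e) : p.LC (Bx K e) (K + 2, e - 5) (K + 1, e - 5) := by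
  obtain ⟨a, i, b, f, ha, hi, hb, hf, h1, h2, h3, h4, h5, h6, h7, h8⟩ :=
    sp_win p c (ho K c) (e - 10) 14 (by push_cast; omega)
  have h9 := all4_spec chk4 ha hi hb hf h1 h2 h3
  have e3 : e - 10 + ((10 : ℕ) : ℤ) = e := by push_cast; ring
  have e1 : f = 10 := ((h7 10 (by norm_num)).1 (by rw [e3]; exact hE)).symm
  subst e1
  have e2 : i ≠ 10 := fun h => hE' (by
    have := (h5 10 (by norm_num)).2 h.symm
    rw [e3] at this
    exact this)
  have e4 : phN b 10 10 = 2 := by
    have := h6 4 10 (by norm_num) (by norm_num) (by norm_num)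
    have e5 : K + ((4 : ℕ) : ℤ) - 3 = K + 1 := by push_cast; ring
    rw [e5, e3, hn] at this
    omega
  have e5 : phN a i 10 = 2 := by
    have := h4 3 10 (by norm_num) (by norm_num) (by norm_num)
    have e5 : K + ((3 : ℕ) : ℤ) - 3 = K := by push_cast; ring
    rw [e5, e3, hn'] at this
    omega
  unfold F4 at h9
  rw [e4, e5, beq_ff e2] at h9
  have h10 := srch_pt (by simpa using h9)
  have h11 := Cw_sound p.toPat K (e - 10) 1 6 14 le_rfl le_rfl h8 h10
  have f1 : (K + ((5 : ℕ) : ℤ) - 3, e - 10 + ((5 : ℕ) : ℤ)) = (K + 2, e - 5) := by ext <;> push_cast <;> ring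
  have f2 : (K + ((4 : ℕ) : ℤ) - 3, e - 10 + ((5 : ℕ) : ℤ)) = (K + 1, e - 5) := by ext <;> push_cast <;> ring
  rw [f1, f2] at h11
  refine LC.mono ?_ h11
  intro x hx
  unfold Win at hx
  unfold Bx
  push_cast at hx
  refine ⟨?_, ?_, ?_, ?_⟩ <;> omega

include hG ho in
/-- The cup above the `a`-event of the left wall of a special strip. -/
theorem cup_a {K e : ℤ} (c : p.sp K) (hE : Ev p K e) (hn : p.P K e % 8 = 2) (hn' : p.P (K + 1) e % 8 = 7) :
    p.LC (Bx K e) (K - 1, e + 6) (K, e + 6) := by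
  obtain ⟨a, i, b, f, ha, hi, hb, hf, h1, h2, h3, h4, h5, h6, h7, h8⟩ :=
    sp_win p c (ho K c) (e - 10) 18 (by push_cast; omega)
  have h9 := all4_spec chk5 ha hi hb hf h1 h2 h3
  have e3 : e - 10 + ((10 : ℕ) : ℤ) = e := by push_cast; ring
  have e1 : i = 10 := ((h5 10 (by norm_num)).1 (by rw [e3]; exact hE)).symm
  subst e1
  have e4 : phN b f 10 = 7 := by
    have := h6 4 10 (by norm_num) (by norm_num) (by norm_num)
    have e5 : K + ((4 : ℕ) : ℤ) - 3 = K + 1 := by push_cast; ring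
    rw [e5, e3, hn'] at this
    omega
  have e5 : phN a 10 10 = 2 := by
    have := h4 3 10 (by norm_num) (by norm_num) (by norm_num)
    have e5 : K + ((3 : ℕ) : ℤ) - 3 = K := by push_cast; ring
    rw [e5, e3, hn] at this
    omega
  unfold F5 at h9
  rw [e4, e5] at h9
  have h10 := srch_pt (by simpa using h9)
  have h11 := Cw_sound p.toPat K (e - 10) 1 6 18 le_rfl le_rfl h8 h10
  have f1 : (K + ((2 : ℕ) : ℤ) - 3, e - 10 + ((16 : ℕ) : ℤ)) = (K - 1, e + 6) := by ext <;> push_cast <;> ring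
  have f2 : (K + ((3 : ℕ) : ℤ) - 3, e - 10 + ((16 : ℕ) : ℤ)) = (K, e + 6) := by ext <;> push_cast <;> ring
  rw [f1, f2] at h11
  refine LC.mono ?_ h11
  intro x hx
  unfold Win at hx
  unfold Bx
  push_cast at hx
  refine ⟨?_, ?_, ?_, ?_⟩ <;> omega

include hG ho in
/-- The merged strand of a special strip with the offset 3. -/
theorem merge {K s : ℤ} (c : p.sp K) (hn : p.P K s % 8 = 5) (hn' : p.P (K + 1) s % 8 = 2) (hE : NoEv p K s 4)
    (hE' : NoEv p (K + 1) s 4) : p.LC (Bx K s) (K, s) (K + 1, s + 3) := by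
  obtain ⟨a, i, b, f, ha, hi, hb, hf, h1, h2, h3, h4, h5, h6, h7, h8⟩ :=
    sp_win p c (ho K c) (s - 5) 10 (by push_cast; omega)
  have h9 := all4_spec chk6 ha hi hb hf h1 h2 h3
  have e3 : s - 5 + ((5 : ℕ) : ℤ) = s := by push_cast; ring
  have e4 : phN b f 5 = 2 := by
    have := h6 4 5 (by norm_num) (by norm_num) (by norm_num)
    have e5 : K + ((4 : ℕ) : ℤ) - 3 = K + 1 := by push_cast; ring
    rw [e5, e3, hn'] at this
    omega
  have e5 : phN a i 5 = 5 := by
    have := h4 3 5 (by norm_num) (by norm_num) (by norm_num)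
    have e5 : K + ((3 : ℕ) : ℤ) - 3 = K := by push_cast; ring
    rw [e5, e3, hn] at this
    omega
  have b1 : bad 5 8 i = false := bad_ff fun hh => by
    have := (h5 i (by omega)).2 rfl
    exact hE _ (by omega) (by omega) this
  have b2 : bad 5 8 f = false := bad_ff fun hh => by
    have := (h7 f (by omega)).2 rfl
    exact hE' _ (by omega) (by omega) this
  unfold F6 at h9
  rw [e4, e5, b1, b2] at h9
  have h10 := srch_pt (by simpa using h9)
  have h11 := Cw_sound p.toPat K (s - 5) 1 6 10 le_rfl le_rfl h8 h10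
  have f1 : (K + ((3 : ℕ) : ℤ) - 3, s - 5 + ((5 : ℕ) : ℤ)) = (K, s) := by ext <;> push_cast <;> ring
  have f2 : (K + ((4 : ℕ) : ℤ) - 3, s - 5 + ((8 : ℕ) : ℤ)) = (K + 1, s + 3) := by ext <;> push_cast <;> ring
  rw [f1, f2] at h11
  refine LC.mono ?_ h11
  intro x hx
  unfold Win at hx
  unfold Bx
  push_cast at hx
  refine ⟨?_, ?_, ?_, ?_⟩ <;> omega

end

end Pool.Agent.Lib.MP_688fd0_co.SQ5.H66
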