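import Pool.Agent.Lib.MP_688fd0_co.SQ5.H66.Chk

/-!
TYPE C2, case B3: CENTRED STRANDS for every pattern of walls with phases such that the special strips have only the offsets
0 and 3. The nodes of the wall `K` are the lines `(K, s)` with `P K s = 5` modulo 8.
-/

set_option autoImplicit false

namespace Pool.Agent.Lib.MP_688fd0_co.SQ5.H66

open Pool.Agent.Lib.MP_688fd0_co.SQ5.H76

section lc

variable {p : Pat}

theorem LC.refl {S : ℤ × ℤ → Prop} (x : ℤ × ℤ) : p.LC S x x := Relation.ReflTransGen.refl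

theorem LC.trans {S : ℤ × ℤ → Prop} {x y z : ℤ × ℤ} (h : p.LC S x y) (h' : p.LC S y z) : p.LC S x z :=
  Relation.ReflTransGen.trans h h'

theorem LC.symm {S : ℤ × ℤ → Prop} {x y : ℤ × ℤ} (h : p.LC S x y) : p.LC S y x := by
  induction h with
  | refl => exact Relation.ReflTransGen.refl
  | tail _ hs ih =>
    exact Relation.ReflTransGen.trans (Relation.ReflTransGen.single ⟨hs.1.symm, hs.2.2, hs.2.1⟩) ih

theorem LC.mono {S S' : ℤ × ℤ → Prop} (hS : ∀ x, S x → S' x) {x y : ℤ × ℤ} (h : p.LC S x y) : p.LC S' x y := by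
  induction h with
  | refl => exact Relation.ReflTransGen.refl
  | tail _ hs ih => exact Relation.ReflTransGen.tail ih ⟨hs.1, hS _ hs.2.1, hS _ hs.2.2⟩

end lc

section ev

variable (p : PPat)

/-- An event of the wall `K` between the levels `s` and `s + 1`. -/
def Ev (K s : ℤ) : Prop := p.P K (s + 1) = p.P K s - 2

theorem Ev.ph {p : PPat} {K s : ℤ} (h : Ev p K s) : p.P K s % 8 = 2 ∨ p.P K s % 8 = 6 := by
  unfold Ev at h
  rcases p.hP K s with h1 | h1
  · omega
  · exact h1.1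

theorem not_ev {p : PPat} {K s : ℤ} (h : ¬ Ev p K s) : p.P K (s + 1) = p.P K s + 1 := by
  unfold Ev at h
  rcases p.hP K s with h1 | h1
  · exact h1
  · exact absurd h1.2 h

theorem bw_bwN {x : ℤ} {n : ℕ} (h : x % 8 = (n : ℤ)) : bw x = bwN n := by
  have hn : n < 8 := by omega
  unfold bw bwN
  rw [h]
  interval_cases n <;> rfl

theorem phN_lt (a e i : ℕ) : phN a e i < 8 := Nat.mod_lt _ (by norm_num)

theorem blt_eq (e i : ℕ) : Nat.blt e i = decide (e < i) := by
  rcases Nat.lt_or_ge e i with h | h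
  · rw [decide_eq_true h]; exact Nat.ble_eq_true_of_le h
  · rw [decide_eq_false (by omega)]
    rcases hb : Nat.blt e i with _ | _
    · rfl
    · have := Nat.le_of_ble_eq_true hb; omega

/-- The phases of a window. -/
theorem wdw (K s : ℤ) (r : ℕ) (hr : (r : ℤ) ≤ p.G) : ∃ a e : ℕ, a < 8 ∧ e ≤ r ∧ evN a e r = true ∧
    (∀ i : ℕ, i ≤ r → p.P K (s + i) % 8 = (phN a e i : ℤ)) ∧ ∀ i : ℕ, i < r → (Ev p K (s + i) ↔ i = e) := by
  classical
  have ha0 : (0 : ℤ) ≤ p.P K s % 8 ∧ p.P K s % 8 < 8 := by omega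
  obtain ⟨e, he, hev⟩ : ∃ e : ℕ, e ≤ r ∧ ∀ i : ℕ, i < r → (Ev p K (s + i) ↔ i = e) := by
    by_cases hex : ∃ e : ℕ, e < r ∧ Ev p K (s + e)
    · obtain ⟨e, he, hE⟩ := hex
      refine ⟨e, he.le, fun i hi => ⟨fun h => ?_, fun h => h ▸ hE⟩⟩
      rcases Nat.lt_trichotomy i e with h1 | h1 | h1
      · have := p.far K (s + i) (s + e) h hE (by omega)
        omega
      · exact h1
      · have := p.far K (s + e) (s + i) hE h (by omega)
        omega
    · push Not at hex
      exact ⟨r, le_rfl, fun i hi => ⟨fun h => absurd h (hex i hi), fun h => by omega⟩⟩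
  have hph : ∀ i : ℕ, i ≤ r → p.P K (s + i) % 8 = (phN (p.P K s % 8).toNat e i : ℤ) := by
    intro i
    induction i with
    | zero =>
      intro _
      unfold phN
      rw [blt_eq, decide_eq_false (by omega)]
      simp only [Bool.false_eq_true, if_false]
      push_cast
      rw [Int.toNat_of_nonneg ha0.1]
      simp
    | succ i ih =>
      intro hi
      have h1 := ih (by omega)
      have e1 : s + ((i + 1 : ℕ) : ℤ) = s + i + 1 := by push_cast; ring
      rw [e1]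
      unfold phN at h1 ⊢
      rw [blt_eq] at h1 ⊢
      by_cases hE : i = e
      · have h2 : Ev p K (s + i) := (hev i (by omega)).2 hE
        unfold Ev at h2
        rw [h2]
        subst hE
        rw [decide_eq_false (by omega : ¬ i < i)] at h1
        rw [decide_eq_true (by omega : i < i + 1)]
        simp only [Bool.false_eq_true, if_false, if_true] at h1 ⊢
        push_cast at h1 ⊢
        omega
      · have h2 : ¬ Ev p K (s + i) := fun h => hE ((hev i (by omega)).1 h)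
        rw [not_ev h2]
        by_cases h3 : e < i
        · rw [decide_eq_true h3] at h1
          rw [decide_eq_true (by omega : e < i + 1)]
          simp only [if_true] at h1 ⊢
          push_cast at h1 ⊢
          omega
        · rw [decide_eq_false h3] at h1
          rw [decide_eq_false (by omega : ¬ e < i + 1)]
          simp only [Bool.false_eq_true, if_false] at h1 ⊢
          push_cast at h1 ⊢
          omega
  refine ⟨(p.P K s % 8).toNat, e, by omega, he, ?_, hph, hev⟩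
  unfold evN
  rcases Nat.lt_or_ge e r with h1 | h1
  · have h2 := ((hev e h1).2 rfl).ph
    have h3 := hph e he
    unfold phN at h3
    rw [blt_eq, decide_eq_false (by omega : ¬ e < e)] at h3
    simp only [Bool.false_eq_true, if_false, Nat.add_zero] at h3
    have h4 : ((p.P K s % 8).toNat + e) % 8 = 2 ∨ ((p.P K s % 8).toNat + e) % 8 = 6 := by
      push_cast at h3
      omega
    rcases h4 with h4 | h4 <;> rw [h4] <;> simp
  · have : Nat.ble r e = true := Nat.ble_eq_true_of_le h1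
    rw [this]; rfl

/-- The walls near a special strip. -/
theorem al_left {K : ℤ} (h : p.sp K) (s : ℤ) : p.P (K - 1) s = p.P K s ∧ p.P (K - 2) s = p.P K s := by
  have h1 : ¬ p.sp (K - 1) := fun h' => (p.iso _ h').1 (by rw [sub_add_cancel]; exact h)
  have h2 : ¬ p.sp (K - 2) := fun h' => (p.iso _ h').2 (by rw [sub_add_cancel]; exact h)
  have a1 := p.al _ h1 s
  have a2 := p.al _ h2 s
  rw [sub_add_cancel] at a1
  have e : K - 2 + 1 = K - 1 := by ring
  rw [e] at a2
  exact ⟨a1.symm, by rw [← a2, ← a1]⟩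

theorem al_right {K : ℤ} (h : p.sp K) (s : ℤ) : p.P (K + 2) s = p.P (K + 1) s ∧ p.P (K + 3) s = p.P (K + 1) s := by
  obtain ⟨h1, h2⟩ := p.iso _ h
  have a1 := p.al _ h1 s
  have a2 := p.al _ h2 s
  have e1 : K + 1 + 1 = K + 2 := by ring
  have e2 : K + 2 + 1 = K + 3 := by ring
  rw [e1] at a1
  rw [e2] at a2
  exact ⟨a1, a2.trans a1⟩

/-- The special strip `K` has only the offsets 0 and 3. -/
def Of3 (K : ℤ) : Prop := ∀ s, (p.P K s - p.P (K + 1) s) % 8 = 0 ∨ (p.P K s - p.P (K + 1) s) % 8 = 3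

/-- The window of a special strip. -/
theorem sp_win {K : ℤ} (h : p.sp K) (ho : Of3 p K) (s : ℤ) (r : ℕ) (hr : (r : ℤ) ≤ p.G) : ∃ a e b f : ℕ, a < 8 ∧ e ≤ r ∧
    b < 8 ∧ f ≤ r ∧ evN a e r = true ∧ evN b f r = true ∧ ofA a e b f r = true ∧
    (∀ j i : ℕ, 1 ≤ j → j ≤ 3 → i ≤ r → p.P (K + j - 3) (s + i) % 8 = (phN a e i : ℤ)) ∧
    (∀ i : ℕ, i < r → (Ev p K (s + i) ↔ i = e)) ∧
    (∀ j i : ℕ, 4 ≤ j → j ≤ 6 → i ≤ r → p.P (K + j - 3) (s + i) % 8 = (phN b f i : ℤ)) ∧
    (∀ i : ℕ, i < r → (Ev p (K + 1) (s + i) ↔ i = f)) ∧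
    ∀ j i : ℕ, 1 ≤ j → j ≤ 6 → i ≤ r → p.W (K + j - 3) (s + i) = Lw a e b f j i := by
  obtain ⟨a, e, ha, he, h1, h2, h3⟩ := wdw p K s r hr
  obtain ⟨b, f, hb, hf, h4, h5, h6⟩ := wdw p (K + 1) s r hr
  have hl : ∀ j i : ℕ, 1 ≤ j → j ≤ 3 → i ≤ r → p.P (K + j - 3) (s + i) % 8 = (phN a e i : ℤ) := by
    intro j i hj hj' hi
    have h9 := al_left p h (s + i)
    have h8 : p.P (K + j - 3) (s + i) = p.P K (s + i) := by
      have : j = 1 ∨ j = 2 ∨ j = 3 := by omega
      rcases this with rfl | rfl | rfl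
      · have e1 : K + ((1 : ℕ) : ℤ) - 3 = K - 2 := by push_cast; ring
        rw [e1]; exact h9.2
      · have e1 : K + ((2 : ℕ) : ℤ) - 3 = K - 1 := by push_cast; ring
        rw [e1]; exact h9.1
      · have e1 : K + ((3 : ℕ) : ℤ) - 3 = K := by push_cast; ring
        rw [e1]
    rw [h8]
    exact h2 i hi
  have hr' : ∀ j i : ℕ, 4 ≤ j → j ≤ 6 → i ≤ r → p.P (K + j - 3) (s + i) % 8 = (phN b f i : ℤ) := by
    intro j i hj hj' hi
    have h9 := al_right p h (s + i)
    have h8 : p.P (K + j - 3) (s + i) = p.P (K + 1) (s + i) := by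
      have : j = 4 ∨ j = 5 ∨ j = 6 := by omega
      rcases this with rfl | rfl | rfl
      · have e1 : K + ((4 : ℕ) : ℤ) - 3 = K + 1 := by push_cast; ring
        rw [e1]
      · have e1 : K + ((5 : ℕ) : ℤ) - 3 = K + 2 := by push_cast; ring
        rw [e1]; exact h9.1
      · have e1 : K + ((6 : ℕ) : ℤ) - 3 = K + 3 := by push_cast; ring
        rw [e1]; exact h9.2
    rw [h8]
    exact h5 i hi
  refine ⟨a, e, b, f, ha, he, hb, hf, h1, h4, ?_, hl, h3, hr', h6, ?_⟩
  · have key : ∀ n : ℕ, n ≤ r → ofN (phN a e n) (phN b f n) = true := by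
      intro n hn
      have a1 := ho (s + n)
      have a2 := h2 n hn
      have a3 := h5 n hn
      have a4 := phN_lt a e n
      have a5 := phN_lt b f n
      unfold ofN
      have a6 : (phN a e n + 8 - phN b f n) % 8 = 0 ∨ (phN a e n + 8 - phN b f n) % 8 = 3 := by omega
      rcases a6 with a6 | a6 <;> rw [a6] <;> rfl
    have key2 : ∀ n : ℕ, n ≤ r → ofA a e b f n = true := by
      intro n
      induction n with
      | zero => intro h; exact key 0 h
      | succ n ih =>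
        intro h
        unfold ofA
        rw [key (n + 1) h, ih (by omega)]
        rfl
    exact key2 r le_rfl
  · intro j i hj hj' hi
    rw [p.hW]
    unfold Lw ph2
    rcases Nat.lt_or_ge 3 j with h7 | h7
    · have hb2 : Nat.ble j 3 = false := by
        rcases hb3 : Nat.ble j 3 with _ | _
        · rfl
        · have := Nat.le_of_ble_eq_true hb3; omega
      rw [hb2]
      simp only [Bool.false_eq_true, if_false]
      exact bw_bwN (hr' j i h7 hj' hi)
    · rw [Nat.ble_eq_true_of_le h7]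
      simp only [if_true]
      exact bw_bwN (hl j i hj h7 hi)

/-- Aligned walls. -/
theorem al_eq {K : ℤ} {lo hi : ℕ} (hal : ∀ j : ℕ, lo ≤ j → j < hi → ¬ p.sp (K + j - 3)) (s : ℤ) :
    ∀ j : ℕ, lo ≤ j → j ≤ hi → p.P (K + j - 3) s = p.P (K + lo - 3) s := by
  intro j hj hj'
  induction j, hj using Nat.le_induction with
  | base => rfl
  | succ j hj ih =>
    have h1 := p.al _ (hal j hj (by omega)) s
    have e : K + ((j + 1 : ℕ) : ℤ) - 3 = K + j - 3 + 1 := by push_cast; ring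
    rw [e, h1]
    exact ih (by omega)

/-- The window of aligned walls. -/
theorem al_win {K : ℤ} {lo hi : ℕ} (hl3 : lo ≤ 3) (hh3 : 3 ≤ hi)
    (hal : ∀ j : ℕ, lo ≤ j → j < hi → ¬ p.sp (K + j - 3)) (s : ℤ) (r : ℕ)
    (hr : (r : ℤ) ≤ p.G) : ∃ a e : ℕ, a < 8 ∧ e ≤ r ∧ evN a e r = true ∧
    (∀ j i : ℕ, lo ≤ j → j ≤ hi → i ≤ r → p.P (K + j - 3) (s + i) % 8 = (phN a e i : ℤ)) ∧
    (∀ i : ℕ, i < r → (Ev p K (s + i) ↔ i = e)) ∧
    ∀ j i : ℕ, lo ≤ j → j ≤ hi → i ≤ r → p.W (K + j - 3) (s + i) = La a e j i := by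
  obtain ⟨a, e, ha, he, h1, h2, h3⟩ := wdw p K s r hr
  have hP : ∀ j i : ℕ, lo ≤ j → j ≤ hi → i ≤ r → p.P (K + j - 3) (s + i) % 8 = (phN a e i : ℤ) := by
    intro j i hj hj' hi
    have e1 := al_eq p hal (s + i) j hj hj'
    have e2 := al_eq p hal (s + i) 3 hl3 hh3
    have e3 : K + ((3 : ℕ) : ℤ) - 3 = K := by push_cast; ring
    rw [e3] at e2
    rw [e1, ← e2]
    exact h2 i hi
  exact ⟨a, e, ha, he, h1, hP, h3, fun j i hj hj' hi => by rw [p.hW]; exact bw_bwN (hP j i hj hj' hi)⟩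

/-- Lines near `(K, s)`. -/
def Bx (K s : ℤ) (x : ℤ × ℤ) : Prop := K - 4 ≤ x.1 ∧ x.1 ≤ K + 4 ∧ s - 16 ≤ x.2 ∧ x.2 ≤ s + 16

theorem ev_alg {K : ℤ} (h : ¬ p.sp K) (s : ℤ) : Ev p (K + 1) s ↔ Ev p K s := by
  unfold Ev
  rw [p.al K h, p.al K h]

/-- Every line is joined to a node. -/
theorem line_node (hG : 64 ≤ p.G) (ho : ∀ K, p.sp K → Of3 p K) (K s : ℤ) :
    ∃ y : ℤ × ℤ, p.LC (Bx K s) (K, s) y ∧ p.P y.1 y.2 % 8 = 5 := by
  have key : ∀ (K0 : ℤ) (j0 : ℕ), p.sp K0 → K = K0 + j0 - 3 → 2 ≤ j0 → j0 ≤ 4 →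
      (∀ a e b f, a < 8 → e ≤ 24 → b < 8 → f ≤ 24 → evN a e 24 = true → evN b f 24 = true → ofA a e b f 24 = true →
        F1 j0 a e b f = true) → ∃ y : ℤ × ℤ, p.LC (Bx K s) (K, s) y ∧ p.P y.1 y.2 % 8 = 5 := by
    intro K0 j0 h0 hK hj hj' hF
    obtain ⟨a, e, b, f, ha, he, hb, hf, h1, h2, h3, h4, h5, h6, h7, h8⟩ :=
      sp_win p h0 (ho K0 h0) (s - 12) 24 (by push_cast; omega)
    have h9 := hF a e b f ha he hb hf h1 h2 h3
    unfold F1 at h9
    rw [Bool.or_eq_true] at h9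
    have h10 : ∃ y : ℕ × ℕ, Cw (Lw a e b f) 1 6 24 (j0, 12) y ∧
        (Nat.ble 1 y.1 && Nat.ble y.1 6 && Nat.beq (ph2 a e b f y.1 y.2) 5) = true := by
      rcases h9 with h9 | h9
      · exact srch_spec h9
      · exact srch_spec h9
    obtain ⟨y, hy, hy2⟩ := h10
    rw [Bool.and_eq_true, Bool.and_eq_true] at hy2
    obtain ⟨⟨y1, y2⟩, y3⟩ := hy2
    have y1' := Nat.le_of_ble_eq_true y1
    have y2' := Nat.le_of_ble_eq_true y2
    have y3' := Nat.eq_of_beq_eq_true y3
    have h11 := Cw_sound p.toPat K0 (s - 12) 1 6 24 le_rfl le_rfl h8 hy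
    have hyr : y.2 ≤ 24 := by
      have hw : Win K0 (s - 12) 24 (K0 + (y.1 : ℤ) - 3, s - 12 + (y.2 : ℤ)) := by
        rcases Relation.ReflTransGen.cases_tail h11 with h | ⟨z, _, _, _, hz⟩
        · have e1 : (K0 + (y.1 : ℤ) - 3, s - 12 + (y.2 : ℤ)) = (K0 + ((j0, 12) : ℕ × ℕ).1 - 3, s - 12 + (((j0, 12) : ℕ × ℕ).2 : ℤ)) := h
          rw [e1]
          unfold Win
          refine ⟨?_, ?_, ?_, ?_⟩ <;> push_cast <;> omega
        · exact hz
      unfold Win at hw
      have := hw.2.2.2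
      simp only at this
      push_cast at this
      omega
    refine ⟨(K0 + y.1 - 3, s - 12 + y.2), ?_, ?_⟩
    · have e1 : (K, s) = (K0 + ((j0, 12) : ℕ × ℕ).1 - 3, s - 12 + (((j0, 12) : ℕ × ℕ).2 : ℤ)) := by
        ext
        · exact hK
        · push_cast; ring
      rw [e1]
      refine LC.mono ?_ h11
      intro x hx
      unfold Win at hx
      unfold Bx
      push_cast at hx
      push_cast
      refine ⟨?_, ?_, ?_, ?_⟩ <;> omega
    · show p.P (K0 + (y.1 : ℤ) - 3) (s - 12 + (y.2 : ℤ)) % 8 = 5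
      unfold ph2 at y3'
      rcases Nat.lt_or_ge 3 y.1 with h12 | h12
      · have hb2 : Nat.ble y.1 3 = false := by
          rcases hb3 : Nat.ble y.1 3 with _ | _
          · rfl
          · have := Nat.le_of_ble_eq_true hb3; omega
        rw [hb2] at y3'
        simp only [Bool.false_eq_true, if_false] at y3'
        rw [h6 y.1 y.2 h12 y2' hyr, y3']
        rfl
      · rw [Nat.ble_eq_true_of_le h12] at y3'
        simp only [if_true] at y3'
        rw [h4 y.1 y.2 y1' h12 hyr, y3']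
        rfl
  by_cases c1 : p.sp K
  · exact key K 3 c1 (by push_cast; ring) (by norm_num) (by norm_num)
      fun a e b f ha he hb hf h1 h2 h3 => all4_spec chk1 ha he hb hf h1 h2 h3
  by_cases c2 : p.sp (K + 1)
  · exact key (K + 1) 2 c2 (by push_cast; ring) (by norm_num) (by norm_num)
      fun a e b f ha he hb hf h1 h2 h3 => all4_spec chk1l ha he hb hf h1 h2 h3
  by_cases c3 : p.sp (K - 1)
  · exact key (K - 1) 4 c3 (by push_cast; ring) (by norm_num) (by norm_num)
      fun a e b f ha he hb hf h1 h2 h3 => all4_spec chk1r ha he hb hf h1 h2 h3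
  obtain ⟨a, e, ha, he, h1, h2, h3, h4⟩ := al_win p (K := K) (lo := 2) (hi := 5) (by norm_num) (by norm_num) (by
      intro j hj hj'
      have : j = 2 ∨ j = 3 ∨ j = 4 := by omega
      rcases this with rfl | rfl | rfl
      · have e1 : K + ((2 : ℕ) : ℤ) - 3 = K - 1 := by push_cast; ring
        rw [e1]; exact c3
      · have e1 : K + ((3 : ℕ) : ℤ) - 3 = K := by push_cast; ring
        rw [e1]; exact c1
      · have e1 : K + ((4 : ℕ) : ℤ) - 3 = K + 1 := by push_cast; ring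
        rw [e1]; exact c2) (s - 12) 24 (by push_cast; omega)
  have h9 := all2_spec chg1 ha he h1
  unfold G1 at h9
  rw [Bool.or_eq_true] at h9
  have h10 : ∃ y : ℕ × ℕ, Cw (La a e) 2 5 24 (3, 12) y ∧
      (Nat.ble 2 y.1 && Nat.ble y.1 5 && Nat.beq (phN a e y.2) 5) = true := by
    rcases h9 with h9 | h9
    · exact srch_spec h9
    · exact srch_spec h9
  obtain ⟨y, hy, hy2⟩ := h10
  rw [Bool.and_eq_true, Bool.and_eq_true] at hy2
  obtain ⟨⟨y1, y2⟩, y3⟩ := hy2
  have y1' := Nat.le_of_ble_eq_true y1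
  have y2' := Nat.le_of_ble_eq_true y2
  have y3' := Nat.eq_of_beq_eq_true y3
  have h11 := Cw_sound p.toPat K (s - 12) 2 5 24 (by norm_num) (by norm_num) h4 hy
  have hyr : y.2 ≤ 24 := by
    have hw : Win K (s - 12) 24 (K + (y.1 : ℤ) - 3, s - 12 + (y.2 : ℤ)) := by
      rcases Relation.ReflTransGen.cases_tail h11 with h | ⟨z, _, _, _, hz⟩
      · have e1 : (K + (y.1 : ℤ) - 3, s - 12 + (y.2 : ℤ)) = (K + ((3, 12) : ℕ × ℕ).1 - 3, s - 12 + (((3, 12) : ℕ × ℕ).2 : ℤ)) := h
        rw [e1]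
        unfold Win
        refine ⟨?_, ?_, ?_, ?_⟩ <;> push_cast <;> omega
      · exact hz
    unfold Win at hw
    have := hw.2.2.2
    simp only at this
    push_cast at this
    omega
  refine ⟨(K + y.1 - 3, s - 12 + y.2), ?_, ?_⟩
  · have e1 : (K, s) = (K + ((3, 12) : ℕ × ℕ).1 - 3, s - 12 + (((3, 12) : ℕ × ℕ).2 : ℤ)) := by
      ext
      · push_cast; ring
      · push_cast; ring
    rw [e1]
    refine LC.mono ?_ h11
    intro x hx
    unfold Win at hx
    unfold Bx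
    push_cast at hx
    push_cast
    refine ⟨?_, ?_, ?_, ?_⟩ <;> omega
  · show p.P (K + (y.1 : ℤ) - 3) (s - 12 + (y.2 : ℤ)) % 8 = 5
    rw [h2 y.1 y.2 y1' y2' hyr, y3']
    rfl

end ev

end Pool.Agent.Lib.MP_688fd0_co.SQ5.H66
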