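import Pool.Agent.Lib.MP_688fd0_co.SQ5.H66.Sim

/-!
TYPE C2, case B3: the finite checks (windows of a special strip: phases `p` with an event at `e` on the left, `q`, `f` on
the right; no event if `e = r`).
-/

set_option autoImplicit false

namespace Pool.Agent.Lib.MP_688fd0_co.SQ5.H66

/-- The event is at the phase 2 or 6. -/
def evN (p e r : ℕ) : Bool := Nat.ble r e || Nat.beq ((p + e) % 8) 2 || Nat.beq ((p + e) % 8) 6

/-- The phase difference is 0 or 3. -/
def ofN (x y : ℕ) : Bool :=
  let d := (x + 8 - y) % 8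
  Nat.beq d 0 || Nat.beq d 3

/-- The offsets are allowed. -/
def ofA (p e q f : ℕ) : ℕ → Bool
  | 0 => ofN (phN p e 0) (phN q f 0)
  | n + 1 => ofN (phN p e (n + 1)) (phN q f (n + 1)) && ofA p e q f n

/-- All windows. -/
def all4 (r : ℕ) (F : ℕ → ℕ → ℕ → ℕ → Bool) : Bool :=
  (List.range 8).all fun p => (List.range (r + 1)).all fun e => !evN p e r || (List.range 8).all fun q =>
    !ofN (phN p e 0) q || (List.range (r + 1)).all fun f => !(evN q f r && ofA p e q f r) || F p e q f

theorem all4_spec {r : ℕ} {F : ℕ → ℕ → ℕ → ℕ → Bool} (h : all4 r F = true) {p e q f : ℕ} (hp : p < 8) (he : e ≤ r)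
    (hq : q < 8) (hf : f ≤ r) (h1 : evN p e r = true) (h2 : evN q f r = true) (h3 : ofA p e q f r = true) :
    F p e q f = true := by
  unfold all4 at h
  rw [List.all_eq_true] at h
  have a1 := h p (List.mem_range.2 hp)
  rw [List.all_eq_true] at a1
  have a2 := a1 e (List.mem_range.2 (by omega))
  rw [h1] at a2
  simp only [Bool.not_true, Bool.false_or] at a2
  rw [List.all_eq_true] at a2
  have a3 := a2 q (List.mem_range.2 hq)
  have h4 : ofN (phN p e 0) q = true := by
    have key : ∀ n, ofA p e q f n = true → ofN (phN p e 0) (phN q f 0) = true := by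
      intro n
      induction n with
      | zero => exact id
      | succ n ih => intro h; unfold ofA at h; rw [Bool.and_eq_true] at h; exact ih h.2
    have h5 := key r h3
    have h6 : phN q f 0 = q := by
      unfold phN
      have : Nat.blt f 0 = false := by cases f <;> rfl
      rw [this]
      simp [Nat.mod_eq_of_lt hq]
    rwa [h6] at h5
  rw [h4] at a3
  simp only [Bool.not_true, Bool.false_or] at a3
  rw [List.all_eq_true] at a3
  have a4 := a3 f (List.mem_range.2 (by omega))
  rw [h2, h3] at a4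
  simpa using a4

/-- The letters of the window. -/
def Lw (p e q f j i : ℕ) : Bool := bwN (ph2 p e q f j i)

/-- All windows of aligned walls. -/
def all2 (r : ℕ) (F : ℕ → ℕ → Bool) : Bool :=
  (List.range 8).all fun p => (List.range (r + 1)).all fun e => !evN p e r || F p e

theorem all2_spec {r : ℕ} {F : ℕ → ℕ → Bool} (h : all2 r F = true) {p e : ℕ} (hp : p < 8) (he : e ≤ r)
    (h1 : evN p e r = true) : F p e = true := by
  unfold all2 at h
  rw [List.all_eq_true] at h
  have a1 := h p (List.mem_range.2 hp)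
  rw [List.all_eq_true] at a1
  have a2 := a1 e (List.mem_range.2 (by omega))
  rw [h1] at a2
  simpa using a2

/-- The letters of a window of aligned walls. -/
def La (p e _j i : ℕ) : Bool := bwN (phN p e i)


/-- The event is at one of the levels `a .. b`. -/
def bad (a b e : ℕ) : Bool := Nat.ble a e && Nat.ble e b

/-- C1: every line of the strip `j` reaches a reference line. -/
def F1 (j p e q f : ℕ) : Bool :=
  srch (Lw p e q f) (fun j i => Nat.ble 1 j && Nat.ble j 6 && Nat.beq (ph2 p e q f j i) 5) 1 6 24 14 (j, 12, false) ||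
    srch (Lw p e q f) (fun j i => Nat.ble 1 j && Nat.ble j 6 && Nat.beq (ph2 p e q f j i) 5) 1 6 24 14 (j, 12, true)

theorem chk1 : all4 24 (F1 3) = true := by decide +kernel

theorem chk1l : all4 24 (F1 2) = true := by decide +kernel

theorem chk1r : all4 24 (F1 4) = true := by decide +kernel

/-- The right excursion of the wall 3. -/
def F2 (p e q f : ℕ) : Bool :=
  !(Nat.beq (phN p e 5) 5) || bad 5 12 e ||
    srch (Lw p e q f) (fun j i => Nat.beq j 2 && Nat.beq i 9) 1 6 14 20 (3, 5, true)

theorem chk2 : all4 14 F2 = true := by decide +kernel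

/-- The left excursion of the wall 4. -/
def F3 (p e q f : ℕ) : Bool :=
  !(Nat.beq (phN q f 5) 1) || bad 1 8 f ||
    srch (Lw p e q f) (fun j i => Nat.beq j 4 && Nat.beq i 9) 1 6 14 20 (3, 5, false)

theorem chk3 : all4 14 F3 = true := by decide +kernel

/-- The cap below the `a`-event of the wall 4. -/
def F4 (p e q f : ℕ) : Bool :=
  Nat.beq e 10 || !(Nat.beq f 10) || !(Nat.beq (phN q f 10) 2) || !(Nat.beq (phN p e 10) 2) ||
    srch (Lw p e q f) (fun j i => Nat.beq j 4 && Nat.beq i 5) 1 6 14 20 (5, 5, true)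

theorem chk4 : all4 14 F4 = true := by decide +kernel

/-- The cup above the `a`-event of the wall 3. -/
def F5 (p e q f : ℕ) : Bool :=
  !(Nat.beq e 10) || !(Nat.beq (phN p e 10) 2) || !(Nat.beq (phN q f 10) 7) ||
    srch (Lw p e q f) (fun j i => Nat.beq j 3 && Nat.beq i 16) 1 6 18 20 (2, 16, false)

theorem chk5 : all4 18 F5 = true := by decide +kernel

/-- The merged strand. -/
def F6 (p e q f : ℕ) : Bool :=
  !(Nat.beq (phN p e 5) 5) || !(Nat.beq (phN q f 5) 2) || bad 5 8 e || bad 5 8 f ||
    srch (Lw p e q f) (fun j i => Nat.beq j 4 && Nat.beq i 8) 1 6 10 20 (3, 5, true)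

theorem chk6 : all4 10 F6 = true := by decide +kernel

/-- Aligned, C1. -/
def G1 (p e : ℕ) : Bool :=
  srch (La p e) (fun j i => Nat.ble 2 j && Nat.ble j 5 && Nat.beq (phN p e i) 5) 2 5 24 14 (3, 12, false) ||
    srch (La p e) (fun j i => Nat.ble 2 j && Nat.ble j 5 && Nat.beq (phN p e i) 5) 2 5 24 14 (3, 12, true)

theorem chg1 : all2 24 G1 = true := by decide +kernel

/-- Aligned: the right excursion of the wall 3. -/
def G2 (p e : ℕ) : Bool :=
  !(Nat.beq (phN p e 5) 5) || bad 5 8 e ||
    srch (La p e) (fun j i => Nat.beq j 2 && Nat.beq i 9) 3 4 10 20 (3, 5, true)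

theorem chg2 : all2 10 G2 = true := by decide +kernel

/-- Aligned: the left excursion of the wall 4. -/
def G3 (p e : ℕ) : Bool :=
  !(Nat.beq (phN p e 5) 1) || bad 5 8 e ||
    srch (La p e) (fun j i => Nat.beq j 4 && Nat.beq i 9) 3 4 10 20 (3, 5, false)

theorem chg3 : all2 10 G3 = true := by decide +kernel

/-- Aligned: the `a`-event. -/
def G4 (p e : ℕ) : Bool :=
  !(Nat.beq e 10) || !(Nat.beq (phN p e 10) 2) ||
    srch (La p e) (fun j i => Nat.beq j 2 && Nat.beq i 16) 1 4 18 20 (3, 5, true)

theorem chg4 : all2 18 G4 = true := by decide +kernel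

/-- Aligned: the `b`-event. -/
def G5 (p e : ℕ) : Bool :=
  !(Nat.beq e 6) || !(Nat.beq (phN p e 6) 6) ||
    srch (La p e) (fun j i => Nat.beq j 4 && Nat.beq i 8) 3 4 10 20 (3, 5, true)

theorem chg5 : all2 10 G5 = true := by decide +kernel

end Pool.Agent.Lib.MP_688fd0_co.SQ5.H66
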