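import Pool.Agent.Lib.MP_688fd0_co.SQ5.H66.Arcs
import Pool.Agent.Lib.MP_688fd0_co.SQ5.H76.Geo

/-!
TYPE C2, case B3, row FLUSH: every line of the base is joined to every node of a run of one of the walls `c1 .. c2` of some
copy of the block.

Hypotheses: the special strips (and the sea) have the offsets 0 and 3; the changes of the type of the events are far apart;
an `a`-`b`-change of the left shore is never near a `b`-`a`-change of the right shore.
-/

set_option autoImplicit false

namespace Pool.Agent.Lib.MP_688fd0_co.SQ5.H66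

open Pool.Agent.Lib.MP_688fd0_co.SQ5.H76

variable {L : AddSubgroup (ℤ × ℤ)} {M R : ℕ} {dc : ℕ → ℤ} {spc : ℕ → Prop} {G : ℤ} (g : Geo L M R dc spc G)

/-- The level of the event `n` of the wall `K`. -/
def evl (K n : ℤ) : ℤ := g.Lv K + g.w.e n

/-- The event `n` is an `a`-event. -/
def TyA (n : ℤ) : Prop := (g.w.e n - 3 * n) % 8 = 2

theorem tyB {n : ℤ} (h : ¬ TyA g n) : (g.w.e n - 3 * n) % 8 = 6 := by
  rcases g.w.ph n with h1 | h1
  · exact absurd h1 h
  · exact h1

/-- The phase in the run `n`. -/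
theorem P_run {K n s : ℤ} (h1 : evl g K n < s) (h2 : s ≤ evl g K (n + 1)) : g.P K s = s - g.Lv K - 3 * (n + 1) := by
  unfold evl at h1 h2
  have h3 : g.w.N (s - g.Lv K) = n + 1 := (g.w.hN _ _).2 ⟨by rw [add_sub_cancel_right]; linarith, by linarith⟩
  unfold Geo.P Word.P
  rw [h3]

theorem evl_succ (K n : ℤ) : evl g K n + G ≤ evl g K (n + 1) := by
  unfold evl
  have := g.w.he n
  linarith

theorem P_ev (K n : ℤ) : g.P K (evl g K n) = g.w.e n - 3 * n := by
  have h := P_run g (K := K) (n := n - 1) (s := evl g K n) (by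
    have := evl_succ g K (n - 1)
    rw [sub_add_cancel] at this
    have := g.G1
    omega) (by rw [sub_add_cancel])
  rw [h]
  unfold evl
  ring

theorem ev_evl (K n : ℤ) : Ev g.pat K (evl g K n) := by
  unfold Ev
  show g.P K (evl g K n + 1) = g.P K (evl g K n) - 2
  have h := P_run g (K := K) (n := n) (s := evl g K n + 1) (by omega) (by
    have := evl_succ g K n
    have := g.G1
    omega)
  rw [h, P_ev]
  unfold evl
  ring

theorem noev {K n s m : ℤ} (h1 : evl g K n < s) (h2 : s + m ≤ evl g K (n + 1)) : NoEv g.pat K s m := by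
  intro u hu hu' hE
  unfold Ev at hE
  have a1 : g.P K (u + 1) = _ := P_run g (K := K) (n := n) (s := u + 1) (by omega) (by omega)
  have a2 : g.P K u = _ := P_run g (K := K) (n := n) (s := u) (by omega) (by omega)
  have hE' : g.P K (u + 1) = g.P K u - 2 := hE
  rw [a1, a2] at hE'
  omega

/-- The first node of the run `n` of the wall `K`. -/
def nd (K n : ℤ) : ℤ := evl g K n + 1 + (5 - (g.w.e n - 3 * n - 2)) % 8

section

variable (hG : 64 ≤ G)

include hG in
theorem nd_spec (K n : ℤ) : evl g K n < nd g K n ∧ nd g K n ≤ evl g K n + 8 ∧ nd g K n + 40 ≤ evl g K (n + 1) ∧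
    g.P K (nd g K n) % 8 = 5 := by
  have h0 : evl g K n < nd g K n ∧ nd g K n ≤ evl g K n + 8 := by unfold nd; omega
  have h1 := evl_succ g K n
  refine ⟨h0.1, h0.2, by omega, ?_⟩
  rw [P_run g h0.1 (by omega)]
  unfold nd evl
  omega

variable (ho : ∀ K, g.pat.sp K → Of3 g.pat K)

/-- Joined lines. -/
def AA (K n K' n' : ℤ) : Prop := g.pat.LC (fun _ => True) (K, nd g K n) (K', nd g K' n')

theorem AA.symm {g : Geo L M R dc spc G} {K n K' n' : ℤ} (h : AA g K n K' n') : AA g K' n' K n := LC.symm h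

theorem AA.trans {g : Geo L M R dc spc G} {K n K' n' K'' n'' : ℤ} (h : AA g K n K' n') (h' : AA g K' n' K'' n'') :
    AA g K n K'' n'' := LC.trans h h'

include hG ho in
/-- All nodes of a run are joined. -/
theorem run_node {K n s : ℤ} (h1 : evl g K n < s) (h2 : s ≤ evl g K (n + 1)) (hs : g.P K s % 8 = 5) :
    g.pat.LC (fun _ => True) (K, nd g K n) (K, s) := by
  obtain ⟨a1, a2, a3, a4⟩ := nd_spec g hG K n
  have b1 := P_run g h1 h2
  have b2 := P_run g a1 (by omega : nd g K n ≤ evl g K (n + 1))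
  obtain ⟨m, hm⟩ : ∃ m : ℕ, s = nd g K n + 8 * m := by
    have h3 : (s - nd g K n) % 8 = 0 := by omega
    exact ⟨((s - nd g K n) / 8).toNat, by omega⟩
  subst hm
  clear b1
  induction m with
  | zero => simpa using LC.refl _
  | succ m ih =>
    have e : nd g K n + 8 * ((m + 1 : ℕ) : ℤ) = nd g K n + 8 * m + 8 := by push_cast; ring
    rw [e] at h2 ⊢
    have b3 := P_run g (K := K) (n := n) (s := nd g K n + 8 * m) (by omega) (by omega)
    have h4 : g.P K (nd g K n + 8 * m) % 8 = 5 := by omega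
    refine LC.trans (ih (by omega) (by omega) h4) ?_
    exact LC.mono (fun _ _ => trivial) (up_step (p := g.pat) hG ho (K := K) (s := nd g K n + 8 * m) h4
      (noev g (n := n) (by omega) (by omega)))

include hG ho in
/-- A connection between nodes gives a connection of runs. -/
theorem AA_of {K n K' n' s s' : ℤ} (h1 : evl g K n < s) (h2 : s ≤ evl g K (n + 1)) (hs : g.P K s % 8 = 5)
    (h1' : evl g K' n' < s') (h2' : s' ≤ evl g K' (n' + 1)) (hs' : g.P K' s' % 8 = 5)
    {S : ℤ × ℤ → Prop} (h : g.pat.LC S (K, s) (K', s')) : AA g K n K' n' :=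
  LC.trans (run_node g hG ho h1 h2 hs) (LC.trans (LC.mono (fun _ _ => trivial) h)
    (LC.symm (run_node g hG ho h1' h2' hs')))

theorem Lv_al {K : ℤ} (c : ¬ g.pat.sp K) : g.Lv (K + 1) = g.Lv K := by
  have c' : ¬ (K % R = R - 1 ∨ spc (K % R).toNat) := c
  push Not at c'
  rcases g.succ_cases K with ⟨h1, _, h3, _⟩ | ⟨h1, _⟩
  · rw [h3]
    rcases g.kind _ h1 with h4 | h4
    · rw [h4.2.1, add_zero]
    · exact absurd h4.1 c'.2
  · exact absurd h1 c'.1

theorem evl_al {K : ℤ} (c : ¬ g.pat.sp K) (n : ℤ) : evl g (K + 1) n = evl g K n := by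
  unfold evl; rw [Lv_al g c]

include hG ho in
theorem A_b {K n : ℤ} (c : ¬ g.pat.sp K) (hb : ¬ TyA g (n + 1)) : AA g K n (K + 1) (n + 1) := by
  have h1 := arc_b (p := g.pat) hG c (ev_evl g K (n + 1)) (by
    show g.P K _ % 8 = 6
    rw [P_ev]; exact tyB g hb)
  have e1 := P_ev g K (n + 1)
  have t := tyB g hb
  have s1 := evl_succ g K n
  have s2 := evl_succ g K (n + 1)
  have r1 := P_run g (K := K) (n := n) (s := evl g K (n + 1) - 1) (by omega) (by omega)
  have r0 := P_run g (K := K) (n := n) (s := evl g K (n + 1)) (by omega) (by omega)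
  have r2 := P_run g (K := K) (n := n + 1) (s := evl g K (n + 1) + 2) (by omega) (by omega)
  have al : g.P (K + 1) (evl g K (n + 1) + 2) = g.P K (evl g K (n + 1) + 2) := g.pat.al K c _
  exact AA_of g hG ho (s := evl g K (n + 1) - 1) (s' := evl g K (n + 1) + 2) (by omega) (by omega) (by omega)
    (by rw [evl_al g c]; omega) (by rw [evl_al g c]; omega) (by rw [al]; omega) h1

include hG ho in
theorem A_a {K n : ℤ} (c : ¬ g.pat.sp K) (c1 : ¬ g.pat.sp (K - 1)) (c2 : ¬ g.pat.sp (K - 2)) (ha : TyA g (n + 1)) :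
    AA g K n (K - 1) (n + 1) := by
  have h1 := arc_a (p := g.pat) hG c c1 c2 (ev_evl g K (n + 1)) (by
    show g.P K _ % 8 = 2
    rw [P_ev]; exact ha)
  have e1 := P_ev g K (n + 1)
  have t : (g.w.e (n + 1) - 3 * (n + 1)) % 8 = 2 := ha
  have s1 := evl_succ g K n
  have s2 := evl_succ g K (n + 1)
  have r1 := P_run g (K := K) (n := n) (s := evl g K (n + 1) - 5) (by omega) (by omega)
  have r0 := P_run g (K := K) (n := n) (s := evl g K (n + 1)) (by omega) (by omega)
  have r2 := P_run g (K := K) (n := n + 1) (s := evl g K (n + 1) + 6) (by omega) (by omega)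
  have al : g.P (K - 1 + 1) (evl g K (n + 1) + 6) = g.P (K - 1) (evl g K (n + 1) + 6) := g.pat.al (K - 1) c1 _
  have el : evl g (K - 1 + 1) (n + 1) = evl g (K - 1) (n + 1) := evl_al g c1 _
  have el' : evl g (K - 1 + 1) (n + 1 + 1) = evl g (K - 1) (n + 1 + 1) := evl_al g c1 _
  rw [sub_add_cancel] at al el el'
  exact AA_of g hG ho (s := evl g K (n + 1) - 5) (s' := evl g K (n + 1) + 6) (by omega) (by omega) (by omega)
    (by rw [← el]; omega) (by rw [← el']; omega) (by rw [← al]; omega) h1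

/-- The data of a special strip: the event `m` of the right wall is between the events `m + ν - 1` and `m + ν` of the left
wall, at least 20 levels before the latter. -/
structure SpD (K ν : ℤ) : Prop where
  sp : g.pat.sp K
  ph : (g.Lv (K + 1) - g.Lv K - 3 * ν) % 8 = 0
  lt : ∀ m, evl g K (m + ν - 1) < evl g (K + 1) m
  gt : ∀ m, evl g (K + 1) m + 20 ≤ evl g K (m + ν)

include hG ho in
/-- The cap. -/
theorem A_cap {K ν m : ℤ} (d : SpD g K ν) (ha : TyA g m) : AA g (K + 2) (m - 1) (K + 1) (m - 1) := by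
  have t : (g.w.e m - 3 * m) % 8 = 2 := ha
  have a1 := d.lt m
  have a2 := d.gt m
  have a3 := d.ph
  have r0 := P_run g (K := K) (n := m + ν - 1) (s := evl g (K + 1) m) a1 (by rw [sub_add_cancel]; omega)
  have n0 := noev g (K := K) (n := m + ν - 1) (s := evl g (K + 1) m) (m := 1) a1 (by rw [sub_add_cancel]; omega)
  have h1 := cap_a (p := g.pat) hG ho d.sp (ev_evl g (K + 1) m) (by
    show g.P (K + 1) _ % 8 = 2
    rw [P_ev]; exact ha) (by
    show g.P K _ % 8 = 2
    rw [r0]
    unfold evl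
    omega) (n0 _ le_rfl (by omega))
  have c1 : ¬ g.pat.sp (K + 1) := (g.pat.iso K d.sp).1
  have e2 : K + 1 + 1 = K + 2 := by ring
  have el : ∀ n, evl g (K + 2) n = evl g (K + 1) n := fun n => by rw [← e2]; exact evl_al g c1 n
  have al : g.P (K + 2) (evl g (K + 1) m - 5) = g.P (K + 1) (evl g (K + 1) m - 5) := by
    rw [← e2]; exact g.pat.al _ c1 _
  have s1 := evl_succ g (K + 1) (m - 1)
  rw [sub_add_cancel] at s1
  have r1 := P_run g (K := K + 1) (n := m - 1) (s := evl g (K + 1) m - 5) (by omega) (by rw [sub_add_cancel]; omega)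
  have r2 : (evl g (K + 1) m - 5 - g.Lv (K + 1) - 3 * (m - 1 + 1)) % 8 = 5 := by unfold evl; omega
  exact AA_of g hG ho (s := evl g (K + 1) m - 5) (s' := evl g (K + 1) m - 5) (by rw [el]; omega)
    (by rw [el, sub_add_cancel]; omega) (by rw [al, r1]; exact r2) (by omega) (by rw [sub_add_cancel]; omega)
    (by rw [r1]; exact r2) h1

include hG ho in
/-- The cup. -/
theorem A_cup {K ν u : ℤ} (d : SpD g K ν) (ha : TyA g u) : AA g (K - 1) u K u := by
  have t : (g.w.e u - 3 * u) % 8 = 2 := ha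
  have a1 := d.lt (u - ν + 1)
  have a2 := d.gt (u - ν)
  have a3 := d.ph
  have e0 : u - ν + 1 + ν - 1 = u := by ring
  have e1 : u - ν + ν = u := by ring
  rw [e0] at a1
  rw [e1] at a2
  have r0 := P_run g (K := K + 1) (n := u - ν) (s := evl g K u) (by omega) (by omega)
  have h1 := cup_a (p := g.pat) hG ho d.sp (ev_evl g K u) (by
    show g.P K _ % 8 = 2
    rw [P_ev]; exact ha) (by
    show g.P (K + 1) _ % 8 = 7
    rw [r0]
    unfold evl
    omega)
  have c1 : ¬ g.pat.sp (K - 1) := fun h' => (g.pat.iso _ h').1 (by rw [sub_add_cancel]; exact d.sp)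
  have el : ∀ n, evl g K n = evl g (K - 1) n := fun n => by
    have := evl_al g c1 n
    rwa [sub_add_cancel] at this
  have al : g.P K (evl g K u + 6) = g.P (K - 1) (evl g K u + 6) := by
    have := g.pat.al _ c1 (evl g K u + 6)
    rw [sub_add_cancel] at this
    exact this
  have s1 := evl_succ g K u
  have r1 := P_run g (K := K) (n := u) (s := evl g K u + 6) (by omega) (by omega)
  have r2 : (evl g K u + 6 - g.Lv K - 3 * (u + 1)) % 8 = 5 := by unfold evl; omega
  exact AA_of g hG ho (s := evl g K u + 6) (s' := evl g K u + 6) (by rw [← el]; omega) (by rw [← el]; omega)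
    (by rw [← al, r1]; exact r2) (by omega) (by omega) (by rw [r1]; exact r2) h1

include hG ho in
/-- The merged strand. -/
theorem A_mrg {K ν : ℤ} (m : ℤ) (d : SpD g K ν) : AA g K (m + ν - 1) (K + 1) m := by
  have a1 := d.lt m
  have a2 := d.gt m
  have a3 := d.ph
  have a4 := d.lt (m + 1)
  have e0 : m + 1 + ν - 1 = m + ν := by ring
  rw [e0] at a4
  set s : ℤ := evl g (K + 1) m + 1 + (5 - (evl g (K + 1) m + 1 - g.Lv K - 3 * (m + ν))) % 8 with hs
  have b1 : evl g (K + 1) m < s ∧ s ≤ evl g (K + 1) m + 8 := by omega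
  have b2 : (s - g.Lv K - 3 * (m + ν)) % 8 = 5 := by omega
  have r0 := P_run g (K := K) (n := m + ν - 1) (s := s) (by omega) (by rw [sub_add_cancel]; omega)
  rw [sub_add_cancel] at r0
  have r1 := P_run g (K := K + 1) (n := m) (s := s) (by omega) (by omega)
  have r2 := P_run g (K := K + 1) (n := m) (s := s + 3) (by omega) (by omega)
  have h1 := merge (p := g.pat) hG ho (s := s) d.sp (by show g.P K s % 8 = 5; rw [r0]; exact b2)
    (by show g.P (K + 1) s % 8 = 2; rw [r1]; omega)
    (noev g (n := m + ν - 1) (by omega) (by rw [sub_add_cancel]; omega)) (noev g (n := m) (by omega) (by omega))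
  exact AA_of g hG ho (s := s) (s' := s + 3) (by omega) (by rw [sub_add_cancel]; omega) (by rw [r0]; exact b2)
    (by omega) (by omega) (by rw [r2]; omega) h1

end

end Pool.Agent.Lib.MP_688fd0_co.SQ5.H66
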