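import Pool.Agent.Lib.MP_688fd0_co.SQ5.H66.Flush

/-!
TYPE C2, case B3, row FLUSH, second part: the moves along the block, through the sea, and the theorem.
-/

set_option autoImplicit false

namespace Pool.Agent.Lib.MP_688fd0_co.SQ5.H66

open Pool.Agent.Lib.MP_688fd0_co.SQ5.H76

/-! ### Changes -/

/-- The first change above. -/
theorem fst_chg (q : ℤ → Prop) (n : ℤ) (D : ℕ) (h0 : q n) (h : ¬ ∀ i, n ≤ i → i ≤ n + D → q i) :
    ∃ u, n < u ∧ u ≤ n + D ∧ q (u - 1) ∧ ¬ q u := by
  induction D with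
  | zero =>
    exfalso
    apply h
    intro i h1 h2
    have : i = n := by push_cast at h2; omega
    rw [this]; exact h0
  | succ D ih =>
    by_cases hc : ∀ i, n ≤ i → i ≤ n + D → q i
    · refine ⟨n + D + 1, by omega, by push_cast; omega, by
        have := hc (n + D) (by omega) le_rfl
        rwa [add_sub_cancel_right], fun hq => h fun i h1 h2 => ?_⟩
      rcases lt_or_eq_of_le (show i ≤ n + D + 1 by push_cast at h2; omega) with h3 | h3
      · exact hc i h1 (by omega)
      · rw [h3]; exact hq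
    · obtain ⟨u, h1, h2, h3, h4⟩ := ih hc
      exact ⟨u, h1, by push_cast; omega, h3, h4⟩

/-- The last change below. -/
theorem lst_chg (q : ℤ → Prop) (n : ℤ) (D : ℕ) (h0 : q n) (h : ¬ ∀ i, n - D < i → i ≤ n → q i) :
    ∃ u, n - D + 1 < u ∧ u ≤ n ∧ ¬ q (u - 1) ∧ q u := by
  induction D with
  | zero =>
    exfalso
    apply h
    intro i h1 h2
    push_cast at h1
    omega
  | succ D ih =>
    by_cases hc : ∀ i, n - D < i → i ≤ n → q i
    · have hD : D ≠ 0 := by
        rintro rfl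
        apply h
        intro i h1 h2
        have : i = n := by push_cast at h1; omega
        rw [this]; exact h0
      refine ⟨n - D + 1, by push_cast; omega, by omega, fun hq => h fun i h1 h2 => ?_, hc _ (by omega) (by omega)⟩
      rw [add_sub_cancel_right] at hq
      rcases lt_or_eq_of_le (show n - D ≤ i by push_cast at h1; omega) with h3 | h3
      · exact hc i h3 h2
      · rw [← h3]; exact hq
    · obtain ⟨u, h1, h2, h3, h4⟩ := ih hc
      exact ⟨u, by push_cast; omega, h2, h3, h4⟩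

variable {L : AddSubgroup (ℤ × ℤ)} {M R : ℕ} {dc : ℕ → ℤ} {spc : ℕ → Prop} {G : ℤ} (g : Geo L M R dc spc G)

section

variable (hG : 64 ≤ G)
variable (hdl : ∀ k, k + 1 < R → spc k → g.dl k + 20 ≤ G)
variable (hsea : ∀ K : ℤ, K % R = R - 1 → ∀ s, (g.P K s - g.P (K + 1) s) % 8 = 0 ∨ (g.P K s - g.P (K + 1) s) % 8 = 3)

include hsea in
theorem of3 : ∀ K, g.pat.sp K → Of3 g.pat K := by
  intro K hK s
  show (g.P K s - g.P (K + 1) s) % 8 = 0 ∨ (g.P K s - g.P (K + 1) s) % 8 = 3
  rcases g.in_or_sea K with h1 | h1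
  · rcases g.off_in h1 s with h2 | h2
    · left; rw [h2.2]; simp
    · exact h2.2
  · exact hsea K h1 s

include hdl in
/-- Inner special strips. -/
theorem spd_in {K : ℤ} (h : (K % R).toNat + 1 < R) (hs : spc (K % R).toNat) : SpD g K 1 := by
  have h1 : g.Lv (K + 1) = g.Lv K + g.dl (K % R).toNat := by
    rcases g.succ_cases K with ⟨_, _, h3, _⟩ | ⟨h2, _⟩
    · exact h3
    · exfalso; omega
  have h2 : g.dl (K % R).toNat % 8 = 3 ∧ 0 < g.dl (K % R).toNat := by
    rcases g.kind _ h with h3 | h3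
    · exact absurd hs h3.1
    · exact ⟨h3.2.1, h3.2.2.1⟩
  have h3 := hdl _ h hs
  refine ⟨Or.inr hs, by omega, fun m => ?_, fun m => ?_⟩
  · unfold evl
    rw [add_sub_cancel_right]
    omega
  · unfold evl
    have := g.w.he m
    omega

include hsea in
/-- The sea. -/
theorem spd_sea {K : ℤ} (h : K % R = R - 1) : SpD g K g.n := by
  have h1 : g.Lv (K + 1) = g.Lv K + g.sh := by
    rcases g.succ_cases K with ⟨h2, _⟩ | ⟨_, _, h3, _⟩
    · exfalso; omega
    · exact h3
  have hph : (g.sh - 3 * g.n) % 8 = 0 := g.hph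
  have hl := g.l0_pos
  have q1 : g.n - 1 ≤ g.w.Et * g.sh / (g.i0 + g.j0) := (Int.le_ediv_iff_mul_le hl).2 g.hn1
  have q2 : g.w.Et * g.sh / (g.i0 + g.j0) < g.n + 1 := (Int.ediv_lt_iff_lt_mul hl).2 g.hn2
  have hX := g.X0
  have hN : ∀ s, g.n - 1 ≤ g.w.N s - g.w.N (s - g.sh) ∧ g.w.N s - g.w.N (s - g.sh) ≤ g.n := by
    intro s
    have a1 := g.w.two g.G1 g.X0 (σ := g.sh) g.sep s
    have a2 := hsea K h (s + g.Lv K)
    unfold Geo.P Word.P at a2
    rw [h1] at a2
    have e1 : s + g.Lv K - g.Lv K = s := by ring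
    have e2 : s + g.Lv K - (g.Lv K + g.sh) = s - g.sh := by ring
    rw [e1, e2] at a2
    omega
  have hmono := g.w.e_mono g.G1
  refine ⟨Or.inl h, by omega, fun m => ?_, fun m => ?_⟩
  · unfold evl
    rw [h1]
    have a1 := hN (g.sh + g.w.e m + 1)
    have e1 : g.sh + g.w.e m + 1 - g.sh = g.w.e m + 1 := by ring
    rw [e1] at a1
    have a2 : g.w.N (g.w.e m + 1) = m + 1 := (g.w.hN _ _).2 ⟨by rw [add_sub_cancel_right]; omega, by
      have := g.w.he m; have := g.G1; omega⟩
    have a3 := g.w.lt_N (g.sh + g.w.e m + 1)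
    have a4 : g.w.e (m + g.n - 1) ≤ g.w.e (g.w.N (g.sh + g.w.e m + 1) - 1) := hmono.monotone (by omega)
    have a5 := g.sep (m + g.n - 1) m
    have e3 : g.sh = g.i1 + g.j1 - ∑ j ∈ Finset.range (R - 1), g.dl j := rfl
    rw [← e3] at a5
    rcases a5 with a5 | a5
    · linarith
    · exfalso; linarith
  · unfold evl
    rw [h1]
    have a1 := hN (g.sh + g.w.e m)
    have e1 : g.sh + g.w.e m - g.sh = g.w.e m := by ring
    rw [e1] at a1
    have a2 : g.w.N (g.w.e m) = m := (g.w.hN _ _).2 ⟨hmono (by omega), le_rfl⟩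
    have a3 := g.w.N_le (g.sh + g.w.e m)
    have a4 : g.w.e (g.w.N (g.sh + g.w.e m)) ≤ g.w.e (m + g.n) := hmono.monotone (by omega)
    have a5 := g.sep (m + g.n) m
    have e3 : g.sh = g.i1 + g.j1 - ∑ j ∈ Finset.range (R - 1), g.dl j := rfl
    rw [← e3] at a5
    rcases a5 with a5 | a5
    · exfalso; linarith
    · linarith

/-! ### One wall to the left or to the right inside the block -/

include hG hdl hsea

theorem sp_cases (K : ℤ) : (¬ g.pat.sp K) ∨ (K % R = R - 1 ∧ SpD g K g.n) ∨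
    ((K % R).toNat + 1 < R ∧ SpD g K 1) := by
  by_cases c : g.pat.sp K
  · right
    rcases g.in_or_sea K with h | h
    · right
      refine ⟨h, spd_in g hdl h ?_⟩
      rcases (c : K % R = R - 1 ∨ spc (K % R).toNat) with c | c
      · exfalso; omega
      · exact c
    · exact Or.inl ⟨h, spd_sea g hsea h⟩
  · exact Or.inl c

/-- An `a`-run: one wall to the left, upwards. -/
theorem left_a {K n : ℤ} (hK : (K % R).toNat + 1 < R) (h0 : TyA g n) (h1 : TyA g (n + 1)) :
    ∃ n', n ≤ n' ∧ n' ≤ n + 1 ∧ AA g (K + 1) n K n' := by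
  have ho := of3 g hsea
  rcases sp_cases g hG hdl hsea K with c | ⟨c, _⟩ | ⟨_, d⟩
  · rcases sp_cases g hG hdl hsea (K + 1) with c1 | ⟨_, d1⟩ | ⟨_, d1⟩
    · rcases sp_cases g hG hdl hsea (K - 1) with c2 | ⟨_, d2⟩ | ⟨_, d2⟩
      · refine ⟨n + 1, by omega, le_rfl, ?_⟩
        have := A_a g hG ho (K := K + 1) (n := n) c1 (by rw [add_sub_cancel_right]; exact c) (by
          have : K + 1 - 2 = K - 1 := by ring
          rw [this]; exact c2) h1
        rwa [add_sub_cancel_right] at this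
      · refine ⟨n, le_rfl, by omega, ?_⟩
        have := A_cap g hG ho d2 h1
        have e1 : K - 1 + 2 = K + 1 := by ring
        rwa [add_sub_cancel_right, e1, sub_add_cancel] at this
      · refine ⟨n, le_rfl, by omega, ?_⟩
        have := A_cap g hG ho d2 h1
        have e1 : K - 1 + 2 = K + 1 := by ring
        rwa [add_sub_cancel_right, e1, sub_add_cancel] at this
    · refine ⟨n, le_rfl, by omega, ?_⟩
      have := A_cup g hG ho d1 h0
      rw [add_sub_cancel_right] at this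
      exact this.symm
    · refine ⟨n, le_rfl, by omega, ?_⟩
      have := A_cup g hG ho d1 h0
      rw [add_sub_cancel_right] at this
      exact this.symm
  · exfalso; omega
  · refine ⟨n, le_rfl, by omega, ?_⟩
    have := A_mrg g hG ho n d
    rw [add_sub_cancel_right] at this
    exact this.symm

/-- A `b`-run: one wall to the left, downwards. -/
theorem left_b {K n : ℤ} (hK : (K % R).toNat + 1 < R) (h0 : ¬ TyA g n) :
    ∃ n', n - 1 ≤ n' ∧ n' ≤ n ∧ AA g (K + 1) n K n' := by
  have ho := of3 g hsea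
  rcases sp_cases g hG hdl hsea K with c | ⟨c, _⟩ | ⟨_, d⟩
  · refine ⟨n - 1, le_rfl, by omega, ?_⟩
    have := A_b g hG ho (K := K) (n := n - 1) c (by rw [sub_add_cancel]; exact h0)
    rw [sub_add_cancel] at this
    exact this.symm
  · exfalso; omega
  · refine ⟨n, by omega, le_rfl, ?_⟩
    have := A_mrg g hG ho n d
    rw [add_sub_cancel_right] at this
    exact this.symm

/-- An `a`-run: one wall to the right, downwards. -/
theorem right_a {K n : ℤ} (hK : (K % R).toNat + 1 < R) (h0 : TyA g n) (h1 : TyA g (n + 1)) :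
    ∃ n', n - 1 ≤ n' ∧ n' ≤ n ∧ AA g K n (K + 1) n' := by
  have ho := of3 g hsea
  rcases sp_cases g hG hdl hsea K with c | ⟨c, _⟩ | ⟨_, d⟩
  · rcases sp_cases g hG hdl hsea (K + 1) with c1 | ⟨_, d1⟩ | ⟨_, d1⟩
    · rcases sp_cases g hG hdl hsea (K - 1) with c2 | ⟨_, d2⟩ | ⟨_, d2⟩
      · refine ⟨n - 1, le_rfl, by omega, ?_⟩
        have := A_a g hG ho (K := K + 1) (n := n - 1) c1 (by rw [add_sub_cancel_right]; exact c) (by
          have : K + 1 - 2 = K - 1 := by ring
          rw [this]; exact c2) (by rw [sub_add_cancel]; exact h0)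
        rw [add_sub_cancel_right, sub_add_cancel] at this
        exact this.symm
      · refine ⟨n, by omega, le_rfl, ?_⟩
        have := A_cap g hG ho d2 h1
        have e1 : K - 1 + 2 = K + 1 := by ring
        rw [add_sub_cancel_right, e1, sub_add_cancel] at this
        exact this.symm
      · refine ⟨n, by omega, le_rfl, ?_⟩
        have := A_cap g hG ho d2 h1
        have e1 : K - 1 + 2 = K + 1 := by ring
        rw [add_sub_cancel_right, e1, sub_add_cancel] at this
        exact this.symm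
    · refine ⟨n, by omega, le_rfl, ?_⟩
      have := A_cup g hG ho d1 h0
      rwa [add_sub_cancel_right] at this
    · refine ⟨n, by omega, le_rfl, ?_⟩
      have := A_cup g hG ho d1 h0
      rwa [add_sub_cancel_right] at this
  · exfalso; omega
  · refine ⟨n, by omega, le_rfl, ?_⟩
    have := A_mrg g hG ho n d
    rwa [add_sub_cancel_right] at this

/-- A `b`-run: one wall to the right, upwards. -/
theorem right_b {K n : ℤ} (hK : (K % R).toNat + 1 < R) (h1 : ¬ TyA g (n + 1)) :
    ∃ n', n ≤ n' ∧ n' ≤ n + 1 ∧ AA g K n (K + 1) n' := by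
  have ho := of3 g hsea
  rcases sp_cases g hG hdl hsea K with c | ⟨c, _⟩ | ⟨_, d⟩
  · exact ⟨n + 1, by omega, le_rfl, A_b g hG ho c h1⟩
  · exfalso; omega
  · refine ⟨n, le_rfl, by omega, ?_⟩
    have := A_mrg g hG ho n d
    rwa [add_sub_cancel_right] at this

/-! ### Many walls -/

theorem mod_eq (q : ℤ) {r : ℕ} (hr : r < R) : (q * R + r) % R = r := by
  have h : (q * R + r : ℤ) = r + R * q := by ring
  rw [h, Int.add_mul_emod_self_left]
  exact Int.emod_eq_of_lt (by omega) (by omega)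

theorem lefts_a (q : ℤ) {r d : ℕ} {n : ℤ} (hr : r < R) (hd : d ≤ r)
    (h : ∀ i, n ≤ i → i ≤ n + d → TyA g i) :
    ∃ n', n ≤ n' ∧ n' ≤ n + d ∧ AA g (q * R + r) n (q * R + (r - d : ℕ)) n' := by
  induction d with
  | zero => exact ⟨n, le_rfl, by simp, LC.refl _⟩
  | succ d ih =>
    obtain ⟨n', h1, h2, h3⟩ := ih (by omega) fun i hi hi' => h i hi (by push_cast; omega)
    have e1 : ((q * R + (r - (d + 1) : ℕ)) : ℤ) + 1 = q * R + (r - d : ℕ) := by
      have : ((r - d : ℕ) : ℤ) = ((r - (d + 1) : ℕ) : ℤ) + 1 := by omega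
      rw [this]; ring
    have e2 := mod_eq g hG hdl hsea q (r := r - (d + 1)) (by omega)
    obtain ⟨n'', h4, h5, h6⟩ := left_a g hG hdl hsea (K := q * R + (r - (d + 1) : ℕ)) (n := n') (by rw [e2]; omega)
      (h n' h1 (by push_cast; omega)) (h (n' + 1) (by omega) (by push_cast; omega))
    rw [e1] at h6
    exact ⟨n'', by omega, by push_cast; omega, h3.trans h6⟩

theorem lefts_b (q : ℤ) {r d : ℕ} {n : ℤ} (hr : r < R) (hd : d ≤ r)
    (h : ∀ i, n - d < i → i ≤ n → ¬ TyA g i) :
    ∃ n', n - d ≤ n' ∧ n' ≤ n ∧ AA g (q * R + r) n (q * R + (r - d : ℕ)) n' := by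
  induction d with
  | zero => exact ⟨n, by simp, le_rfl, LC.refl _⟩
  | succ d ih =>
    obtain ⟨n', h1, h2, h3⟩ := ih (by omega) fun i hi hi' => h i (by push_cast; omega) hi'
    have e1 : ((q * R + (r - (d + 1) : ℕ)) : ℤ) + 1 = q * R + (r - d : ℕ) := by
      have : ((r - d : ℕ) : ℤ) = ((r - (d + 1) : ℕ) : ℤ) + 1 := by omega
      rw [this]; ring
    have e2 := mod_eq g hG hdl hsea q (r := r - (d + 1)) (by omega)
    obtain ⟨n'', h4, h5, h6⟩ := left_b g hG hdl hsea (K := q * R + (r - (d + 1) : ℕ)) (n := n') (by rw [e2]; omega)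
      (h n' (by push_cast; omega) h2)
    rw [e1] at h6
    exact ⟨n'', by push_cast; omega, by omega, h3.trans h6⟩

theorem rights_a (q : ℤ) {r d : ℕ} {n : ℤ} (hr : r + d < R)
    (h : ∀ i, n - d < i → i ≤ n + 1 → TyA g i) :
    ∃ n', n - d ≤ n' ∧ n' ≤ n ∧ AA g (q * R + r) n (q * R + (r + d : ℕ)) n' := by
  induction d with
  | zero => exact ⟨n, by simp, le_rfl, LC.refl _⟩
  | succ d ih =>
    obtain ⟨n', h1, h2, h3⟩ := ih (by omega) fun i hi hi' => h i (by push_cast; omega) hi'
    have e1 : ((q * R + (r + d : ℕ)) : ℤ) + 1 = q * R + (r + (d + 1) : ℕ) := by push_cast; ring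
    have e2 := mod_eq g hG hdl hsea q (r := r + d) (by omega)
    obtain ⟨n'', h4, h5, h6⟩ := right_a g hG hdl hsea (K := q * R + (r + d : ℕ)) (n := n') (by rw [e2]; omega)
      (h n' (by push_cast; omega) (by omega)) (h (n' + 1) (by push_cast; omega) (by omega))
    rw [e1] at h6
    exact ⟨n'', by push_cast; omega, by omega, h3.trans h6⟩

theorem rights_b (q : ℤ) {r d : ℕ} {n : ℤ} (hr : r + d < R)
    (h : ∀ i, n < i → i ≤ n + d → ¬ TyA g i) :
    ∃ n', n ≤ n' ∧ n' ≤ n + d ∧ AA g (q * R + r) n (q * R + (r + d : ℕ)) n' := by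
  induction d with
  | zero => exact ⟨n, le_rfl, by simp, LC.refl _⟩
  | succ d ih =>
    obtain ⟨n', h1, h2, h3⟩ := ih (by omega) fun i hi hi' => h i hi (by push_cast; omega)
    have e1 : ((q * R + (r + d : ℕ)) : ℤ) + 1 = q * R + (r + (d + 1) : ℕ) := by push_cast; ring
    have e2 := mod_eq g hG hdl hsea q (r := r + d) (by omega)
    obtain ⟨n'', h4, h5, h6⟩ := right_b g hG hdl hsea (K := q * R + (r + d : ℕ)) (n := n') (by rw [e2]; omega)
      (h (n' + 1) (by omega) (by push_cast; omega))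
    rw [e1] at h6
    exact ⟨n'', by omega, by push_cast; omega, h3.trans h6⟩

/-- Through the sea. -/
theorem cross (q n : ℤ) : AA g (q * R + (R - 1 : ℕ)) (n + g.n - 1) ((q + 1) * R + (0 : ℕ)) n := by
  have hR := g.R3
  have e2 := mod_eq g hG hdl hsea q (r := R - 1) (by omega)
  have e3 : ((R - 1 : ℕ) : ℤ) = (R : ℤ) - 1 := by omega
  have d := spd_sea g hsea (K := q * R + (R - 1 : ℕ)) (by rw [e2, e3])
  have := A_mrg g hG (of3 g hsea) n d
  have e1 : ((q * R + (R - 1 : ℕ)) : ℤ) + 1 = (q + 1) * R + (0 : ℕ) := by rw [e3]; push_cast; ring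
  rwa [e1] at this

end

end Pool.Agent.Lib.MP_688fd0_co.SQ5.H66
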