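import Pool.Agent.Lib.MP_688fd0_co.SQ5.H66.Flush2

/-!
TYPE C2, case B3, row FLUSH: the theorem.
-/

set_option autoImplicit false

namespace Pool.Agent.Lib.MP_688fd0_co.SQ5.H66

open Pool.Agent.Lib.MP_688fd0_co.SQ5.H76

variable {L : AddSubgroup (ℤ × ℤ)} {M R : ℕ} {dc : ℕ → ℤ} {spc : ℕ → Prop} {G : ℤ} (g : Geo L M R dc spc G)

/-- The types of the events: changes are far apart, and an `a`-`b`-change of the left shore is far from every
`b`-`a`-change of the right shore. -/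
structure Chg : Prop where
  ab : ∀ u v, TyA g (u - 1) → ¬ TyA g u → ¬ TyA g (v - 1) → TyA g v → u + (4 * R + 8) ≤ v ∨ v + (4 * R + 8) ≤ u
  nc : ∀ u v, TyA g (u - 1) → ¬ TyA g u → ¬ TyA g (v - 1) → TyA g v →
    v + g.n + (4 * R + 8) ≤ u ∨ u + (4 * R + 8) ≤ v + g.n

section

variable (hc : Chg g)

include hc in
theorem Chg.above {u : ℤ} (h0 : TyA g (u - 1)) (h1 : ¬ TyA g u) (i : ℤ) (hi : u ≤ i) (hi' : i < u + (4 * R + 8)) :
    ¬ TyA g i := by
  by_contra hcon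
  obtain ⟨v, h2, h3, h4, h5⟩ := fst_chg (fun i => ¬ TyA g i) u (4 * R + 7) h1
    (fun h => h i hi (by push_cast; omega) hcon)
  rw [not_not] at h5
  push_cast at h3
  rcases hc.ab u v h0 h1 h4 h5 with h6 | h6 <;> omega

include hc in
theorem Chg.below {u : ℤ} (h0 : TyA g (u - 1)) (h1 : ¬ TyA g u) (i : ℤ) (hi : u - (4 * R + 8) ≤ i) (hi' : i < u) :
    TyA g i := by
  by_contra hcon
  obtain ⟨v, h2, h3, h4, h5⟩ := lst_chg (fun i => TyA g i) (u - 1) (4 * R + 8) h0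
    (fun h => hcon (h i (by push_cast; omega) (by omega)))
  push_cast at h2
  rcases hc.ab u v h0 h1 h4 h5 with h6 | h6 <;> omega

include hc in
theorem Chg.above' {v : ℤ} (h0 : ¬ TyA g (v - 1)) (h1 : TyA g v) (i : ℤ) (hi : v ≤ i) (hi' : i < v + (4 * R + 8)) :
    TyA g i := by
  by_contra hcon
  obtain ⟨u, h2, h3, h4, h5⟩ := fst_chg (fun i => TyA g i) v (4 * R + 7) h1
    (fun h => hcon (h i hi (by push_cast; omega)))
  push_cast at h3
  rcases hc.ab u v h4 h5 h0 h1 with h6 | h6 <;> omega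

include hc in
theorem Chg.below' {v : ℤ} (h0 : ¬ TyA g (v - 1)) (h1 : TyA g v) (i : ℤ) (hi : v - (4 * R + 8) ≤ i) (hi' : i < v) :
    ¬ TyA g i := by
  by_contra hcon
  obtain ⟨u, h2, h3, h4, h5⟩ := lst_chg (fun i => ¬ TyA g i) (v - 1) (4 * R + 8) h0
    (fun h => h i (by push_cast; omega) (by omega) hcon)
  rw [not_not] at h4
  push_cast at h2
  rcases hc.ab u v h4 h5 h0 h1 with h6 | h6 <;> omega

variable (hG : 64 ≤ G)
variable (hdl : ∀ k, k + 1 < R → spc k → g.dl k + 20 ≤ G)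
variable (hsea : ∀ K : ℤ, K % R = R - 1 → ∀ s, (g.P K s - g.P (K + 1) s) % 8 = 0 ∨ (g.P K s - g.P (K + 1) s) % 8 = 3)

include hc hG hdl hsea

/-- The part of the block to the right of the wall `c`. -/
theorem left_part (q : ℤ) {c r : ℕ} (h1 : c < r) (h2 : r < R) (n : ℤ) :
    (∃ n', AA g (q * R + r) n (q * R + c) n') ∨ ∃ u n1, TyA g (u - 1) ∧ ¬ TyA g u ∧ u - (R + 1) ≤ n ∧ n ≤ u + (R + 1) ∧
      u - (2 * R + 1) ≤ n1 ∧ n1 ≤ u + (2 * R + 1) ∧ AA g (q * R + r) n (q * R + (R - 1 : ℕ)) n1 := by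
  by_cases hA : ∀ i, n ≤ i → i ≤ n + R → TyA g i
  · left
    obtain ⟨n', _, _, h3⟩ := lefts_a g hG hdl hsea q (r := r) (d := r - c) (n := n) h2 (by omega)
      fun i hi hi' => hA i hi (by omega)
    rw [Nat.sub_sub_self h1.le] at h3
    exact ⟨n', h3⟩
  by_cases hB : ∀ i, n - R < i → i ≤ n → ¬ TyA g i
  · left
    obtain ⟨n', _, _, h3⟩ := lefts_b g hG hdl hsea q (r := r) (d := r - c) (n := n) h2 (by omega)
      fun i hi hi' => hB i (by omega) hi'
    rw [Nat.sub_sub_self h1.le] at h3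
    exact ⟨n', h3⟩
  right
  obtain ⟨u, hu1, hu2, hu3, hu4⟩ : ∃ u, u - (R + 1) ≤ n ∧ n ≤ u + (R + 1) ∧ TyA g (u - 1) ∧ ¬ TyA g u := by
    by_cases t : TyA g n
    · obtain ⟨u, a1, a2, a3, a4⟩ := fst_chg (TyA g) n R t hA
      exact ⟨u, by omega, by omega, a3, a4⟩
    · obtain ⟨u, a1, a2, a3, a4⟩ := lst_chg (fun i => ¬ TyA g i) n R t hB
      rw [not_not] at a3
      exact ⟨u, by omega, by omega, a3, a4⟩
  have e1 : r + (R - 1 - r) = R - 1 := by omega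
  by_cases hn : n ≤ u - 2
  · obtain ⟨n', a1, a2, a3⟩ := rights_a g hG hdl hsea q (r := r) (d := R - 1 - r) (n := n) (by omega)
      fun i hi hi' => hc.below g hu3 hu4 i (by omega) (by omega)
    rw [e1] at a3
    exact ⟨u, n', hu3, hu4, hu1, hu2, by omega, by omega, a3⟩
  · obtain ⟨n', a1, a2, a3⟩ := rights_b g hG hdl hsea q (r := r) (d := R - 1 - r) (n := n) (by omega)
      fun i hi hi' => hc.above g hu3 hu4 i (by omega) (by omega)
    rw [e1] at a3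
    exact ⟨u, n', hu3, hu4, hu1, hu2, by omega, by omega, a3⟩

/-- The part of the block to the left of the wall `c`. -/
theorem right_part (q : ℤ) {c r : ℕ} (h1 : r < c) (h2 : c < R) (n : ℤ) :
    (∃ n', AA g (q * R + r) n (q * R + c) n') ∨ ∃ v n1, ¬ TyA g (v - 1) ∧ TyA g v ∧ v - (R + 2) ≤ n ∧ n ≤ v + (R + 2) ∧
      v - (2 * R + 2) ≤ n1 ∧ n1 ≤ v + (2 * R + 2) ∧ AA g (q * R + r) n (q * R + (0 : ℕ)) n1 := by
  have e0 : r + (c - r) = c := by omega
  by_cases hA : ∀ i, n + 1 - (R + 1 : ℕ) < i → i ≤ n + 1 → TyA g i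
  · left
    obtain ⟨n', _, _, h3⟩ := rights_a g hG hdl hsea q (r := r) (d := c - r) (n := n) (by omega)
      fun i hi hi' => hA i (by push_cast; omega) hi'
    rw [e0] at h3
    exact ⟨n', h3⟩
  by_cases hB : ∀ i, n + 1 ≤ i → i ≤ n + 1 + R → ¬ TyA g i
  · left
    obtain ⟨n', _, _, h3⟩ := rights_b g hG hdl hsea q (r := r) (d := c - r) (n := n) (by omega)
      fun i hi hi' => hB i (by omega) (by omega)
    rw [e0] at h3
    exact ⟨n', h3⟩
  right
  obtain ⟨v, hv1, hv2, hv3, hv4⟩ : ∃ v, v - (R + 2) ≤ n ∧ n ≤ v + (R + 2) ∧ ¬ TyA g (v - 1) ∧ TyA g v := by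
    by_cases t : TyA g (n + 1)
    · obtain ⟨u, a1, a2, a3, a4⟩ := lst_chg (TyA g) (n + 1) (R + 1) t hA
      push_cast at a1
      exact ⟨u, by omega, by omega, a3, a4⟩
    · obtain ⟨u, a1, a2, a3, a4⟩ := fst_chg (fun i => ¬ TyA g i) (n + 1) R t hB
      rw [not_not] at a4
      exact ⟨u, by omega, by omega, a3, a4⟩
  have e1 : r - r = 0 := by omega
  by_cases hn : v ≤ n
  · obtain ⟨n', a1, a2, a3⟩ := lefts_a g hG hdl hsea q (r := r) (d := r) (n := n) (by omega) le_rfl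
      fun i hi hi' => hc.above' g hv3 hv4 i (by omega) (by omega)
    rw [e1] at a3
    exact ⟨v, n', hv3, hv4, hv1, hv2, by omega, by omega, a3⟩
  · obtain ⟨n', a1, a2, a3⟩ := lefts_b g hG hdl hsea q (r := r) (d := r) (n := n) (by omega) le_rfl
      fun i hi hi' => hc.below' g hv3 hv4 i (by omega) (by omega)
    rw [e1] at a3
    exact ⟨v, n', hv3, hv4, hv1, hv2, by omega, by omega, a3⟩

/-- Every run of every wall is joined to a run of a wall `c1 .. c2` of a copy. -/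
theorem flushA {c1 c2 : ℕ} (hc1 : c1 ≤ c2) (hc2 : c2 < R) (q : ℤ) {r : ℕ} (hr : r < R) (n : ℤ) :
    ∃ (q' : ℤ) (r' : ℕ) (n' : ℤ), c1 ≤ r' ∧ r' ≤ c2 ∧ AA g (q * R + r) n (q' * R + r') n' := by
  have hR := g.R3
  rcases Nat.lt_or_ge c2 r with h1 | h1
  · rcases left_part g hc hG hdl hsea q h1 hr n with ⟨n', h2⟩ | ⟨u, n1, u1, u2, u3, u4, u5, u6, u7⟩
    · exact ⟨q, c2, n', hc1, le_rfl, h2⟩
    · have h3 := cross g hG hdl hsea q (n1 - g.n + 1)
      have e1 : n1 - g.n + 1 + g.n - 1 = n1 := by ring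
      rw [e1] at h3
      rcases Nat.eq_zero_or_pos c1 with h4 | h4
      · exact ⟨q + 1, 0, _, by omega, by omega, u7.trans h3⟩
      · rcases right_part g hc hG hdl hsea (q + 1) h4 (by omega) (n1 - g.n + 1) with
          ⟨n', h5⟩ | ⟨v, n2, v1, v2, v3, v4, _, _, _⟩
        · exact ⟨q + 1, c1, n', le_rfl, hc1, (u7.trans h3).trans h5⟩
        · exfalso
          rcases hc.nc u v u1 u2 v1 v2 with h6 | h6 <;> omega
  rcases Nat.lt_or_ge r c1 with h2 | h2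
  · rcases right_part g hc hG hdl hsea q h2 (by omega) n with ⟨n', h3⟩ | ⟨v, n1, v1, v2, v3, v4, v5, v6, v7⟩
    · exact ⟨q, c1, n', le_rfl, hc1, h3⟩
    · have h3 := (cross g hG hdl hsea (q - 1) n1).symm
      rw [sub_add_cancel] at h3
      by_cases h4 : c2 < R - 1
      · rcases left_part g hc hG hdl hsea (q - 1) h4 (by omega) (n1 + g.n - 1) with
          ⟨n', h5⟩ | ⟨u, n2, u1, u2, u3, u4, _, _, _⟩
        · exact ⟨q - 1, c2, n', hc1, le_rfl, (v7.trans h3).trans h5⟩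
        · exfalso
          rcases hc.nc u v u1 u2 v1 v2 with h6 | h6 <;> omega
      · exact ⟨q - 1, R - 1, _, by omega, by omega, v7.trans h3⟩
  · exact ⟨q, r, n, h2, h1, LC.refl _⟩

/-- FLUSH: every line is joined to all nodes of a run of a wall `c1 .. c2` of a copy. -/
theorem flush {c1 c2 : ℕ} (hc1 : c1 ≤ c2) (hc2 : c2 < R) (x : ℤ × ℤ) :
    ∃ K n : ℤ, (c1 : ℤ) ≤ K % R ∧ K % R ≤ c2 ∧ ∀ s, g.Lv K + g.w.e n < s → s ≤ g.Lv K + g.w.e (n + 1) →
      g.P K s % 8 = 5 → g.pat.LC (fun _ => True) x (K, s) := by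
  have ho := of3 g hsea
  have hR := g.R_pos
  obtain ⟨y, h1, h2⟩ := line_node (p := g.pat) hG ho x.1 x.2
  have h2' : g.P y.1 y.2 % 8 = 5 := h2
  obtain ⟨n, h3, h4⟩ : ∃ n, evl g y.1 n < y.2 ∧ y.2 ≤ evl g y.1 (n + 1) := by
    refine ⟨g.w.N (y.2 - g.Lv y.1) - 1, ?_, ?_⟩
    · unfold evl
      have := g.w.lt_N (y.2 - g.Lv y.1)
      linarith
    · unfold evl
      rw [sub_add_cancel]
      have := g.w.N_le (y.2 - g.Lv y.1)
      linarith
  have h5 := LC.symm (run_node g hG ho h3 h4 h2')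
  have m0 := Int.emod_nonneg y.1 (ne_of_gt hR)
  have m1 := Int.emod_lt_of_pos y.1 hR
  have e1 : y.1 = y.1 / R * R + ((y.1 % R).toNat : ℕ) := by
    have := Int.emod_add_mul_ediv y.1 R
    rw [Int.toNat_of_nonneg m0]
    linarith
  obtain ⟨q', r', n', h6, h7, h8⟩ := flushA g hc hG hdl hsea hc1 hc2 (y.1 / R) (r := (y.1 % R).toNat) (by omega) n
  rw [← e1] at h8
  have e2 := mod_eq g hG hdl hsea q' (r := r') (by omega)
  refine ⟨q' * R + r', n', by rw [e2]; exact_mod_cast h6, by rw [e2]; exact_mod_cast h7, fun s hs hs' hp => ?_⟩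
  exact (LC.mono (fun _ _ => trivial) h1).trans (h5.trans (LC.trans h8 (run_node g hG ho hs hs' hp)))

end

end Pool.Agent.Lib.MP_688fd0_co.SQ5.H66
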