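import Pool.Agent.Lib.MP_688fd0_co.SQ5.H67.Strand
import Pool.Agent.Lib.MP_688fd0_co.SQ5.H76.Pull
import Pool.Agent.Lib.MP_688fd0_co.SQ5.H76.Line
import Pool.Agent.Lib.MP_688fd0_co.SQ5.H66.Flush3

/-!
TYPE C2, case B3: connected lines of the plane give connected elements of the group.
-/

set_option autoImplicit false

namespace Pool.Agent.Lib.MP_688fd0_co.SQ5.H66

open Pool.Agent.Lib.MP_688fd0_co.SQ5.H76

section plane

variable (p : Pat)

theorem cL_le_cR (K s : ℤ) : p.cL K s ≤ p.cR K s := by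
  have h1 := p.gap K s
  have h2 := p.gap K (s + 1)
  have h3 := p.hC K s
  have h4 := p.hC (K + 1) s
  unfold Pat.cL Pat.cR
  rcases ha : p.W K s with _ | _ <;> rcases hb : p.W (K + 1) s with _ | _ <;> rw [ha] at h3 <;> rw [hb] at h4 <;>
    simp only [Bool.false_eq_true, if_false, if_true] at h3 h4 ⊢ <;> omega

/-- The sites of a line are connected inside the line. -/
theorem on_conn {K s : ℤ} {u v : V} (hu : p.onL (K, s) u) (hv : p.onL (K, s) v) : p.Cn (p.onL (K, s)) u v := by
  have key : ∀ (c : ℤ) (n : ℕ), p.cL K s ≤ c → c + n ≤ p.cR K s →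
      p.Cn (p.onL (K, s)) (Pat.lv s c) (Pat.lv s (c + n)) := by
    intro c n h1
    induction n with
    | zero =>
      intro _
      have e : c + ((0 : ℕ) : ℤ) = c := by simp
      rw [e]
      exact Relation.ReflTransGen.refl
    | succ n ih =>
      intro h2
      push_cast at h2
      have e : c + ((n + 1 : ℕ) : ℤ) = c + n + 1 := by push_cast; ring
      rw [e]
      exact Relation.ReflTransGen.tail (ih (by omega)) ⟨H67.E_line p (K := K) (by omega) (by omega),
        ⟨c + n, by simp only; omega, by simp only; omega, rfl⟩, ⟨c + n + 1, by simp only; omega, by simp only; omega, rfl⟩⟩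
  obtain ⟨c, h1, h2, rfl⟩ := hu
  obtain ⟨c', h1', h2', rfl⟩ := hv
  simp only at h1 h2 h1' h2'
  rcases le_total c c' with h | h
  · obtain ⟨n, rfl⟩ := Int.exists_add_of_le h
    exact key c n h1 h2'
  · obtain ⟨n, rfl⟩ := Int.exists_add_of_le h
    exact (key c' n h1' h2).symm

/-- Joined lines. -/
theorem jn_cn {x y : ℤ × ℤ} (h : p.Jn x y) : ∃ u v, p.onL x u ∧ p.onL y v ∧ p.E u v := by
  obtain ⟨K, s, rfl, rfl⟩ := h
  have hE := H67.E_wall p K (s - 1)
  rw [sub_add_cancel] at hE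
  have h3 := p.hC K (s - 1)
  rw [sub_add_cancel] at h3
  refine ⟨_, _, ?_, ?_, hE⟩
  · rcases ha : p.W K (s - 1) with _ | _
    · rw [ha] at h3
      simp only [Bool.false_eq_true, if_false] at h3 ⊢
      have h4 := cL_le_cR p (K - 1) (s - 1)
      have h5 : p.cR (K - 1) (s - 1) = p.C K s := by
        unfold Pat.cR
        rw [sub_add_cancel, ha]
        simp only [Bool.false_eq_true, if_false]
        omega
      exact ⟨p.C K s, by simp only; omega, by simp only; omega, rfl⟩
    · rw [ha] at h3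
      simp only [if_true] at h3 ⊢
      have h4 := cL_le_cR p K (s - 1)
      have h5 : p.cL K (s - 1) = p.C K s := by
        unfold Pat.cL
        rw [ha]
        simp only [if_true]
        omega
      exact ⟨p.C K s, by simp only; omega, by simp only; omega, rfl⟩
  · rcases ha : p.W K s with _ | _
    · simp only [Bool.false_eq_true, if_false]
      have h4 := cL_le_cR p K s
      have h5 : p.cL K s = p.C K s := by
        unfold Pat.cL
        rw [ha]
        simp only [Bool.false_eq_true, if_false]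
      exact ⟨p.C K s, by simp only; omega, by simp only; omega, rfl⟩
    · simp only [if_true]
      have h4 := cL_le_cR p (K - 1) s
      have h5 : p.cR (K - 1) s = p.C K s := by
        unfold Pat.cR
        rw [sub_add_cancel, ha]
        simp only [if_true]
      exact ⟨p.C K s, by simp only; omega, by simp only; omega, rfl⟩

/-- The sites of a set of lines. -/
def OnS (S : ℤ × ℤ → Prop) (v : V) : Prop := ∃ z, S z ∧ p.onL z v

/-- Connected lines have connected sites. -/
theorem lc_cn {S : ℤ × ℤ → Prop} {x y : ℤ × ℤ} (h : p.LC S x y) (hx : S x) {u v : V} (hu : p.onL x u) (hv : p.onL y v) :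
    p.Cn (OnS p S) u v := by
  induction h generalizing v with
  | refl => exact Pat.Cn.mono (fun w hw => ⟨x, hx, hw⟩) (on_conn p hu hv)
  | tail _ hs ih =>
    obtain ⟨h1, h2, h3⟩ := hs
    obtain ⟨u', v', h4, h5, h6⟩ : ∃ u' v', p.onL _ u' ∧ p.onL _ v' ∧ p.E u' v' := by
      rcases h1 with h1 | h1
      · exact jn_cn p h1
      · obtain ⟨u', v', h4, h5, h6⟩ := jn_cn p h1
        exact ⟨v', u', h5, h4, h6.symm⟩
    refine Pat.Cn.trans (ih h4) (Pat.Cn.trans (Relation.ReflTransGen.single ⟨h6, ⟨_, h2, h4⟩, ⟨_, h3, h5⟩⟩) ?_)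
    exact Pat.Cn.mono (fun w hw => ⟨_, h3, hw⟩) (on_conn p h5 hv)

/-- Every site lies on a line. -/
theorem exists_line (v : V) : ∃ x : ℤ × ℤ, p.onL x v := by
  obtain ⟨s, c, rfl⟩ := Pat.exists_lv v
  -- the last wall at or left of the column
  have hlin : ∀ n : ℕ, p.C 0 s + 2 * n ≤ p.C n s := fun n => by
    have := p.C_add 0 s n
    rwa [zero_add] at this
  have hlin' : ∀ n : ℕ, p.C (-n) s + 2 * n ≤ p.C 0 s := fun n => by
    have := p.C_add (-n) s n
    rwa [neg_add_cancel] at this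
  obtain ⟨a, ha1, ha2⟩ : ∃ a : ℕ, c - p.C 0 s ≤ a ∧ p.C 0 s - c ≤ a :=
    ⟨(c - p.C 0 s).natAbs, by omega, by omega⟩
  obtain ⟨K, h1, h2⟩ : ∃ K, p.C K s ≤ c ∧ c < p.C (K + 1) s := by
    have hex : ∃ n : ℕ, c < p.C (-(a : ℤ) + n + 1) s := by
      refine ⟨2 * a, ?_⟩
      have := hlin (a + 1)
      have e : -(a : ℤ) + (2 * a : ℕ) + 1 = ((a + 1 : ℕ) : ℤ) := by push_cast; ring
      rw [e]
      push_cast at this ⊢
      omega
    classical
    obtain ⟨n, hn1, hn2⟩ : ∃ n : ℕ, c < p.C (-(a : ℤ) + n + 1) s ∧ ∀ m < n, ¬ c < p.C (-(a : ℤ) + m + 1) s :=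
      ⟨Nat.find hex, Nat.find_spec hex, fun m hm => Nat.find_min hex hm⟩
    refine ⟨-(a : ℤ) + n, ?_, hn1⟩
    rcases Nat.eq_zero_or_pos n with h0 | h0
    · rw [h0]
      have := hlin' a
      simp only [Nat.cast_zero, add_zero]
      omega
    · have := hn2 (n - 1) (by omega)
      push Not at this
      have e : -(a : ℤ) + ((n - 1 : ℕ) : ℤ) + 1 = -(a : ℤ) + n := by omega
      rwa [e] at this
  by_cases h3 : p.cL K s ≤ c
  · refine ⟨(K, s), c, h3, ?_, rfl⟩
    show c ≤ p.cR K s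
    unfold Pat.cR
    split_ifs <;> omega
  · refine ⟨(K - 1, s), c, ?_, ?_, rfl⟩
    · show p.cL (K - 1) s ≤ c
      have := p.gap (K - 1) s
      rw [sub_add_cancel] at this
      unfold Pat.cL
      split_ifs <;> omega
    · show c ≤ p.cR (K - 1) s
      have : p.W K s = true ∧ c = p.C K s := by
        unfold Pat.cL at h3
        rcases ha : p.W K s with _ | _ <;> rw [ha] at h3
        · simp only [Bool.false_eq_true, if_false] at h3; omega
        · simp only [if_true] at h3
          exact ⟨rfl, by omega⟩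
      unfold Pat.cR
      rw [sub_add_cancel, this.1]
      simp only [if_true]
      omega

end plane

/-! ### The group -/

section group

open Pool.Agent.Lib.MP_688fd0_co.OSF Pool.Agent.Lib.MP_688fd0_co.SQ5.H95

variable {Q : Type*} [Group Q] {B : Lb Q} {l : L3 → B.L} {L : AddSubgroup (ℤ × ℤ)} {M R : ℕ} {dc : ℕ → ℤ}
  {spc : ℕ → Prop} {G : ℤ} (g : Geo L M R dc spc G) (c : Cov B l L)
  (hl : Function.Injective l) (hi : ∀ i, B.inv (l i) = l i) (hii : ∀ x, B.inv (B.inv x) = x)

theorem C_of_Cn {F : HF B} {S : Set Q} {x y : Q} (h : H22.Cn F.Ed S x y) : F.C x y := by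
  induction h with
  | refl => exact Relation.ReflTransGen.refl
  | tail _ hs ih => exact Relation.ReflTransGen.tail ih hs.1

/-- Connected lines of the plane give connected elements of the group. -/
theorem lc_lift {S : ℤ × ℤ → Prop} {z z' : ℤ × ℤ} (h : g.pat.LC S z z') (hz : S z) {u v : V} (hu : g.pat.onL z u)
    (hv : g.pat.onL z' v) {x : Q} (hx : c.Over x u) (Rg : Set Q) (hS : ∀ y w, c.Over y w → OnS g.pat.toPat S w → y ∈ Rg) :
    ∃ y, c.Over y v ∧ H22.Cn (g.F c hl hi hii).Ed Rg x y :=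
  g.Cn_lift c hl hi hii (lc_cn g.pat.toPat h hz hu hv) hx Rg hS

/-- FLUSH in the group: every element is joined in the 2-factor to an element over any given site of any line of phase 5 of
one run of a wall of `C`. -/
theorem flushG (hc : Chg g) (hG : 64 ≤ G) (hdl : ∀ k, k + 1 < R → spc k → g.dl k + 20 ≤ G)
    (hsea : ∀ K : ℤ, K % R = R - 1 → ∀ s, (g.P K s - g.P (K + 1) s) % 8 = 0 ∨ (g.P K s - g.P (K + 1) s) % 8 = 3)
    {c1 c2 : ℕ} (hc1 : c1 ≤ c2) (hc2 : c2 < R) (x : Q) :
    ∃ K n : ℤ, (c1 : ℤ) ≤ K % R ∧ K % R ≤ c2 ∧ ∀ s, g.Lv K + g.w.e n < s → s ≤ g.Lv K + g.w.e (n + 1) →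
      g.P K s % 8 = 5 → ∀ v, g.pat.onL (K, s) v → ∃ y, c.Over y v ∧ (g.F c hl hi hii).C x y := by
  obtain ⟨z, hz⟩ := exists_line g.pat.toPat (c.st x)
  obtain ⟨K, n, h1, h2, h3⟩ := flush g hc hG hdl hsea hc1 hc2 z
  refine ⟨K, n, h1, h2, fun s hs hs' hp v hv => ?_⟩
  obtain ⟨y, h4, h5⟩ := lc_lift g c hl hi hii (h3 s hs hs' hp) trivial hz hv (c.over_st x) Set.univ
    (fun _ _ _ _ => Set.mem_univ _)
  exact ⟨y, h4, C_of_Cn h5⟩

end group

end Pool.Agent.Lib.MP_688fd0_co.SQ5.H66
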