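import Pool.Agent.Lib.MP_688fd0_co.SQ5.H76.Lay

/-!
TYPE C2, case B3: simulation of the line graph in a window, walls `j` (center `3` = the wall `K`), levels `i`.
-/

set_option autoImplicit false

namespace Pool.Agent.Lib.MP_688fd0_co.SQ5.H66

open Pool.Agent.Lib.MP_688fd0_co.SQ5.H76

/-! ### The simulation -/

/-- The letter of a phase. -/
def bwN (x : ℕ) : Bool := Nat.testBit 75 (x % 8)

/-- The phase at the level `i` of a wall with the phase `p` at the level 0 and an event between `e` and `e + 1`. -/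
def phN (p e i : ℕ) : ℕ := (p + i + if Nat.blt e i then 5 else 0) % 8

/-- The phase of the wall `j`: the walls `0 .. 3` are aligned, and so are the walls `4 ..`. -/
def ph2 (p e q f j i : ℕ) : ℕ := if Nat.ble j 3 then phN p e i else phN q f i

/-- One step of a path: `(strip, level, exit to the right)`. -/
def nxt (L : ℕ → ℕ → Bool) (x : ℕ × ℕ × Bool) : ℕ × ℕ × Bool :=
  if x.2.2 then
    if L (x.1 + 1) x.2.1 then
      if L (x.1 + 1) (x.2.1 - 1) then (x.1 + 1, x.2.1 - 1, true) else (x.1, x.2.1 - 1, false)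
    else
      if L (x.1 + 1) (x.2.1 + 1) then (x.1, x.2.1 + 1, false) else (x.1 + 1, x.2.1 + 1, true)
  else
    if L x.1 x.2.1 then
      if L x.1 (x.2.1 + 1) then (x.1 - 1, x.2.1 + 1, false) else (x.1, x.2.1 + 1, true)
    else
      if L x.1 (x.2.1 - 1) then (x.1, x.2.1 - 1, true) else (x.1 - 1, x.2.1 - 1, false)

/-- The position is inside the window with the known walls `lo .. hi`. -/
def inW (lo hi r : ℕ) (x : ℕ × ℕ × Bool) : Bool :=
  Nat.ble lo x.1 && Nat.ble (x.1 + 1) hi && Nat.ble 1 x.2.1 && Nat.ble (x.2.1 + 1) r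

/-- Search along the path. -/
def srch (L : ℕ → ℕ → Bool) (tgt : ℕ → ℕ → Bool) (lo hi r : ℕ) : ℕ → ℕ × ℕ × Bool → Bool
  | 0, _ => false
  | n + 1, x => tgt x.1 x.2.1 || (inW lo hi r x && srch L tgt lo hi r n (nxt L x))

/-- Connected in the window of width `7` and height `r`. -/
def Cw (L : ℕ → ℕ → Bool) (lo hi r : ℕ) (x y : ℕ × ℕ) : Prop :=
  ∃ (z : ℕ × ℕ × Bool) (n : ℕ), (z.1, z.2.1) = x ∧
    (∀ m < n, inW lo hi r ((nxt L)^[m] z) = true) ∧ (((nxt L)^[n] z).1, ((nxt L)^[n] z).2.1) = y

theorem srch_spec {L : ℕ → ℕ → Bool} {tgt : ℕ → ℕ → Bool} {lo hi r n : ℕ} {x : ℕ × ℕ × Bool}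
    (h : srch L tgt lo hi r n x = true) : ∃ y, Cw L lo hi r (x.1, x.2.1) y ∧ tgt y.1 y.2 = true := by
  have key : ∀ n x, srch L tgt lo hi r n x = true → ∃ m, (∀ m' < m, inW lo hi r ((nxt L)^[m'] x) = true) ∧
      tgt ((nxt L)^[m] x).1 ((nxt L)^[m] x).2.1 = true := by
    intro n
    induction n with
    | zero => intro x h; cases h
    | succ n ih =>
      intro x h
      unfold srch at h
      rw [Bool.or_eq_true, Bool.and_eq_true] at h
      rcases h with h | ⟨h1, h2⟩
      · exact ⟨0, by omega, h⟩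
      · obtain ⟨m, h3, h4⟩ := ih _ h2
        refine ⟨m + 1, ?_, h4⟩
        intro m' hm'
        rcases Nat.eq_zero_or_pos m' with rfl | hp
        · exact h1
        · obtain ⟨m'', rfl⟩ : ∃ m'', m' = m'' + 1 := ⟨m' - 1, by omega⟩
          exact h3 m'' (by omega)
  obtain ⟨m, h1, h2⟩ := key n x h
  exact ⟨_, ⟨x, m, rfl, h1, rfl⟩, h2⟩

/-! ### Soundness -/

section sound

variable (p : Pat) (K s : ℤ) (lo hi r : ℕ)

/-- The lines of the window. -/
def Win (x : ℤ × ℤ) : Prop := K - 3 ≤ x.1 ∧ x.1 ≤ K + 3 ∧ s ≤ x.2 ∧ x.2 ≤ s + r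

variable {L : ℕ → ℕ → Bool} (hlo : 1 ≤ lo) (hhi : hi ≤ 6)
  (hL : ∀ j i : ℕ, lo ≤ j → j ≤ hi → i ≤ r → p.W (K + j - 3) (s + i) = L j i)

theorem jn_up {p : Pat} {K s : ℤ} {c d : Bool} (h1 : p.W K s = c) (h2 : p.W K (s + 1) = d) :
    p.Jn (if c = true then K else K - 1, s) (if d = true then K - 1 else K, s + 1) := by
  refine ⟨K, s + 1, ?_, ?_⟩
  · rw [add_sub_cancel_right, h1]
  · rw [h2]

include hlo hhi hL in
theorem nxt_sound {x : ℕ × ℕ × Bool} (hx : inW lo hi r x = true) :
    p.LC (Win K s r) (K + x.1 - 3, s + x.2.1) (K + (nxt L x).1 - 3, s + (nxt L x).2.1) := by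
  obtain ⟨j, i, sd⟩ := x
  unfold inW at hx
  simp only [Bool.and_eq_true, Nat.ble_eq] at hx
  obtain ⟨⟨⟨h1, h2⟩, h3⟩, h4⟩ := hx
  have hw : Win K s r (K + j - 3, s + i) := by unfold Win; refine ⟨?_, ?_, ?_, ?_⟩ <;> simp only <;> omega
  have one : ∀ y : ℤ × ℤ, (p.Jn (K + j - 3, s + i) y ∨ p.Jn y (K + j - 3, s + i)) → Win K s r y →
      p.LC (Win K s r) (K + j - 3, s + i) y :=
    fun y hy hwy => Relation.ReflTransGen.single ⟨hy, hw, hwy⟩
  have e1 : ((i + 1 : ℕ) : ℤ) = (i : ℤ) + 1 := by push_cast; ring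
  have e2 : ((i - 1 : ℕ) : ℤ) = (i : ℤ) - 1 := by omega
  have e3 : ((j + 1 : ℕ) : ℤ) = (j : ℤ) + 1 := by push_cast; ring
  have e4 : ((j - 1 : ℕ) : ℤ) = (j : ℤ) - 1 := by omega
  cases sd
  · -- exit to the left, wall j
    have a1 := hL j i h1 (by omega) (by omega)
    have a2 := hL j (i + 1) h1 (by omega) (by omega)
    have a3 := hL j (i - 1) h1 (by omega) (by omega)
    rw [e1] at a2
    rw [e2] at a3
    unfold nxt
    simp only [Bool.false_eq_true, if_false]
    rcases hc : L j i with _ | _
    · simp only [Bool.false_eq_true, if_false]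
      rw [hc] at a1
      rcases hd : L j (i - 1) with _ | _
      · rw [hd] at a3
        have h := jn_up (p := p) (K := K + j - 3) (s := s + (i - 1)) a3 (d := false) (by
          have : s + ((i : ℤ) - 1) + 1 = s + i := by ring
          rw [this]; exact a1)
        simp only [Bool.false_eq_true, if_false] at h ⊢
        rw [e4, e2]
        have f1 : K + (j : ℤ) - 3 - 1 = K + (j - 1) - 3 := by ring
        have f2 : s + ((i : ℤ) - 1) + 1 = s + i := by ring
        rw [f1, f2] at h
        exact one _ (Or.inr h) (by unfold Win; refine ⟨?_, ?_, ?_, ?_⟩ <;> simp only <;> omega)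
      · rw [hd] at a3
        have h := jn_up (p := p) (K := K + j - 3) (s := s + (i - 1)) a3 (d := false) (by
          have : s + ((i : ℤ) - 1) + 1 = s + i := by ring
          rw [this]; exact a1)
        simp only [Bool.false_eq_true, if_false, if_true] at h ⊢
        rw [e2]
        have f2 : s + ((i : ℤ) - 1) + 1 = s + i := by ring
        rw [f2] at h
        exact one _ (Or.inr h) (by unfold Win; refine ⟨?_, ?_, ?_, ?_⟩ <;> simp only <;> omega)
    · simp only [if_true]
      rw [hc] at a1
      rcases hd : L j (i + 1) with _ | _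
      · rw [hd] at a2
        have h := jn_up (p := p) (K := K + j - 3) (s := s + i) a1 (d := false) (by
          have : s + (i : ℤ) + 1 = s + (i + 1) := by ring
          rw [this]; exact a2)
        simp only [Bool.false_eq_true, if_false, if_true] at h ⊢
        rw [e1]
        have f2 : s + (i : ℤ) + 1 = s + (i + 1) := by ring
        rw [f2] at h
        exact one _ (Or.inl h) (by unfold Win; refine ⟨?_, ?_, ?_, ?_⟩ <;> simp only <;> omega)
      · rw [hd] at a2
        have h := jn_up (p := p) (K := K + j - 3) (s := s + i) a1 (d := true) (by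
          have : s + (i : ℤ) + 1 = s + (i + 1) := by ring
          rw [this]; exact a2)
        simp only [if_true] at h ⊢
        rw [e1, e4]
        have f1 : K + (j : ℤ) - 3 - 1 = K + (j - 1) - 3 := by ring
        have f2 : s + (i : ℤ) + 1 = s + (i + 1) := by ring
        rw [f1, f2] at h
        exact one _ (Or.inl h) (by unfold Win; refine ⟨?_, ?_, ?_, ?_⟩ <;> simp only <;> omega)
  · -- exit to the right, wall j + 1
    have a1 := hL (j + 1) i (by omega) (by omega) (by omega)
    have a2 := hL (j + 1) (i + 1) (by omega) (by omega) (by omega)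
    have a3 := hL (j + 1) (i - 1) (by omega) (by omega) (by omega)
    rw [e3] at a1 a2 a3
    rw [e1] at a2
    rw [e2] at a3
    have f1 : K + ((j : ℤ) + 1) - 3 - 1 = K + j - 3 := by ring
    have f2 : s + ((i : ℤ) - 1) + 1 = s + i := by ring
    have f3 : s + (i : ℤ) + 1 = s + (i + 1) := by ring
    unfold nxt
    simp only [if_true]
    rcases hc : L (j + 1) i with _ | _
    · simp only [Bool.false_eq_true, if_false]
      rw [hc] at a1
      rcases hd : L (j + 1) (i + 1) with _ | _
      · rw [hd] at a2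
        have h := jn_up (p := p) (K := K + (j + 1) - 3) (s := s + i) a1 (d := false) (by rw [f3]; exact a2)
        simp only [Bool.false_eq_true, if_false] at h ⊢
        rw [e1, e3]
        rw [f1, f3] at h
        exact one _ (Or.inl h) (by unfold Win; refine ⟨?_, ?_, ?_, ?_⟩ <;> simp only <;> omega)
      · rw [hd] at a2
        have h := jn_up (p := p) (K := K + (j + 1) - 3) (s := s + i) a1 (d := true) (by rw [f3]; exact a2)
        simp only [Bool.false_eq_true, if_false, if_true] at h ⊢
        rw [e1]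
        rw [f1, f3] at h
        exact one _ (Or.inl h) (by unfold Win; refine ⟨?_, ?_, ?_, ?_⟩ <;> simp only <;> omega)
    · simp only [if_true]
      rw [hc] at a1
      rcases hd : L (j + 1) (i - 1) with _ | _
      · rw [hd] at a3
        have h := jn_up (p := p) (K := K + (j + 1) - 3) (s := s + (i - 1)) a3 (d := true) (by rw [f2]; exact a1)
        simp only [Bool.false_eq_true, if_false, if_true] at h ⊢
        rw [e2]
        rw [f1, f2] at h
        exact one _ (Or.inr h) (by unfold Win; refine ⟨?_, ?_, ?_, ?_⟩ <;> simp only <;> omega)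
      · rw [hd] at a3
        have h := jn_up (p := p) (K := K + (j + 1) - 3) (s := s + (i - 1)) a3 (d := true) (by rw [f2]; exact a1)
        simp only [if_true] at h ⊢
        rw [e2, e3]
        rw [f1, f2] at h
        exact one _ (Or.inr h) (by unfold Win; refine ⟨?_, ?_, ?_, ?_⟩ <;> simp only <;> omega)

include hlo hhi hL in
theorem Cw_sound {x y : ℕ × ℕ} (h : Cw L lo hi r x y) :
    p.LC (Win K s r) (K + x.1 - 3, s + x.2) (K + y.1 - 3, s + y.2) := by
  obtain ⟨z, n, rfl, h1, rfl⟩ := h
  induction n with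
  | zero => exact Relation.ReflTransGen.refl
  | succ n ih =>
    have h2 := ih (fun m hm => h1 m (by omega))
    have h3 := nxt_sound p K s lo hi r hlo hhi hL (h1 n (by omega))
    rw [Function.iterate_succ_apply']
    exact Relation.ReflTransGen.trans h2 h3

end sound

end Pool.Agent.Lib.MP_688fd0_co.SQ5.H66
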